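import Mathlib
import Pool.Agent.H35.T3.Defs

set_option autoImplicit false

/-!
# Project C3 (MP_6cdc09_gt): real subspaces of codimension three, definitions

Aim.  Let `n ≥ 4` and let `E` be a real subspace of `ℂⁿ` of real dimension `2n - 3`.  Then the
Brunn-Minkowski inequality for `V_E` holds on zonoids.  `a = (a 0, a 1, a 2)` is a real orthonormal
basis of `Eᗮ`.

Way.  `V_E (∑ [0, v_j]) = (1/i!) ∑ gv3 o a (v ∘ f)`, `gv3 o a w = ∫ |det (w, φ a0, φ a1, φ a2)| dφ`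
(module GAdj3).  For vectors `w` (`2n - 5` of them), `e` an orthonormal basis of `{w}ᗮ = ℝ⁵` with
`om` in normal form (module NF5) and `x, y` the coordinates of `u, v`:
`gv3 o a (u, v, w) = D ((6n-9-3kx a) |x ∧ y| + ((2n-1) kx a - 3) XX c1 c2 x y / |x ∧ y|)`,
`XX c1 c2 x y = |x ∧ y ∧ ω|²`, `ω = c1 e0∧e1 + c2 e2∧e3` (module GvEq3, from `ker3`).
Kernel inequality on the unit sphere of `ℝ⁵` (modules KL, KSym, KPos, KNegA, KNegB, KNeg, Cnd5), Lorentzian form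
(Hyp5), trickle-down (BM5), Main5.
-/

open MeasureTheory Pool.Agent.H61.UProj Pool.Agent.H89.CZ Pool.Agent.H35.T3

noncomputable section

namespace Pool.Agent.H85.C3

variable {n i : ℕ}

/-! ### determinants -/

/-- `det (w, p, q, r)` in the real orthonormal basis `o`. -/
def detO3 (o : OrthonormalBasis (Fin (i + 3)) ℝ (Cn n)) (w : Fin i → Cn n) (p q r : Cn n) : ℝ :=
  o.toBasis.det (Fin.append w ![p, q, r])

/-- `∫ |det (w, φ a0, φ a1, φ a2)| dφ`. -/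
def gv3 (o : OrthonormalBasis (Fin (i + 3)) ℝ (Cn n)) (a : Fin 3 → Cn n) (w : Fin i → Cn n) : ℝ :=
  ∫ φ, |detO3 o w (uni φ (a 0)) (uni φ (a 1)) (uni φ (a 2))| ∂(haarU n)

/-! ### the kernel on `ℝ⁵` -/

abbrev V5 := EuclideanSpace ℝ (Fin 5)

/-- minors -/
def mi (j k : Fin 5) (x y : V5) : ℝ := x j * y k - x k * y j

/-- the area of the parallelogram -/
def ar5 (x y : V5) : ℝ := √(‖x‖ ^ 2 * ‖y‖ ^ 2 - (inner ℝ x y) ^ 2)

/-- `|x ∧ y ∧ (c1 e0∧e1 + c2 e2∧e3)|²` -/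
def XX (c1 c2 : ℝ) (x y : V5) : ℝ :=
  (c1 * mi 2 3 x y + c2 * mi 0 1 x y) ^ 2 + c1 ^ 2 * (mi 2 4 x y ^ 2 + mi 3 4 x y ^ 2) +
    c2 ^ 2 * (mi 0 4 x y ^ 2 + mi 1 4 x y ^ 2)

/-- the kernel `|x ∧ y| + b |x ∧ y ∧ ω|² / |x ∧ y|`, `ω = e0∧e1 + c e2∧e3` -/
def K5 (b c : ℝ) (x y : V5) : ℝ := ar5 x y + b * (XX 1 c x y / ar5 x y)

/-- coordinates with respect to five vectors -/
def pr5 (e : Fin 5 → Cn n) (z : Cn n) : V5 := WithLp.toLp 2 (fun l => (inner ℝ (e l) z : ℝ))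

/-! ### double sums: `N = 2m + 2`, `t = ⟨x, y⟩` -/

/-- `x0 y0 + x1 y1` -/
def pd (x y : V5) : ℝ := x 0 * y 0 + x 1 * y 1

/-- `x2 y2 + x3 y3` -/
def qd (x y : V5) : ℝ := x 2 * y 2 + x 3 * y 3

/-- `∑ lam lam' h (u, u')` -/
def SS {ι : Type*} [Fintype ι] (lam : ι → ℝ) (u : ι → V5) (h : V5 → V5 → ℝ) : ℝ :=
  ∑ i, ∑ k, lam i * lam k * h (u i) (u k)

end Pool.Agent.H85.C3
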