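import Mathlib
import Pool.Agent.H85.C3.Defs
import Pool.Agent.H89.CZ.GV

set_option autoImplicit false

/-!
# GV3: the function `gv3 o a w = ∫ |det (w, φ a0, φ a1, φ a2)| dφ`

Copy of `H89/CZ/GV.lean` (three vectors instead of two), and `ZonBM_gv_zero` of
`H89/CZ/ZonBM.lean`.
-/

open MeasureTheory Pool.Agent.H61.UProj Pool.Agent.H89.CZ
open scoped ENNReal

noncomputable section

namespace Pool.Agent.H85.C3

variable {n i : ℕ}

private theorem GV3_cont_append : Continuous (fun q : (Fin i → Cn n) × Cn n × Cn n × Cn n =>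
    (Fin.append q.1 ![q.2.1, q.2.2.1, q.2.2.2] : Fin (i + 3) → Cn n)) := by
  refine continuous_pi fun j => ?_
  refine Fin.addCases (fun k => ?_) (fun k => ?_) j
  · simp only [Fin.append_left]
    exact (continuous_apply k).comp continuous_fst
  · simp only [Fin.append_right]
    fin_cases k
    · exact continuous_fst.comp continuous_snd
    · exact continuous_fst.comp (continuous_snd.comp continuous_snd)
    · exact continuous_snd.comp (continuous_snd.comp continuous_snd)

theorem continuous_detO3 (o : OrthonormalBasis (Fin (i + 3)) ℝ (Cn n)) :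
    Continuous (fun q : (Fin i → Cn n) × Cn n × Cn n × Cn n =>
      detO3 o q.1 q.2.1 q.2.2.1 q.2.2.2) := by
  have h1 : Continuous (fun v : Fin (i + 3) → Cn n => o.toBasis.det v) := by
    have h2 : (fun v : Fin (i + 3) → Cn n => o.toBasis.det v) =
        fun v => (Matrix.of fun k l => (inner ℝ (o k) (v l) : ℝ)).det := by
      funext v
      rw [Module.Basis.det_apply]
      congr 1
      ext k l
      rw [Module.Basis.toMatrix_apply, OrthonormalBasis.coe_toBasis_repr_apply,
        OrthonormalBasis.repr_apply_apply, Matrix.of_apply]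
    rw [h2]
    refine Continuous.matrix_det ?_
    refine continuous_matrix fun k l => ?_
    exact Continuous.inner continuous_const (continuous_apply (A := fun _ : Fin (i + 3) => Cn n) l)
  exact h1.comp GV3_cont_append

private theorem detO3_perm (o : OrthonormalBasis (Fin (i + 3)) ℝ (Cn n))
    (σ : Equiv.Perm (Fin i)) (w : Fin i → Cn n) (p q r : Cn n) :
    |detO3 o (w ∘ σ) p q r| = |detO3 o w p q r| := by
  obtain ⟨τ, hτ⟩ : ∃ τ : Equiv.Perm (Fin (i + 3)), τ =
      finSumFinEquiv.symm.trans ((Equiv.sumCongr σ (Equiv.refl (Fin 3))).trans finSumFinEquiv) :=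
    ⟨_, rfl⟩
  have h1 : (Fin.append (w ∘ σ) ![p, q, r] : Fin (i + 3) → Cn n) =
      Fin.append w ![p, q, r] ∘ τ := by
    funext j
    refine Fin.addCases (fun k => ?_) (fun k => ?_) j
    · rw [Fin.append_left, Function.comp_apply, Function.comp_apply, hτ]
      simp only [Equiv.trans_apply, finSumFinEquiv_symm_apply_castAdd, Equiv.sumCongr_apply,
        Sum.map_inl, finSumFinEquiv_apply_left, Fin.append_left]
    · rw [Fin.append_right, Function.comp_apply, hτ]
      simp only [Equiv.trans_apply, finSumFinEquiv_symm_apply_natAdd, Equiv.sumCongr_apply,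
        Sum.map_inr, Equiv.refl_apply, finSumFinEquiv_apply_right, Fin.append_right]
  unfold detO3
  rw [h1, AlternatingMap.map_perm]
  rcases Int.units_eq_one_or (Equiv.Perm.sign τ) with h2 | h2
  · rw [h2, one_smul]
  · rw [h2, Units.neg_smul, one_smul, abs_neg]

theorem gv3_nonneg (o : OrthonormalBasis (Fin (i + 3)) ℝ (Cn n)) (a : Fin 3 → Cn n)
    (w : Fin i → Cn n) : 0 ≤ gv3 o a w :=
  integral_nonneg fun _ => abs_nonneg _

theorem gv3_perm (o : OrthonormalBasis (Fin (i + 3)) ℝ (Cn n)) (a : Fin 3 → Cn n)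
    (σ : Equiv.Perm (Fin i)) (w : Fin i → Cn n) : gv3 o a (w ∘ σ) = gv3 o a w := by
  unfold gv3
  exact integral_congr_ae (Filter.Eventually.of_forall fun φ => detO3_perm o σ w _ _ _)

theorem gv3_eq_zero (o : OrthonormalBasis (Fin (i + 3)) ℝ (Cn n)) (a : Fin 3 → Cn n)
    (w : Fin i → Cn n) (k l : Fin i) (hkl : k ≠ l) (h : w k = w l) : gv3 o a w = 0 := by
  unfold gv3
  have h1 : ∀ φ : Un n, |detO3 o w (uni φ (a 0)) (uni φ (a 1)) (uni φ (a 2))| = 0 := by
    intro φ
    rw [abs_eq_zero]
    unfold detO3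
    refine AlternatingMap.map_eq_zero_of_eq _ _ (i := Fin.castAdd 3 k) (j := Fin.castAdd 3 l) ?_ ?_
    · rw [Fin.append_left, Fin.append_left, h]
    · intro h2
      exact hkl (Fin.castAdd_injective i 3 h2)
  rw [integral_congr_ae (Filter.Eventually.of_forall h1), integral_zero]

theorem gv3_smul (o : OrthonormalBasis (Fin (i + 3)) ℝ (Cn n)) (a : Fin 3 → Cn n)
    (t : Fin i → ℝ) (w : Fin i → Cn n) :
    gv3 o a (fun k => t k • w k) = (∏ k, |t k|) * gv3 o a w := by
  unfold gv3
  rw [← integral_const_mul]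
  refine integral_congr_ae (Filter.Eventually.of_forall fun φ => ?_)
  show |detO3 o (fun k => t k • w k) (uni φ (a 0)) (uni φ (a 1)) (uni φ (a 2))| =
    (∏ k, |t k|) * |detO3 o w (uni φ (a 0)) (uni φ (a 1)) (uni φ (a 2))|
  have h1 : (Fin.append (fun k => t k • w k) ![uni φ (a 0), uni φ (a 1), uni φ (a 2)] :
      Fin (i + 3) → Cn n) =
      fun j => (Fin.append t ![1, 1, 1] : Fin (i + 3) → ℝ) j •
        (Fin.append w ![uni φ (a 0), uni φ (a 1), uni φ (a 2)] : Fin (i + 3) → Cn n) j := by
    funext j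
    refine Fin.addCases (fun k => ?_) (fun k => ?_) j
    · simp only [Fin.append_left]
    · simp only [Fin.append_right]
      fin_cases k <;> simp
  unfold detO3
  rw [h1, AlternatingMap.map_smul_univ, smul_eq_mul, abs_mul]
  congr 1
  rw [Fin.prod_univ_add]
  simp only [Fin.append_left, Fin.append_right, Fin.prod_univ_three, Matrix.cons_val_zero,
    Matrix.cons_val_one, Matrix.cons_val, mul_one]
  exact Finset.abs_prod _ _

theorem gv3_dep (o : OrthonormalBasis (Fin (i + 3)) ℝ (Cn n)) (a : Fin 3 → Cn n)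
    (w : Fin i → Cn n) (hw : ¬ LinearIndependent ℝ w) : gv3 o a w = 0 := by
  unfold gv3
  have h : ∀ φ : Un n, |detO3 o w (uni φ (a 0)) (uni φ (a 1)) (uni φ (a 2))| = 0 := by
    intro φ
    unfold detO3
    rw [abs_eq_zero]
    apply AlternatingMap.map_linearDependent
    intro hli
    apply hw
    have h1 := hli.comp (Fin.castAdd 3) (Fin.castAdd_injective i 3)
    have h2 : Fin.append w ![uni φ (a 0), uni φ (a 1), uni φ (a 2)] ∘ Fin.castAdd 3 = w := by
      funext x
      simp
    rw [h2] at h1
    exact h1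
  simp [h]

end Pool.Agent.H85.C3
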