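import Mathlib
import Pool.Agent.H85.C3.GV3
import Pool.Agent.H89.CZ.GAdj

set_option autoImplicit false

/-!
# GAdj3: `VE` of a zonotope, codimension three

Copy of `abs_det_adj`, `VE_zon` in `H89/CZ/GAdj.lean`.
-/

open MeasureTheory Pool.Agent.H61.UProj Pool.Agent.H89.CZ
open scoped ENNReal Pointwise

noncomputable section

namespace Pool.Agent.H85.C3

variable {n i : ℕ}

theorem abs_det_adj3 (o : OrthonormalBasis (Fin (i + 3)) ℝ (Cn n)) (J : Rn i →ₗᵢ[ℝ] Cn n)
    {a : Fin 3 → Cn n} (ha : Orthonormal ℝ a) (hJ : ∀ y l, inner ℝ (J y) (a l) = 0)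
    (w : Fin i → Cn n) :
    absdet i (fun k => adj J (w k)) = |detO3 o w (a 0) (a 1) (a 2)| := by
  obtain ⟨f, hf⟩ : ∃ f : Fin (i + 3) → Cn n, f =
      Fin.append (fun l : Fin i => J (EuclideanSpace.single l (1 : ℝ))) ![a 0, a 1, a 2] :=
    ⟨_, rfl⟩
  have hfl : ∀ l : Fin i, f (Fin.castAdd 3 l) = J (EuclideanSpace.single l (1 : ℝ)) := by
    intro l
    rw [hf, Fin.append_left]
  have hfr : ∀ k : Fin 3, f (Fin.natAdd i k) = a k := by
    intro k
    rw [hf, Fin.append_right]
    fin_cases k <;> rfl
  have hv : ∀ k : Fin 3, (Fin.append w ![a 0, a 1, a 2] : Fin (i + 3) → Cn n) (Fin.natAdd i k) =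
      a k := by
    intro k
    rw [Fin.append_right]
    fin_cases k <;> rfl
  have hon : Orthonormal ℝ f := by
    rw [orthonormal_iff_ite]
    have haa := orthonormal_iff_ite.1 ha
    intro j
    refine Fin.addCases (fun l => ?_) (fun k => ?_) j
    · intro j'
      refine Fin.addCases (fun m => ?_) (fun k => ?_) j'
      · rw [hfl, hfl, LinearIsometry.inner_map_map, EuclideanSpace.inner_single_left]
        simp only [map_one, one_mul, PiLp.single_apply]
        by_cases h : l = m
        · rw [h]; simp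
        · rw [if_neg h, if_neg (fun h2 => h (Fin.castAdd_injective i 3 h2))]
      · rw [hfl, hfr, hJ, if_neg]
        intro h
        have h2 := congrArg Fin.val h
        simp at h2
        omega
    · intro j'
      refine Fin.addCases (fun m => ?_) (fun k' => ?_) j'
      · rw [hfl, hfr, real_inner_comm, hJ, if_neg]
        intro h
        have h2 := congrArg Fin.val h
        simp at h2
        omega
      · rw [hfr, hfr, haa]
        by_cases h : k = k'
        · rw [h]; simp
        · rw [if_neg h, if_neg (fun h2 => h (Fin.natAdd_injective 3 i h2))]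
  have hcard : Module.finrank ℝ (Cn n) = Fintype.card (Fin (i + 3)) :=
    Module.finrank_eq_card_basis o.toBasis
  obtain ⟨b, hb⟩ := Orthonormal.exists_orthonormalBasis_extension_of_card_eq hcard (v := f)
    (s := Set.univ) (hon.comp Subtype.val Subtype.val_injective)
  have hbf : ∀ j, b j = f j := fun j => hb j (Set.mem_univ j)
  have h1 : |detO3 o w (a 0) (a 1) (a 2)| =
      |b.toBasis.det (Fin.append w ![a 0, a 1, a 2])| := by
    unfold detO3
    have h2 := AlternatingMap.eq_smul_basis_det b.toBasis o.toBasis.det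
    have h3 : o.toBasis.det (Fin.append w ![a 0, a 1, a 2]) =
        o.toBasis.det b.toBasis * b.toBasis.det (Fin.append w ![a 0, a 1, a 2]) := by
      conv_lhs => rw [h2]
      rfl
    rw [h3, abs_mul]
    have h4 : |o.toBasis.det b.toBasis| = 1 := by
      rw [OrthonormalBasis.coe_toBasis]
      rcases OrthonormalBasis.det_to_matrix_orthonormalBasis_real o b with h | h
      · rw [h, abs_one]
      · rw [h, abs_neg, abs_one]
    rw [h4, one_mul]
  rw [h1, Module.Basis.det_apply]
  have h5 : (b.toBasis.toMatrix (Fin.append w ![a 0, a 1, a 2])).submatrix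
      (finSumFinEquiv : Fin i ⊕ Fin 3 ≃ Fin (i + 3))
      (finSumFinEquiv : Fin i ⊕ Fin 3 ≃ Fin (i + 3)) =
      Matrix.fromBlocks (Matrix.of fun l m => (adj J (w m)) l) 0
        (Matrix.of fun k m => (inner ℝ (a k) (w m) : ℝ)) 1 := by
    have haa := orthonormal_iff_ite.1 ha
    ext x y
    rw [Matrix.submatrix_apply, Module.Basis.toMatrix_apply,
      OrthonormalBasis.coe_toBasis_repr_apply, OrthonormalBasis.repr_apply_apply, hbf]
    rcases x with l | k
    · rw [finSumFinEquiv_apply_left, hfl]
      rcases y with m | k'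
      · rw [finSumFinEquiv_apply_left, Fin.append_left, Matrix.fromBlocks_apply₁₁,
          Matrix.of_apply, inner_adj, EuclideanSpace.inner_single_left]
        simp
      · rw [finSumFinEquiv_apply_right, hv, Matrix.fromBlocks_apply₁₂, hJ, Matrix.zero_apply]
    · rw [finSumFinEquiv_apply_right, hfr]
      rcases y with m | k'
      · rw [finSumFinEquiv_apply_left, Fin.append_left, Matrix.fromBlocks_apply₂₁,
          Matrix.of_apply]
      · rw [finSumFinEquiv_apply_right, hv, Matrix.fromBlocks_apply₂₂, haa, Matrix.one_apply]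
  rw [← Matrix.det_submatrix_equiv_self (finSumFinEquiv : Fin i ⊕ Fin 3 ≃ Fin (i + 3)), h5,
    Matrix.det_fromBlocks_zero₁₂, Matrix.det_one, mul_one]
  unfold absdet
  rw [← Matrix.det_transpose]
  rfl

theorem VE_zon_c3 (o : OrthonormalBasis (Fin (i + 3)) ℝ (Cn n)) (J : Rn i →ₗᵢ[ℝ] Cn n)
    {a : Fin 3 → Cn n} (ha : Orthonormal ℝ a) (hJ : ∀ y l, inner ℝ (J y) (a l) = 0)
    {N : ℕ} (v : Fin N → Cn n) :
    VE (LinearMap.range J.toLinearMap) (zon v) = ENNReal.ofReal (PZ i (gv3 o a) v) := by
  rw [VE_range]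
  have h1 : ∀ φ : Un n, volume (adj ((uni φ).comp J) '' zon v) =
      ENNReal.ofReal ((∑ f : Fin i → Fin N,
        |detO3 o (v ∘ f) (uni φ (a 0)) (uni φ (a 1)) (uni φ (a 2))|) /
        (Nat.factorial i : ℝ)) := by
    intro φ
    have h2 : adj ((uni φ).comp J) '' zon v = zon (fun j => adj ((uni φ).comp J) (v j)) :=
      image_zon ((adj ((uni φ).comp J)) : Cn n →ₗ[ℝ] Rn i) v
    rw [h2, volume_zon]
    unfold PZ
    refine congrArg ENNReal.ofReal (congrArg (fun x => x / (Nat.factorial i : ℝ)) ?_)
    refine Finset.sum_congr rfl fun f _ => ?_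
    have ha' : Orthonormal ℝ (fun k => uni φ (a k)) := by
      rw [orthonormal_iff_ite]
      intro k l
      rw [LinearIsometry.inner_map_map]
      exact orthonormal_iff_ite.1 ha k l
    have hJ' : ∀ y l, inner ℝ (((uni φ).comp J) y) (uni φ (a l)) = 0 := by
      intro y l
      show inner ℝ (uni φ (J y)) (uni φ (a l)) = 0
      rw [LinearIsometry.inner_map_map]
      exact hJ y l
    exact abs_det_adj3 o ((uni φ).comp J) ha' hJ' (v ∘ f)
  rw [lintegral_congr h1]
  have hc : ∀ f : Fin i → Fin N,
      Continuous (fun φ : Un n =>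
        |detO3 o (v ∘ f) (uni φ (a 0)) (uni φ (a 1)) (uni φ (a 2))|) := by
    intro f
    have h2 : Continuous (fun φ : Un n =>
        (v ∘ f, uni φ (a 0), uni φ (a 1), uni φ (a 2))) :=
      continuous_const.prodMk ((continuous_uni (a 0)).prodMk
        ((continuous_uni (a 1)).prodMk (continuous_uni (a 2))))
    exact ((continuous_detO3 o).comp h2).abs
  have hi : ∀ f : Fin i → Fin N,
      Integrable (fun φ : Un n =>
        |detO3 o (v ∘ f) (uni φ (a 0)) (uni φ (a 1)) (uni φ (a 2))|) (haarU n) :=
    fun f => integrable_of_continuous (hc f)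
  rw [← ofReal_integral_eq_lintegral_ofReal]
  · rw [integral_div, integral_finsetSum _ (fun f _ => hi f)]
    rfl
  · exact (integrable_finsetSum _ (fun f _ => hi f)).div_const _
  · exact Filter.Eventually.of_forall fun φ => div_nonneg
      (Finset.sum_nonneg fun f _ => abs_nonneg _) (Nat.cast_nonneg _)

end Pool.Agent.H85.C3
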