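import Mathlib
import Pool.Agent.H85.C3.Defs
import Pool.Agent.H89.CZ.DetF

set_option autoImplicit false

/-!
# DetF3: factorisation of determinants

Copy the general section of `H89/CZ/DetF.lean` (`DetF_gen`, `DetF_ne`, `DetF_block`, `DetF_one`), it
is private there.

* `det_f3`: `f` an orthonormal triple orthogonal to `w : Fin i → Cn n`:
  `detO3 o w p q r = detO3 o w (f 0) (f 1) (f 2) * tri p q r (f 0) (f 1) (f 2)` (`det (⟨f_i, p_j⟩)`,
  `Matrix.det_fin_three`).
* `det_e5`: `e` an orthonormal 5-tuple orthogonal to `w : Fin k → Cn n`: there is `D` (independent of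
  `u, v, p, q, r`; `D = detO3 o (e 0, e 1, w) (e 2) (e 3) (e 4)`) with
  `detO3 o (u, v, w) p q r = D * det5 (pr5 u, pr5 v, pr5 p, pr5 q, pr5 r)`.
* `det_e5_sq`: Lagrange: for `x, y : V5` and orthonormal `F : Fin 3 → V5` orthogonal to `x`, `y`:
  `det5 x y (F 0) (F 1) (F 2) ^ 2 = ar5 x y ^ 2` and for all `p q r : V5`:
  `det5 x y p q r = det5 x y (F 0) (F 1) (F 2) * det3 (⟨F i, p j⟩)`  (`DetF_gen`, `DetF_block` in `V5`
  with the standard basis and `w = ![x, y]`, `e = F`).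
-/

open Pool.Agent.H61.UProj Pool.Agent.H89.CZ Pool.Agent.H35.T3

noncomputable section

namespace Pool.Agent.H85.C3

variable {n i k : ℕ}

/-- `det` of five vectors of `ℝ⁵` -/
def det5 (u v p q r : V5) : ℝ :=
  (Matrix.of ![(u : Fin 5 → ℝ), (v : Fin 5 → ℝ), (p : Fin 5 → ℝ), (q : Fin 5 → ℝ),
    (r : Fin 5 → ℝ)]).det

/-- `⟨a ∧ b ∧ c, p ∧ q ∧ r⟩` in `ℝ⁵` -/
def tri5 (a b c p q r : V5) : ℝ :=
  (Matrix.of ![![(inner ℝ a p : ℝ), inner ℝ a q, inner ℝ a r],
    ![(inner ℝ b p : ℝ), inner ℝ b q, inner ℝ b r],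
    ![(inner ℝ c p : ℝ), inner ℝ c q, inner ℝ c r]]).det

section general

variable {V : Type*} [NormedAddCommGroup V] [InnerProductSpace ℝ V]
variable {m κ ι : Type*} [Fintype m] [DecidableEq m] [Fintype κ] [DecidableEq κ]
variable [Fintype ι] [DecidableEq ι]

private theorem DetF3_mul (b : OrthonormalBasis ι ℝ V) (X' X : ι → V) :
    b.toBasis.det X' * b.toBasis.det X =
      (Matrix.of fun i j => (inner ℝ (X' i) (X j) : ℝ)).det := by
  rw [Module.Basis.det_apply, Module.Basis.det_apply]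
  rw [← Matrix.det_transpose (b.toBasis.toMatrix X'), ← Matrix.det_mul]
  congr 1
  ext i j
  rw [Matrix.mul_apply, Matrix.of_apply]
  simp only [Matrix.transpose_apply, Module.Basis.toMatrix_apply, OrthonormalBasis.coe_toBasis_repr_apply]
  rw [← b.sum_inner_mul_inner (X' i) (X j)]
  refine Finset.sum_congr rfl fun l _ => ?_
  rw [b.repr_apply_apply, b.repr_apply_apply, real_inner_comm (X' i)]

private theorem DetF3_block (b : OrthonormalBasis (m ⊕ κ) ℝ V) {e : m → V} {w : κ → V}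
    (hw : ∀ j l, inner ℝ (w j) (e l) = 0) (x : m → V) :
    b.toBasis.det (Sum.elim e w) * b.toBasis.det (Sum.elim x w) =
      (Matrix.of fun i j => (inner ℝ (e i) (x j) : ℝ)).det *
        (Matrix.of fun i j => (inner ℝ (w i) (w j) : ℝ)).det := by
  rw [DetF3_mul]
  rw [← Matrix.det_fromBlocks_zero₁₂ (Matrix.of fun i j => (inner ℝ (e i) (x j) : ℝ))
    (Matrix.of fun i j => (inner ℝ (w i) (x j) : ℝ))
    (Matrix.of fun i j => (inner ℝ (w i) (w j) : ℝ))]
  congr 1
  ext i j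
  rcases i with i | i <;> rcases j with j | j
  · simp
  · simp only [Matrix.of_apply, Sum.elim_inl, Sum.elim_inr, Matrix.fromBlocks_apply₁₂,
      Matrix.zero_apply]
    rw [real_inner_comm, hw]
  · simp
  · simp

private theorem DetF3_one {e : m → V} (he : Orthonormal ℝ e) :
    (Matrix.of fun i j => (inner ℝ (e i) (e j) : ℝ)).det = 1 := by
  have : (Matrix.of fun i j => (inner ℝ (e i) (e j) : ℝ)) = (1 : Matrix m m ℝ) := by
    ext i j
    rw [Matrix.of_apply, orthonormal_iff_ite.1 he i j, Matrix.one_apply]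
  rw [this, Matrix.det_one]

private theorem DetF3_dep {w : κ → V}
    (h : (Matrix.of fun i j => (inner ℝ (w i) (w j) : ℝ)).det = 0) :
    ∃ c : κ → ℝ, c ≠ 0 ∧ ∑ j, c j • w j = 0 := by
  obtain ⟨c, hc, h0⟩ := Matrix.exists_mulVec_eq_zero_iff.2 h
  refine ⟨c, hc, ?_⟩
  have h1 : ∀ i, inner ℝ (w i) (∑ j, c j • w j) = 0 := by
    intro i
    have := congrFun h0 i
    rw [inner_sum]
    simp only [Matrix.mulVec, dotProduct, Matrix.of_apply, Pi.zero_apply] at this
    rw [← this]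
    refine Finset.sum_congr rfl fun j _ => ?_
    rw [real_inner_smul_right, mul_comm]
  have h2 : inner ℝ (∑ j, c j • w j) (∑ j, c j • w j) = 0 := by
    conv_lhs => rw [sum_inner]
    refine Finset.sum_eq_zero fun j _ => ?_
    rw [real_inner_smul_left, h1, mul_zero]
  exact inner_self_eq_zero.1 h2

private theorem DetF3_gen (b : OrthonormalBasis (m ⊕ κ) ℝ V) {e : m → V} {w : κ → V}
    (he : Orthonormal ℝ e) (hw : ∀ j l, inner ℝ (w j) (e l) = 0) (x : m → V) :
    b.toBasis.det (Sum.elim x w) =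
      b.toBasis.det (Sum.elim e w) * (Matrix.of fun i j => (inner ℝ (e i) (x j) : ℝ)).det := by
  have h1 := DetF3_block b hw x
  have h2 := DetF3_block b hw e
  rw [DetF3_one he, one_mul] at h2
  by_cases h : b.toBasis.det (Sum.elim e w) = 0
  · rw [h, zero_mul]
    rw [h, zero_mul] at h2
    obtain ⟨c, hc, h0⟩ := DetF3_dep h2.symm
    refine AlternatingMap.map_linearDependent _ _ fun hli => hc ?_
    have h3 := (linearIndependent_sum.1 hli).2.1
    have h4 : (Sum.elim x w) ∘ Sum.inr = w := by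
      ext j
      rfl
    rw [h4] at h3
    exact funext (Fintype.linearIndependent_iff.1 h3 c h0)
  · apply mul_left_cancel₀ h
    rw [h1, ← h2]
    ring

private theorem DetF3_ne (b : OrthonormalBasis (m ⊕ κ) ℝ V) {e : m → V} {w : κ → V}
    (he : Orthonormal ℝ e) (hw : ∀ j l, inner ℝ (w j) (e l) = 0)
    (hli : LinearIndependent ℝ w) : b.toBasis.det (Sum.elim e w) ≠ 0 := by
  intro h
  have h2 := DetF3_block b hw e
  rw [DetF3_one he, one_mul, h, zero_mul] at h2
  obtain ⟨c, hc, h0⟩ := DetF3_dep h2.symm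
  exact hc (funext (Fintype.linearIndependent_iff.1 hli c h0))

end general

/-- reindexing of a family of `i + 3` vectors -/
private def DetF3_eqv (i : ℕ) : Fin (i + 3) ≃ Fin 3 ⊕ Fin i :=
  finSumFinEquiv.symm.trans (Equiv.sumComm _ _)

private theorem DetF3_append {V : Type*} (w : Fin i → V) (p q r : V) :
    (Fin.append w ![p, q, r] : Fin (i + 3) → V) = Sum.elim ![p, q, r] w ∘ DetF3_eqv i := by
  funext j
  refine Fin.addCases (fun a => ?_) (fun a => ?_) j
  · simp [DetF3_eqv]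
  · simp [DetF3_eqv]

private theorem DetF3_detO (o : OrthonormalBasis (Fin (i + 3)) ℝ (Cn n)) (w : Fin i → Cn n)
    (p q r : Cn n) :
    detO3 o w p q r = (o.reindex (DetF3_eqv i)).toBasis.det (Sum.elim ![p, q, r] w) := by
  rw [detO3, DetF3_append, OrthonormalBasis.reindex_toBasis, Module.Basis.det_reindex]

/-- reindexing of a family of `k + 2 + 3` vectors -/
private def DetF3_eqv5 (k : ℕ) : Fin 3 ⊕ Fin (k + 2) ≃ Fin 5 ⊕ Fin k :=
  ((Equiv.refl (Fin 3)).sumCongr ((finSumFinEquiv (m := 2) (n := k)).trans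
    (finCongr (Nat.add_comm 2 k))).symm).trans
    ((Equiv.sumAssoc (Fin 3) (Fin 2) (Fin k)).symm.trans
      (((Equiv.sumComm (Fin 3) (Fin 2)).trans (finSumFinEquiv (m := 2) (n := 3))).sumCongr
        (Equiv.refl (Fin k))))

private theorem DetF3_elim5 (w : Fin k → Cn n) (u v p q r : Cn n) :
    (Sum.elim ![p, q, r] (Fin.cons u (Fin.cons v w : Fin (k + 1) → Cn n) : Fin (k + 2) → Cn n)) =
      Sum.elim ![u, v, p, q, r] w ∘ DetF3_eqv5 k := by
  funext j
  rcases j with j | j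
  · fin_cases j <;> rfl
  · refine Fin.cases ?_ (fun j => ?_) j
    · rfl
    · refine Fin.cases ?_ (fun j => ?_) j
      · rfl
      · have : (DetF3_eqv5 k) (Sum.inr j.succ.succ) = Sum.inr j := by
          rw [← Equiv.eq_symm_apply]
          simp only [DetF3_eqv5, Equiv.symm_trans_apply, Equiv.sumCongr_symm, Equiv.symm_symm,
            Equiv.refl_symm, Equiv.sumCongr_apply, Sum.map_inr, Equiv.coe_refl, id_eq,
            Equiv.sumAssoc_apply_inr, Equiv.trans_apply, finSumFinEquiv_apply_right]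
          congr 1
          ext
          simp
        rw [Function.comp_apply, this]
        simp

theorem det_f3 (o : OrthonormalBasis (Fin (i + 3)) ℝ (Cn n)) {f : Fin 3 → Cn n}
    (hf : Orthonormal ℝ f) (w : Fin i → Cn n) (hw : ∀ j l, inner ℝ (w j) (f l) = 0)
    (p q r : Cn n) :
    detO3 o w p q r = detO3 o w (f 0) (f 1) (f 2) * tri p q r (f 0) (f 1) (f 2) := by
  rw [DetF3_detO, DetF3_detO, DetF3_gen _ hf hw]
  have h1 : (![f 0, f 1, f 2] : Fin 3 → Cn n) = f := by
    funext l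
    fin_cases l <;> rfl
  rw [h1, Matrix.det_fin_three, tri, pair2, pair2, pair2]
  congr 1
  simp only [Matrix.of_apply, Matrix.cons_val_zero, Matrix.cons_val_one, Matrix.cons_val]
  simp only [real_inner_comm p, real_inner_comm q, real_inner_comm r]
  ring

theorem detO3_ne_zero (o : OrthonormalBasis (Fin (i + 3)) ℝ (Cn n)) {f : Fin 3 → Cn n}
    (hf : Orthonormal ℝ f) {w : Fin i → Cn n} (hli : LinearIndependent ℝ w)
    (hw : ∀ j l, inner ℝ (w j) (f l) = 0) : detO3 o w (f 0) (f 1) (f 2) ≠ 0 := by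
  rw [DetF3_detO]
  have h1 : (![f 0, f 1, f 2] : Fin 3 → Cn n) = f := by
    funext l
    fin_cases l <;> rfl
  rw [h1]
  exact DetF3_ne _ hf hw hli

theorem det_e5 (o : OrthonormalBasis (Fin (k + 2 + 3)) ℝ (Cn n)) {e : Fin 5 → Cn n}
    (he : Orthonormal ℝ e) (w : Fin k → Cn n) (hw : ∀ j l, inner ℝ (w j) (e l) = 0)
    (u v p q r : Cn n) :
    detO3 o (Fin.cons u (Fin.cons v w : Fin (k + 1) → Cn n) : Fin (k + 2) → Cn n) p q r =
      detO3 o (Fin.cons (e 0) (Fin.cons (e 1) w : Fin (k + 1) → Cn n) : Fin (k + 2) → Cn n)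
        (e 2) (e 3) (e 4) * det5 (pr5 e u) (pr5 e v) (pr5 e p) (pr5 e q) (pr5 e r) := by
  rw [DetF3_detO, DetF3_detO, DetF3_elim5, DetF3_elim5, ← Module.Basis.det_reindex,
    ← Module.Basis.det_reindex, ← OrthonormalBasis.reindex_toBasis, DetF3_gen _ he hw]
  have h1 : (![e 0, e 1, e 2, e 3, e 4] : Fin 5 → Cn n) = e := by
    funext l
    fin_cases l <;> rfl
  rw [h1, det5, ← Matrix.det_transpose (Matrix.of ![(pr5 e u : Fin 5 → ℝ), (pr5 e v : Fin 5 → ℝ),
    (pr5 e p : Fin 5 → ℝ), (pr5 e q : Fin 5 → ℝ), (pr5 e r : Fin 5 → ℝ)])]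
  congr 2
  ext a b
  rw [Matrix.transpose_apply, Matrix.of_apply, Matrix.of_apply]
  fin_cases b <;> rfl

private theorem DetF3_det5 (x y p q r : V5) :
    det5 x y p q r = ((EuclideanSpace.basisFun (Fin 5) ℝ).reindex (DetF3_eqv 2)).toBasis.det
      (Sum.elim ![p, q, r] ![x, y]) := by
  have h0 : (![x, y, p, q, r] : Fin 5 → V5) = Sum.elim ![p, q, r] ![x, y] ∘ DetF3_eqv 2 := by
    funext j
    fin_cases j <;> rfl
  rw [OrthonormalBasis.reindex_toBasis, Module.Basis.det_reindex, ← h0, Module.Basis.det_apply,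
    det5, ← Matrix.det_transpose (Matrix.of ![(x : Fin 5 → ℝ), (y : Fin 5 → ℝ),
      (p : Fin 5 → ℝ), (q : Fin 5 → ℝ), (r : Fin 5 → ℝ)])]
  congr 1
  ext a b
  rw [Matrix.transpose_apply, Matrix.of_apply, Module.Basis.toMatrix_apply,
    OrthonormalBasis.coe_toBasis_repr_apply, EuclideanSpace.basisFun_repr]
  fin_cases b <;> rfl

theorem det5_factor {x y : V5} {F : Fin 3 → V5} (hF : Orthonormal ℝ F)
    (hx : ∀ l, inner ℝ x (F l) = 0) (hy : ∀ l, inner ℝ y (F l) = 0) :
    det5 x y (F 0) (F 1) (F 2) ^ 2 = ar5 x y ^ 2 ∧ ∀ p q r : V5,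
      det5 x y p q r = det5 x y (F 0) (F 1) (F 2) * tri5 p q r (F 0) (F 1) (F 2) := by
  have hw : ∀ (j : Fin 2) (l : Fin 3), inner ℝ ((![x, y] : Fin 2 → V5) j) (F l) = 0 := by
    intro j l
    fin_cases j
    · exact hx l
    · exact hy l
  have h1 : (![F 0, F 1, F 2] : Fin 3 → V5) = F := by
    funext l
    fin_cases l <;> rfl
  constructor
  · rw [DetF3_det5, h1, sq, DetF3_block _ hw, DetF3_one hF, one_mul, Matrix.det_fin_two]
    have h2 : 0 ≤ ‖x‖ ^ 2 * ‖y‖ ^ 2 - (inner ℝ x y) ^ 2 := by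
      have := abs_real_inner_le_norm x y
      have h3 := sq_le_sq' (a := (inner ℝ x y : ℝ)) (b := ‖x‖ * ‖y‖)
        (by linarith [neg_abs_le (inner ℝ x y : ℝ)]) (by linarith [le_abs_self (inner ℝ x y : ℝ)])
      nlinarith
    rw [ar5, Real.sq_sqrt h2]
    simp only [Matrix.of_apply, Matrix.cons_val_zero, Matrix.cons_val_one]
    rw [real_inner_self_eq_norm_sq, real_inner_self_eq_norm_sq, real_inner_comm x y]
    ring
  · intro p q r
    rw [DetF3_det5, DetF3_det5, DetF3_gen _ hF hw, h1]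
    congr 1
    rw [tri5, ← Matrix.det_transpose (Matrix.of ![![(inner ℝ p (F 0) : ℝ), inner ℝ p (F 1),
      inner ℝ p (F 2)], ![(inner ℝ q (F 0) : ℝ), inner ℝ q (F 1), inner ℝ q (F 2)],
      ![(inner ℝ r (F 0) : ℝ), inner ℝ r (F 1), inner ℝ r (F 2)]])]
    congr 1
    ext a b
    rw [Matrix.transpose_apply, Matrix.of_apply, Matrix.of_apply, real_inner_comm]
    fin_cases a <;> fin_cases b <;> rfl

/-- existence of `F` -/
theorem exists_F (x y : V5) : ∃ F : Fin 3 → V5, Orthonormal ℝ F ∧ (∀ l, inner ℝ x (F l) = 0) ∧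
    ∀ l, inner ℝ y (F l) = 0 := by
  have h1 : Module.finrank ℝ (Submodule.span ℝ (Set.range ![x, y])) ≤ 2 := by
    have := finrank_range_le_card (R := ℝ) (![x, y] : Fin 2 → V5)
    rwa [Fintype.card_fin] at this
  have h2 := Submodule.finrank_add_finrank_orthogonal (𝕜 := ℝ)
    (Submodule.span ℝ (Set.range ![x, y]))
  have h3 : Module.finrank ℝ V5 = 5 := finrank_euclideanSpace_fin
  have h4 : 3 ≤ Module.finrank ℝ (Submodule.span ℝ (Set.range ![x, y]))ᗮ := by omega
  let b := stdOrthonormalBasis ℝ (Submodule.span ℝ (Set.range ![x, y]))ᗮ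
  refine ⟨fun l => (b (Fin.castLE h4 l) : V5), ?_, fun l => ?_, fun l => ?_⟩
  · have h5 := (b.orthonormal.comp _ (Fin.castLE_injective h4))
    exact h5.comp_linearIsometry (Submodule.subtypeₗᵢ _)
  · exact Submodule.inner_right_of_mem_orthogonal
      (Submodule.subset_span (s := Set.range ![x, y]) ⟨0, rfl⟩) (b (Fin.castLE h4 l)).2
  · exact Submodule.inner_right_of_mem_orthogonal
      (Submodule.subset_span (s := Set.range ![x, y]) ⟨1, rfl⟩) (b (Fin.castLE h4 l)).2

end Pool.Agent.H85.C3
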