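import Mathlib
import Pool.Agent.H35.T3.Defs
import Pool.Agent.H89.CZ.NF

set_option autoImplicit false

/-!
# NF5: normal form of `om` on five dimensions orthogonal to `w`

See `exists_normal` in `H89/CZ/NF.lean`.  Lemma (its first half): for `w : Fin k → Cn n`,
`k + 2 ≤ 2n` there is an orthonormal pair `(f, f')` orthogonal to `w` maximising `om f f'`, and then
`om f g = om f' g = 0` for every unit `g` orthogonal to `w, f, f'`; `0 ≤ om f f'`.  Apply it to `w`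
(this gives `e 0, e 1`) and to `Fin.append w ![e 0, e 1]` (this gives `e 2, e 3`); `e 4` a unit vector
orthogonal to `w` and `e 0, …, e 3`.
-/

open Pool.Agent.H61.UProj Pool.Agent.H89.CZ Pool.Agent.H35.T3

noncomputable section

namespace Pool.Agent.H85.C3

variable {n : ℕ}

private theorem nf5_finrank : Module.finrank ℝ (Cn n) = 2 * n := by
  have h := finrank_real_of_complex (Cn n)
  rw [h, finrank_euclideanSpace_fin]

private theorem nf5_perp {i m : ℕ} (hi : i + m ≤ 2 * n) (w : Fin i → Cn n) :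
    ∃ f : Fin m → Cn n, Orthonormal ℝ f ∧ ∀ j l, inner ℝ (w j) (f l) = 0 := by
  classical
  set W : Submodule ℝ (Cn n) := Submodule.span ℝ (Set.range w) with hW
  have h1 : Module.finrank ℝ W ≤ i := by
    have h := finrank_range_le_card (R := ℝ) w
    simpa [Set.finrank] using h
  have h2 : Module.finrank ℝ W + Module.finrank ℝ Wᗮ = 2 * n := by
    rw [← nf5_finrank]
    exact Submodule.finrank_add_finrank_orthogonal W
  have h3 : m ≤ Module.finrank ℝ Wᗮ := by omega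
  let b := stdOrthonormalBasis ℝ Wᗮ
  refine ⟨fun l => (b (Fin.castLE h3 l) : Cn n), ?_, ?_⟩
  · have hb := b.orthonormal
    have h5 := hb.comp (Fin.castLE h3) (Fin.castLE_injective h3)
    exact h5.comp_linearIsometry Wᗮ.subtypeₗᵢ
  · intro j l
    have h6 := (b (Fin.castLE h3 l)).2
    exact (Submodule.mem_orthogonal W _).1 h6 (w j) (Submodule.subset_span ⟨j, rfl⟩)

theorem exists_perp_triple {i : ℕ} (hi : i + 3 ≤ 2 * n) (w : Fin i → Cn n) :
    ∃ f : Fin 3 → Cn n, Orthonormal ℝ f ∧ ∀ j l, inner ℝ (w j) (f l) = 0 :=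
  nf5_perp hi w

private def NS {k : ℕ} (w : Fin k → Cn n) : Set (Cn n × Cn n) :=
  {q | (∀ j, inner ℝ (w j) q.1 = 0) ∧ (∀ j, inner ℝ (w j) q.2 = 0) ∧ ‖q.1‖ = 1 ∧ ‖q.2‖ = 1 ∧
    inner ℝ q.1 q.2 = 0}

private theorem nf5_compact {k : ℕ} (w : Fin k → Cn n) : IsCompact (NS w) := by
  have hb : NS w ⊆ Metric.closedBall 0 1 := by
    rintro q ⟨-, -, h1, h2, -⟩
    rw [mem_closedBall_zero_iff, Prod.norm_def, h1, h2]
    simp
  refine (isCompact_closedBall (0 : Cn n × Cn n) 1).of_isClosed_subset ?_ hb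
  have e : NS w = (⋂ j, {q : Cn n × Cn n | inner ℝ (w j) q.1 = 0}) ∩
      ((⋂ j, {q : Cn n × Cn n | inner ℝ (w j) q.2 = 0}) ∩ ({q : Cn n × Cn n | ‖q.1‖ = 1} ∩
        ({q : Cn n × Cn n | ‖q.2‖ = 1} ∩ {q : Cn n × Cn n | inner ℝ q.1 q.2 = 0}))) := by
    ext q
    simp [NS]
  rw [e]
  refine IsClosed.inter (isClosed_iInter fun j => isClosed_eq ?_ continuous_const)
    (IsClosed.inter (isClosed_iInter fun j => isClosed_eq ?_ continuous_const)
      (IsClosed.inter (isClosed_eq ?_ continuous_const)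
        (IsClosed.inter (isClosed_eq ?_ continuous_const) (isClosed_eq ?_ continuous_const))))
  · fun_prop
  · fun_prop
  · fun_prop
  · fun_prop
  · fun_prop

/-- a unit combination -/
private theorem nf5_comb {p q : Cn n} (hp : ‖p‖ = 1) (hq : ‖q‖ = 1) (hpq : inner ℝ p q = 0)
    {c s : ℝ} (h : 0 < c ^ 2 + s ^ 2) :
    ‖(√(c ^ 2 + s ^ 2))⁻¹ • (c • p + s • q)‖ = 1 := by
  have h1 : ‖c • p + s • q‖ ^ 2 = c ^ 2 + s ^ 2 := by
    rw [norm_add_sq_real, real_inner_smul_left, real_inner_smul_right, hpq, norm_smul, norm_smul,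
      hp, hq, mul_one, mul_one, Real.norm_eq_abs, Real.norm_eq_abs, sq_abs, sq_abs]
    ring
  have h2 : ‖c • p + s • q‖ = √(c ^ 2 + s ^ 2) := by
    rw [← h1, Real.sqrt_sq (norm_nonneg _)]
  have h3 : 0 < √(c ^ 2 + s ^ 2) := Real.sqrt_pos.2 h
  rw [norm_smul, h2, Real.norm_eq_abs, abs_of_pos (inv_pos.2 h3), inv_mul_cancel₀ h3.ne']

private theorem nf5_zero {c s : ℝ} (h : 0 < c ^ 2 + s ^ 2)
    (h2 : (√(c ^ 2 + s ^ 2))⁻¹ * (c * c + s * s) ≤ c) : s = 0 := by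
  have h3 : 0 < √(c ^ 2 + s ^ 2) := Real.sqrt_pos.2 h
  have h4 : √(c ^ 2 + s ^ 2) ^ 2 = c ^ 2 + s ^ 2 := Real.sq_sqrt h.le
  have h5 : (√(c ^ 2 + s ^ 2))⁻¹ * (c * c + s * s) = √(c ^ 2 + s ^ 2) := by
    rw [inv_mul_eq_iff_eq_mul₀ h3.ne']
    nlinarith
  rw [h5] at h2
  have h6 : √(c ^ 2 + s ^ 2) ^ 2 ≤ c ^ 2 := pow_le_pow_left₀ h3.le h2 2
  rw [h4] at h6
  have h7 : s ^ 2 ≤ 0 := by linarith
  exact pow_eq_zero_iff (two_ne_zero) |>.1 (le_antisymm h7 (sq_nonneg s))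

/-- a maximal pair -/
private theorem nf5_max {k : ℕ} (hk : k + 2 ≤ 2 * n) (w : Fin k → Cn n) :
    ∃ f f' : Cn n, (f, f') ∈ NS w ∧ (∀ p q : Cn n, (p, q) ∈ NS w → om p q ≤ om f f') ∧ 0 ≤ om f f' ∧
      ∀ g : Cn n, ‖g‖ = 1 → (∀ j, inner ℝ (w j) g = 0) → inner ℝ f g = 0 → inner ℝ f' g = 0 →
        om f g = 0 ∧ om f' g = 0 := by
  obtain ⟨f, hf, hfw⟩ := nf5_perp (m := 2) hk w
  have hne : (NS w).Nonempty :=
    ⟨(f 0, f 1), fun j => hfw j 0, fun j => hfw j 1, hf.1 0, hf.1 1, hf.2 (by decide)⟩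
  obtain ⟨⟨f2, f3⟩, ⟨hw2, hw3, hn2, hn3, h23⟩, hmax⟩ :=
    (nf5_compact w).exists_isMaxOn hne continuous_om.continuousOn
  simp only at hw2 hw3 hn2 hn3 h23
  have hM : ∀ p q : Cn n, (p, q) ∈ NS w → om p q ≤ om f2 f3 := fun p q h => hmax h
  have h32 : inner ℝ f3 f2 = 0 := by rw [real_inner_comm]; exact h23
  refine ⟨f2, f3, ⟨hw2, hw3, hn2, hn3, h23⟩, hM, ?_, fun g hg hwg h2g h3g => ⟨?_, ?_⟩⟩
  · have h := hM f3 f2 ⟨hw3, hw2, hn3, hn2, h32⟩
    rw [om_swap f2 f3] at h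
    linarith
  · by_contra hs
    have hpos : 0 < om f2 f3 ^ 2 + om f2 g ^ 2 := by positivity
    apply hs
    refine nf5_zero hpos ?_
    have h := hM f2 ((√(om f2 f3 ^ 2 + om f2 g ^ 2))⁻¹ • (om f2 f3 • f3 + om f2 g • g))
      ⟨hw2, fun j => ?_, hn2, nf5_comb hn3 hg h3g hpos, ?_⟩
    · rw [om_smul_right, om_add_right, om_smul_right, om_smul_right] at h
      exact h
    · simp only [real_inner_smul_right, inner_add_right]
      rw [hw3 j, hwg j]; ring
    · simp only [real_inner_smul_right, inner_add_right]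
      rw [h23, h2g]; ring
  · by_contra hs
    have hs' : om g f3 ≠ 0 := by
      rw [om_swap f3 g]
      exact neg_ne_zero.2 hs
    have hpos : 0 < om f2 f3 ^ 2 + om g f3 ^ 2 := by positivity
    apply hs'
    refine nf5_zero hpos ?_
    have h := hM ((√(om f2 f3 ^ 2 + om g f3 ^ 2))⁻¹ • (om f2 f3 • f2 + om g f3 • g)) f3
      ⟨fun j => ?_, hw3, nf5_comb hn2 hg h2g hpos, hn3, ?_⟩
    · rw [om_smul_left, om_add_left, om_smul_left, om_smul_left] at h
      exact h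
    · simp only [real_inner_smul_right, inner_add_right]
      rw [hw2 j, hwg j]; ring
    · simp only [real_inner_smul_left, inner_add_left]
      rw [h23, real_inner_comm, h3g]; ring

theorem exists_normal5 {k : ℕ} (hk : k + 5 ≤ 2 * n) (w : Fin k → Cn n) :
    ∃ e : Fin 5 → Cn n, Orthonormal ℝ e ∧ (∀ j l, inner ℝ (w j) (e l) = 0) ∧
      om (e 0) (e 2) = 0 ∧ om (e 0) (e 3) = 0 ∧ om (e 1) (e 2) = 0 ∧ om (e 1) (e 3) = 0 ∧
      (∀ l, om (e l) (e 4) = 0) ∧
      0 ≤ om (e 2) (e 3) ∧ om (e 2) (e 3) ≤ om (e 0) (e 1) ∧ om (e 0) (e 1) ≤ 1 := by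
  obtain ⟨f0, f1, ⟨hw0, hw1, hn0, hn1, h01⟩, hM, -, key⟩ := nf5_max (by omega) w
  simp only at hw0 hw1 hn0 hn1 h01
  obtain ⟨f2, f3, ⟨hW2, hW3, hn2, hn3, h23⟩, -, hom, key'⟩ :=
    nf5_max (k := k + 2) (by omega) (Fin.append w ![f0, f1])
  simp only at hW2 hW3 hn2 hn3 h23
  have spl : ∀ {g : Cn n}, (∀ j, inner ℝ (Fin.append w ![f0, f1] j) g = 0) →
      (∀ j, inner ℝ (w j) g = 0) ∧ inner ℝ f0 g = 0 ∧ inner ℝ f1 g = 0 := by
    intro g h
    refine ⟨fun j => ?_, ?_, ?_⟩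
    · have h' := h (Fin.castAdd 2 j)
      rwa [Fin.append_left] at h'
    · have h' := h (Fin.natAdd k 0)
      rwa [Fin.append_right] at h'
    · have h' := h (Fin.natAdd k 1)
      rwa [Fin.append_right] at h'
  obtain ⟨g, hg, hgw⟩ := nf5_perp (i := k + 2 + 2) (m := 1) (by omega)
    (Fin.append (Fin.append w ![f0, f1]) ![f2, f3])
  have hgW : ∀ j, inner ℝ (Fin.append w ![f0, f1] j) (g 0) = 0 := fun j => by
    have h := hgw (Fin.castAdd 2 j) 0
    rwa [Fin.append_left] at h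
  have hg2 : inner ℝ f2 (g 0) = 0 := by
    have h := hgw (Fin.natAdd (k + 2) 0) 0
    rwa [Fin.append_right] at h
  have hg3 : inner ℝ f3 (g 0) = 0 := by
    have h := hgw (Fin.natAdd (k + 2) 1) 0
    rwa [Fin.append_right] at h
  have hn4 : ‖g 0‖ = 1 := hg.1 0
  obtain ⟨hw2, h02, h12⟩ := spl hW2
  obtain ⟨hw3, h03, h13⟩ := spl hW3
  obtain ⟨hw4, h04, h14⟩ := spl hgW
  have k2 := key f2 hn2 hw2 h02 h12
  have k3 := key f3 hn3 hw3 h03 h13
  have k4 := key (g 0) hn4 hw4 h04 h14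
  have k4' := key' (g 0) hn4 hgW hg2 hg3
  have hself : om (g 0) (g 0) = 0 := by
    have := om_swap (g 0) (g 0)
    linarith
  have h10 : inner ℝ f1 f0 = 0 := by rw [real_inner_comm]; exact h01
  have h20 : inner ℝ f2 f0 = 0 := by rw [real_inner_comm]; exact h02
  have h21 : inner ℝ f2 f1 = 0 := by rw [real_inner_comm]; exact h12
  have h30 : inner ℝ f3 f0 = 0 := by rw [real_inner_comm]; exact h03
  have h31 : inner ℝ f3 f1 = 0 := by rw [real_inner_comm]; exact h13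
  have h32 : inner ℝ f3 f2 = 0 := by rw [real_inner_comm]; exact h23
  have h40 : inner ℝ (g 0) f0 = 0 := by rw [real_inner_comm]; exact h04
  have h41 : inner ℝ (g 0) f1 = 0 := by rw [real_inner_comm]; exact h14
  have h42 : inner ℝ (g 0) f2 = 0 := by rw [real_inner_comm]; exact hg2
  have h43 : inner ℝ (g 0) f3 = 0 := by rw [real_inner_comm]; exact hg3
  refine ⟨![f0, f1, f2, f3, g 0], ⟨?_, ?_⟩, ?_, k2.1, k3.1, k2.2, k3.2, ?_, hom, hM f2 f3 ⟨hw2, hw3, hn2, hn3, h23⟩, ?_⟩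
  · intro l
    fin_cases l
    · exact hn0
    · exact hn1
    · exact hn2
    · exact hn3
    · exact hn4
  · intro l m hlm
    fin_cases l <;> fin_cases m <;> first | exact absurd rfl hlm | assumption
  · intro j l
    fin_cases l
    · exact hw0 j
    · exact hw1 j
    · exact hw2 j
    · exact hw3 j
    · exact hw4 j
  · intro l
    fin_cases l
    · exact k4.1
    · exact k4.2
    · exact k4'.1
    · exact k4'.2
    · exact hself
  · change om f0 f1 ≤ 1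
    have h := abs_om_le f0 f1
    rw [hn0, hn1, mul_one] at h
    exact (le_abs_self _).trans h

end Pool.Agent.H85.C3
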