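import Mathlib
import Pool.Agent.H85.C3.DetF3
import Pool.Agent.H85.C3.GV3
import Pool.Agent.H85.C3.NF5
import Pool.Agent.H35.T3.Ker3

set_option autoImplicit false

/-!
# GvEq3: the kernel in five dimensions

`κ` from `ker3`.  `F` from `exists_F (pr5 e u) (pr5 e v)`, `f i = ∑ l, F i l • e l` (orthonormal,
`⟨f i, z⟩ = ⟨F i, pr5 e z⟩`), `D5 = det5 (pr5 e u) (pr5 e v) (F 0) (F 1) (F 2)`.  By `det_e5` and
`det5_factor`: `detO3 o (u, v, w) p q r = De * D5 * tri p q r (f 0) (f 1) (f 2)`, hence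
`gv3 o a (u, v, w) = |De| |D5| g3 a f`, and
`g3 a f = κ ((6n-9-3kx a) √(Gr f) + ((2n-1) kx a - 3) ‖cv f‖²/√(Gr f))`, `Gr f = 1`.
`‖cv f‖² D5² = XX c1 c2 (pr5 e u) (pr5 e v)`, `c1 = om (e 0) (e 1)`, `c2 = om (e 2) (e 3)`:
`cv f = ∑ l, g l • e l`, `g l = c1 M_{01l} + c2 M_{23l}`, `M_{jkl}` the 3×3 minors of `F`
(`om (f i) (f j) = c1 (F i 0 F j 1 - F i 1 F j 0) + c2 (F i 2 F j 3 - F i 3 F j 2)`), and
`D5 M_{jkl} = det5 x y e_j e_k e_l = ±` the complementary minor of `x, y` (`det5_factor` at the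
standard basis): `D5 M_{014} = ± m23`, `D5 M_{012} = ± m34`, `D5 M_{013} = ± m24`,
`D5 M_{234} = ± m01`, `D5 M_{230} = ± m14`, `D5 M_{231} = ± m04`, the two signs for `l = 4` equal.
If `ar5 = 0` both sides vanish (`D5 = 0`).

`gv3_pos`: as `gv_pos` in `H89/CZ/GvEq.lean`: `exists_perp_triple`, `det_f3`, `detO3_ne_zero`, `ker3`:
`gv3 o a w = |detO3 o w f0 f1 f2| κ ((6n-9-3x) + ((2n-1)x-3) y)`, `x = kx a`, `y = kx f ∈ [0, 1]`
(`kx_le_one`: with `z = (b, c, a)`, `a = om f0 f1`, `b = om f1 f2`, `c = om f2 f0`, and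
`X = (-c, b, 0)`, `Y = z × X`: `om X Y = |z|² |X|²`, `|Y| = |z| |X|`).
-/

open MeasureTheory Pool.Agent.H61.UProj Pool.Agent.H89.CZ Pool.Agent.H35.T3
open scoped ENNReal

noncomputable section

namespace Pool.Agent.H85.C3

variable {n k i : ℕ}

theorem kx_nonneg (f : Fin 3 → Cn n) : 0 ≤ kx f := by
  unfold kx
  positivity

private theorem GvEq3_Gr {f : Fin 3 → Cn n} (hf : Orthonormal ℝ f) : Gr f = 1 := by
  have h := orthonormal_iff_ite.1 hf
  simp only [Gr, tri, pair2, h]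
  simp

theorem kx_le_one {f : Fin 3 → Cn n} (hf : Orthonormal ℝ f) : kx f ≤ 1 := by
  have h := orthonormal_iff_ite.1 hf
  set a := om (f 0) (f 1) with ha
  set b := om (f 1) (f 2) with hb
  set c := om (f 2) (f 0) with hc
  have hkx : kx f = a ^ 2 + b ^ 2 + c ^ 2 := rfl
  have e10 : om (f 1) (f 0) = -a := om_swap _ _
  have e21 : om (f 2) (f 1) = -b := om_swap _ _
  have e02 : om (f 0) (f 2) = -c := om_swap _ _
  by_cases hbc : b ^ 2 + c ^ 2 = 0
  · have h1 : |a| ≤ 1 := by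
      have h2 := abs_om_le (f 0) (f 1)
      rw [hf.1 0, hf.1 1, mul_one] at h2
      exact h2
    have h3 : a ^ 2 ≤ 1 := by
      rw [← sq_abs]
      exact pow_le_one₀ (abs_nonneg _) h1
    rw [hkx]
    linarith
  · have hbc0 : 0 < b ^ 2 + c ^ 2 := lt_of_le_of_ne (by positivity) (Ne.symm hbc)
    set X : Cn n := (-c) • f 0 + b • f 1 with hX
    set Y : Cn n := (-(a * b)) • f 0 + (-(a * c)) • f 1 + (b ^ 2 + c ^ 2) • f 2 with hY
    have hXX : ‖X‖ ^ 2 = b ^ 2 + c ^ 2 := by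
      rw [← real_inner_self_eq_norm_sq, hX]
      simp only [inner_add_left, inner_add_right, real_inner_smul_left, real_inner_smul_right, h]
      simp
      ring
    have hYY : ‖Y‖ ^ 2 = (b ^ 2 + c ^ 2) * (a ^ 2 + b ^ 2 + c ^ 2) := by
      rw [← real_inner_self_eq_norm_sq, hY]
      simp only [inner_add_left, inner_add_right, real_inner_smul_left, real_inner_smul_right, h]
      simp
      ring
    have hXY : om X Y = (b ^ 2 + c ^ 2) * (a ^ 2 + b ^ 2 + c ^ 2) := by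
      rw [hX, hY]
      simp only [om_add_left, om_add_right, om_smul_left, om_smul_right, om_self, ← ha, ← hb,
        e10, e02]
      ring
    have h1 := abs_om_le X Y
    have h2 : om X Y ^ 2 ≤ ‖X‖ ^ 2 * ‖Y‖ ^ 2 := by
      rw [← sq_abs, ← mul_pow]
      exact pow_le_pow_left₀ (abs_nonneg _) h1 2
    rw [hXX, hYY, hXY] at h2
    rw [hkx]
    have hs : 0 < a ^ 2 + b ^ 2 + c ^ 2 := by nlinarith [sq_nonneg a]
    have h3 : 0 < (b ^ 2 + c ^ 2) ^ 2 * (a ^ 2 + b ^ 2 + c ^ 2) := by positivity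
    by_contra hcon
    push Not at hcon
    nlinarith [mul_pos h3 (sub_pos.2 hcon)]

/-! ### The five dimensional identity -/

/-- the standard basis of `ℝ⁵` -/
private abbrev sg (j : Fin 5) : V5 := EuclideanSpace.single j (1 : ℝ)

private theorem GvEq3_det012 (x y : V5) : det5 x y (sg 0) (sg 1) (sg 2) = mi 3 4 x y := by
  unfold det5 mi
  simp [Matrix.det_succ_row_zero, Fin.sum_univ_succ, Fin.succAbove]
  ring

private theorem GvEq3_det013 (x y : V5) : det5 x y (sg 0) (sg 1) (sg 3) = -mi 2 4 x y := by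
  unfold det5 mi
  simp [Matrix.det_succ_row_zero, Fin.sum_univ_succ, Fin.succAbove]
  ring

private theorem GvEq3_det014 (x y : V5) : det5 x y (sg 0) (sg 1) (sg 4) = mi 2 3 x y := by
  unfold det5 mi
  simp [Matrix.det_succ_row_zero, Fin.sum_univ_succ, Fin.succAbove]
  ring

private theorem GvEq3_det230 (x y : V5) : det5 x y (sg 2) (sg 3) (sg 0) = mi 1 4 x y := by
  unfold det5 mi
  simp [Matrix.det_succ_row_zero, Fin.sum_univ_succ, Fin.succAbove]
  ring

private theorem GvEq3_det231 (x y : V5) : det5 x y (sg 2) (sg 3) (sg 1) = -mi 0 4 x y := by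
  unfold det5 mi
  simp [Matrix.det_succ_row_zero, Fin.sum_univ_succ, Fin.succAbove]
  ring

private theorem GvEq3_det234 (x y : V5) : det5 x y (sg 2) (sg 3) (sg 4) = mi 0 1 x y := by
  unfold det5 mi
  simp [Matrix.det_succ_row_zero, Fin.sum_univ_succ, Fin.succAbove]
  ring

private theorem GvEq3_single (j : Fin 5) (z : V5) : inner ℝ (sg j) z = z j := by
  rw [EuclideanSpace.inner_single_left]
  simp

private theorem GvEq3_tri5 (F : Fin 3 → V5) (j k l : Fin 5) :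
    tri5 (sg j) (sg k) (sg l) (F 0) (F 1) (F 2) =
      F 0 j * (F 1 k * F 2 l - F 2 k * F 1 l) - F 1 j * (F 0 k * F 2 l - F 2 k * F 0 l) +
        F 2 j * (F 0 k * F 1 l - F 1 k * F 0 l) := by
  unfold tri5
  rw [Matrix.det_fin_three]
  simp only [GvEq3_single]
  simp
  ring

private theorem GvEq3_om {e : Fin 5 → Cn n} (r s : Fin 5 → ℝ) (h02 : om (e 0) (e 2) = 0)
    (h03 : om (e 0) (e 3) = 0) (h12 : om (e 1) (e 2) = 0) (h13 : om (e 1) (e 3) = 0)
    (h4 : ∀ l, om (e l) (e 4) = 0) :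
    om (∑ l, r l • e l) (∑ l, s l • e l) =
      om (e 0) (e 1) * (r 0 * s 1 - r 1 * s 0) + om (e 2) (e 3) * (r 2 * s 3 - r 3 * s 2) := by
  have h20 : om (e 2) (e 0) = 0 := by rw [om_swap, h02, neg_zero]
  have h30 : om (e 3) (e 0) = 0 := by rw [om_swap, h03, neg_zero]
  have h21 : om (e 2) (e 1) = 0 := by rw [om_swap, h12, neg_zero]
  have h31 : om (e 3) (e 1) = 0 := by rw [om_swap, h13, neg_zero]
  have h10 : om (e 1) (e 0) = -om (e 0) (e 1) := om_swap _ _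
  have h32 : om (e 3) (e 2) = -om (e 2) (e 3) := om_swap _ _
  have h4' : ∀ l, om (e 4) (e l) = 0 := fun l => by rw [om_swap, h4, neg_zero]
  simp only [Fin.sum_univ_five, om_add_left, om_add_right, om_smul_left, om_smul_right, om_self,
    h02, h03, h12, h13, h20, h30, h21, h31, h10, h32, h4, h4']
  ring

private theorem GvEq3_key {e : Fin 5 → Cn n} (he : Orthonormal ℝ e) (h02 : om (e 0) (e 2) = 0)
    (h03 : om (e 0) (e 3) = 0) (h12 : om (e 1) (e 2) = 0) (h13 : om (e 1) (e 3) = 0)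
    (h4 : ∀ l, om (e l) (e 4) = 0) {x y : V5} {F : Fin 3 → V5}
    (hfac : ∀ p q r : V5,
      det5 x y p q r = det5 x y (F 0) (F 1) (F 2) * tri5 p q r (F 0) (F 1) (F 2)) :
    det5 x y (F 0) (F 1) (F 2) ^ 2 * ‖cv (fun i => ∑ l, F i l • e l)‖ ^ 2 =
      XX (om (e 0) (e 1)) (om (e 2) (e 3)) x y := by
  set D5 := det5 x y (F 0) (F 1) (F 2) with hD5
  have m012 : mi 3 4 x y = D5 * tri5 (sg 0) (sg 1) (sg 2) (F 0) (F 1) (F 2) := by
    rw [← GvEq3_det012, hfac]
  have m013 : mi 2 4 x y = -(D5 * tri5 (sg 0) (sg 1) (sg 3) (F 0) (F 1) (F 2)) := by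
    rw [← hfac, GvEq3_det013, neg_neg]
  have m014 : mi 2 3 x y = D5 * tri5 (sg 0) (sg 1) (sg 4) (F 0) (F 1) (F 2) := by
    rw [← GvEq3_det014, hfac]
  have m230 : mi 1 4 x y = D5 * tri5 (sg 2) (sg 3) (sg 0) (F 0) (F 1) (F 2) := by
    rw [← GvEq3_det230, hfac]
  have m231 : mi 0 4 x y = -(D5 * tri5 (sg 2) (sg 3) (sg 1) (F 0) (F 1) (F 2)) := by
    rw [← hfac, GvEq3_det231, neg_neg]
  have m234 : mi 0 1 x y = D5 * tri5 (sg 2) (sg 3) (sg 4) (F 0) (F 1) (F 2) := by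
    rw [← GvEq3_det234, hfac]
  rw [GvEq3_tri5] at m012 m013 m014 m230 m231 m234
  have hom : ∀ i j : Fin 3, om (∑ l, F i l • e l) (∑ l, F j l • e l) =
      om (e 0) (e 1) * (F i 0 * F j 1 - F i 1 * F j 0) +
        om (e 2) (e 3) * (F i 2 * F j 3 - F i 3 * F j 2) := fun i j =>
    GvEq3_om _ _ h02 h03 h12 h13 h4
  set c1 := om (e 0) (e 1) with hc1
  set c2 := om (e 2) (e 3) with hc2
  set g : Fin 5 → ℝ := fun l =>
    (c1 * (F 1 0 * F 2 1 - F 1 1 * F 2 0) + c2 * (F 1 2 * F 2 3 - F 1 3 * F 2 2)) * F 0 l +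
    (c1 * (F 2 0 * F 0 1 - F 2 1 * F 0 0) + c2 * (F 2 2 * F 0 3 - F 2 3 * F 0 2)) * F 1 l +
    (c1 * (F 0 0 * F 1 1 - F 0 1 * F 1 0) + c2 * (F 0 2 * F 1 3 - F 0 3 * F 1 2)) * F 2 l with hg
  have hcv : cv (fun i => ∑ l, F i l • e l) = ∑ l, g l • e l := by
    unfold cv
    beta_reduce
    rw [hom, hom, hom, Finset.smul_sum, Finset.smul_sum, Finset.smul_sum,
      ← Finset.sum_add_distrib, ← Finset.sum_add_distrib]
    refine Finset.sum_congr rfl fun l _ => ?_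
    simp only [hg, smul_smul, add_smul]
  have hnorm : ‖cv (fun i => ∑ l, F i l • e l)‖ ^ 2 = ∑ l, g l ^ 2 := by
    rw [← real_inner_self_eq_norm_sq, hcv, he.inner_sum]
    refine Finset.sum_congr rfl fun l _ => ?_
    simp
    ring
  rw [hnorm]
  unfold XX
  rw [m012, m013, m014, m230, m231, m234]
  simp only [Fin.sum_univ_five, hg]
  ring

theorem gv3_eq (o : OrthonormalBasis (Fin (k + 2 + 3)) ℝ (Cn n)) (hn : 3 ≤ n) {a : Fin 3 → Cn n}
    (ha : Orthonormal ℝ a) {e : Fin 5 → Cn n} (he : Orthonormal ℝ e) (w : Fin k → Cn n)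
    (hw : ∀ j l, inner ℝ (w j) (e l) = 0) (h02 : om (e 0) (e 2) = 0) (h03 : om (e 0) (e 3) = 0)
    (h12 : om (e 1) (e 2) = 0) (h13 : om (e 1) (e 3) = 0) (h4 : ∀ l, om (e l) (e 4) = 0) :
    ∃ D : ℝ, 0 ≤ D ∧ ∀ u v : Cn n,
      gv3 o a (Fin.cons u (Fin.cons v w : Fin (k + 1) → Cn n) : Fin (k + 2) → Cn n) =
        D * ((6 * n - 9 - 3 * kx a) * ar5 (pr5 e u) (pr5 e v) +
          ((2 * n - 1) * kx a - 3) *
            (XX (om (e 0) (e 1)) (om (e 2) (e 3)) (pr5 e u) (pr5 e v) /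
              ar5 (pr5 e u) (pr5 e v))) := by
  obtain ⟨κ, hκ, hker⟩ := ker3 hn
  set De := detO3 o (Fin.cons (e 0) (Fin.cons (e 1) w : Fin (k + 1) → Cn n) : Fin (k + 2) → Cn n)
    (e 2) (e 3) (e 4) with hDe
  refine ⟨κ * |De|, by positivity, fun u v => ?_⟩
  set x := pr5 e u with hx
  set y := pr5 e v with hy
  obtain ⟨F, hF, hFx, hFy⟩ := exists_F x y
  obtain ⟨hsq, hfac⟩ := det5_factor hF hFx hFy
  have hkey := GvEq3_key he h02 h03 h12 h13 h4 hfac
  set D5 := det5 x y (F 0) (F 1) (F 2) with hD5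
  set f : Fin 3 → Cn n := fun i => ∑ l, F i l • e l with hf
  have hinner : ∀ z i, inner ℝ (pr5 e z) (F i) = inner ℝ z (f i) := by
    intro z i
    rw [hf]
    beta_reduce
    rw [inner_sum, PiLp.inner_apply]
    refine Finset.sum_congr rfl fun l _ => ?_
    rw [real_inner_smul_right]
    simp only [pr5, RCLike.inner_apply, conj_trivial]
    rw [real_inner_comm z (e l)]
  have hforth : Orthonormal ℝ f := by
    rw [orthonormal_iff_ite]
    intro i j
    have h1 := orthonormal_iff_ite.1 hF i j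
    rw [← h1, hf]
    beta_reduce
    rw [he.inner_sum, PiLp.inner_apply]
    refine Finset.sum_congr rfl fun l _ => ?_
    simp [mul_comm]
  have hdet : ∀ p q r : Cn n,
      |detO3 o (Fin.cons u (Fin.cons v w : Fin (k + 1) → Cn n) : Fin (k + 2) → Cn n) p q r| =
        |De| * |D5| * |tri p q r (f 0) (f 1) (f 2)| := by
    intro p q r
    rw [det_e5 o he w hw u v p q r, hfac, ← hDe, ← abs_mul, ← abs_mul, mul_assoc]
    congr 3
    unfold tri5
    rw [Matrix.det_fin_three]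
    simp only [hinner]
    simp only [tri, pair2]
    simp
    ring
  have hI : gv3 o a (Fin.cons u (Fin.cons v w : Fin (k + 1) → Cn n) : Fin (k + 2) → Cn n) =
      |De| * |D5| * g3 a f := by
    unfold gv3 g3
    rw [← integral_const_mul]
    exact integral_congr_ae (Filter.Eventually.of_forall fun φ => hdet _ _ _)
  have habs : |D5| = ar5 x y := by
    rw [← Real.sqrt_sq_eq_abs, hsq, Real.sqrt_sq]
    exact Real.sqrt_nonneg _
  rw [hI, hker a ha f, GvEq3_Gr hforth, Real.sqrt_one, habs]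
  by_cases h0 : ar5 x y = 0
  · rw [h0]
    simp
  · rw [← hkey, hsq]
    field_simp

theorem gv3_pos (o : OrthonormalBasis (Fin (i + 3)) ℝ (Cn n)) (hn : 3 ≤ n) {a : Fin 3 → Cn n}
    (ha : Orthonormal ℝ a) {w : Fin i → Cn n} (hw : LinearIndependent ℝ w) :
    0 < gv3 o a w := by
  have hdim : i + 3 = 2 * n := by
    have h1 := Module.finrank_eq_card_basis o.toBasis
    have h2 := finrank_real_of_complex (Cn n)
    have h3 : Module.finrank ℂ (Cn n) = n := by simp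
    rw [h3] at h2
    rw [h2, Fintype.card_fin] at h1
    omega
  obtain ⟨κ, hκ, hker⟩ := ker3 hn
  obtain ⟨f, hf, hfw⟩ := exists_perp_triple hdim.le w
  have hne := detO3_ne_zero o hf hw hfw
  have hI : gv3 o a w = |detO3 o w (f 0) (f 1) (f 2)| * g3 a f := by
    unfold gv3 g3
    rw [← integral_const_mul]
    refine integral_congr_ae (Filter.Eventually.of_forall fun φ => ?_)
    show |detO3 o w (uni φ (a 0)) (uni φ (a 1)) (uni φ (a 2))| = _
    rw [det_f3 o hf w hfw, abs_mul]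
  rw [hI, hker a ha f, GvEq3_Gr hf, Real.sqrt_one, cv_sq hf]
  have hx0 := kx_nonneg a
  have hx1 := kx_le_one ha
  have hy0 := kx_nonneg f
  have hy1 := kx_le_one hf
  have hN : (3 : ℝ) ≤ (n : ℝ) := by exact_mod_cast hn
  refine mul_pos (abs_pos.2 hne) (mul_pos hκ ?_)
  rw [mul_one, div_one]
  have h1 : 0 < 6 * (n : ℝ) - 9 - 3 * kx a := by linarith
  have h2 : 0 < (6 * (n : ℝ) - 9 - 3 * kx a) + ((2 * n - 1) * kx a - 3) := by
    nlinarith [mul_nonneg (sub_nonneg.2 hN) hx0]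
  nlinarith [mul_nonneg (sub_nonneg.2 hy1) h1.le, mul_nonneg hy0 h2.le]

end Pool.Agent.H85.C3
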