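import Mathlib
import Pool.Agent.H85.C3.Defs
import Pool.Agent.H35.T3.CndA

set_option autoImplicit false

/-!
# KL: linear inequalities between double sums

`t = inner ℝ x y`.  From `psd_der` (`H35/T3/CndA.lean`) with `α = 0`, `β = lam` and `d = R u`, `R`
antisymmetric (`⟨R x, y⟩ = -⟨x, R y⟩ = τ`), exponent `2m`:
`∑ lam lam' (⟨R u, R u'⟩ t^(2m+1) - (2m+1) τ² t^(2m)) ≥ 0` (see `hT` in the proof of `cnd3`,
`H35/T3/Cnd3.lean`; write it as a private lemma for a family `d`).

* `l1_tau`: `R = c J1 + J2`, `J1 = e0∧e1`, `J2 = e2∧e3`: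
  `⟨R x, y⟩ = ± (mi 2 3 + c mi 0 1)`, `⟨R x, R y⟩ = c² pd + qd`.
* `l1_Z`: `R = e2∧e4`, `e3∧e4`: `⟨R x, R y⟩ = x2 y2 + x4 y4`, `x3 y3 + x4 y4`.
  `l1_V`: `e0∧e1`, `e0∧e4`, `e1∧e4`.
* `l2_one` (lower bound for `τ²`, `c = 1`): `L1 = m01 + m23`, `L2 = m02 - m13`, `L3 = m03 + m12` come
  from antisymmetric `R` with `⟨R x, R y⟩ = pd + qd`; `G (f) = ∑ lam lam' ((pd + qd) t^(2m+1) -
  (2m+1) f² t^(2m)) ≥ 0` for the three; `G(L1) ≤ G(L1)+G(L2)+G(L3)` and
  `L1² + L2² + L3² = (|x|² - x4²)(|y|² - y4²) - (pd + qd)²` (Pluecker).  With `|x| = |y| = 1`,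
  `pd + qd = t - x4 y4` the sum is
  `∑ lam lam' ((2m+4) t^(2m+2) - (4m+5) x4 y4 t^(2m+1) - (2m+1) (1 - x4² - y4²) t^(2m))`.
* positivity: Schur products; `x j * y j * t^l`, `t^l`.
-/

open Pool.Agent.H35.T3

noncomputable section

namespace Pool.Agent.H85.C3

variable {ι : Type*} [Fintype ι] (lam : ι → ℝ) (u : ι → V5)

theorem ss_t (l : ℕ) : 0 ≤ SS lam u fun x y => inner ℝ x y ^ l := by
  unfold SS
  exact psd_pow u l lam

theorem ss_coord (j : Fin 5) (l : ℕ) : 0 ≤ SS lam u fun x y => x j * y j * inner ℝ x y ^ l := by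
  unfold SS
  refine (psd_pow u l fun i => lam i * u i j).trans (le_of_eq ?_)
  refine Finset.sum_congr rfl fun i _ => Finset.sum_congr rfl fun k _ => ?_
  ring

theorem ss_add (f g : V5 → V5 → ℝ) :
    (SS lam u fun x y => f x y + g x y) = SS lam u f + SS lam u g := by
  unfold SS
  simp only [mul_add, Finset.sum_add_distrib]

theorem ss_sub (f g : V5 → V5 → ℝ) :
    (SS lam u fun x y => f x y - g x y) = SS lam u f - SS lam u g := by
  unfold SS
  simp only [mul_sub, Finset.sum_sub_distrib]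

theorem ss_mul (r : ℝ) (f : V5 → V5 → ℝ) :
    (SS lam u fun x y => r * f x y) = r * SS lam u f := by
  unfold SS
  rw [Finset.mul_sum]
  refine Finset.sum_congr rfl fun i _ => ?_
  rw [Finset.mul_sum]
  refine Finset.sum_congr rfl fun k _ => ?_
  ring

theorem ss_congr {f g : V5 → V5 → ℝ} (h : ∀ i k, f (u i) (u k) = g (u i) (u k)) :
    SS lam u f = SS lam u g := by
  unfold SS
  refine Finset.sum_congr rfl fun i _ => Finset.sum_congr rfl fun k _ => ?_
  rw [h]

/-- `t = pd + qd + x4 y4` -/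
theorem inner_eq (x y : V5) : (inner ℝ x y : ℝ) = pd x y + qd x y + x 4 * y 4 := by
  rw [PiLp.inner_apply, Fin.sum_univ_five]
  unfold pd qd
  simp only [RCLike.inner_apply, conj_trivial]
  ring

/-- the basic inequality for an antisymmetric `R` -/
private theorem KL_base (D : V5 → V5) (f g : V5 → V5 → ℝ)
    (hg : ∀ x y, (inner ℝ (D x) (D y) : ℝ) = g x y)
    (h1 : ∀ x y, (inner ℝ (D x) y : ℝ) = f x y) (h2 : ∀ x y, (inner ℝ x (D y) : ℝ) = -f x y)
    (m : ℕ) :
    (2 * m + 1) * (SS lam u fun x y => f x y ^ 2 * inner ℝ x y ^ (2 * m)) ≤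
      SS lam u fun x y => g x y * inner ℝ x y ^ (2 * m + 1) := by
  have h := psd_der u (fun i => D (u i)) (2 * m) (fun _ => 0) lam
  simp only [hg, h1, h2] at h
  have h3 : ∑ i, ∑ k, ((0 : ℝ) * 0 * (inner ℝ (u i) (u k) : ℝ) ^ (2 * m + 2) +
      ((2 * m : ℕ) + 2) * (0 * lam k * -f (u i) (u k) + lam i * 0 * f (u i) (u k)) *
        (inner ℝ (u i) (u k) : ℝ) ^ (2 * m + 1) +
      lam i * lam k * (((2 * m : ℕ) + 2) * g (u i) (u k) *
        (inner ℝ (u i) (u k) : ℝ) ^ (2 * m + 1) +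
        ((2 * m : ℕ) + 2) * ((2 * m : ℕ) + 1) * (f (u i) (u k) * -f (u i) (u k)) *
          (inner ℝ (u i) (u k) : ℝ) ^ (2 * m))) =
      (2 * m + 2) * ((SS lam u fun x y => g x y * inner ℝ x y ^ (2 * m + 1)) -
        (2 * m + 1) * SS lam u fun x y => f x y ^ 2 * inner ℝ x y ^ (2 * m)) := by
    unfold SS
    simp only [Finset.mul_sum, ← Finset.sum_sub_distrib]
    refine Finset.sum_congr rfl fun i _ => Finset.sum_congr rfl fun k _ => ?_
    push_cast
    ring
  have h4 : 0 ≤ (2 * (m : ℝ) + 2) *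
      ((SS lam u fun x y => g x y * inner ℝ x y ^ (2 * m + 1)) -
        (2 * m + 1) * SS lam u fun x y => f x y ^ 2 * inner ℝ x y ^ (2 * m)) := by
    rw [← h3]
    exact h
  have h5 : (0 : ℝ) < 2 * (m : ℝ) + 2 := by positivity
  have h6 := nonneg_of_mul_nonneg_right h4 h5
  linarith

private def KL_D (a b c d e : V5 → ℝ) (x : V5) : V5 := !₂[a x, b x, c x, d x, e x]

private theorem KL_in (a b c d e : V5 → ℝ) (x y : V5) :
    (inner ℝ (KL_D a b c d e x) y : ℝ) =
      a x * y 0 + b x * y 1 + c x * y 2 + d x * y 3 + e x * y 4 := by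
  rw [PiLp.inner_apply, Fin.sum_univ_five]
  simp only [RCLike.inner_apply, conj_trivial, KL_D]
  simp
  ring

theorem l1_tau (c : ℝ) (m : ℕ) :
    (2 * m + 1) * (SS lam u fun x y => (mi 2 3 x y + c * mi 0 1 x y) ^ 2 * inner ℝ x y ^ (2 * m)) ≤
      c ^ 2 * (SS lam u fun x y => pd x y * inner ℝ x y ^ (2 * m + 1)) +
        SS lam u fun x y => qd x y * inner ℝ x y ^ (2 * m + 1) := by
  have h := KL_base lam u
    (KL_D (fun x => -(c * x 1)) (fun x => c * x 0) (fun x => -x 3) (fun x => x 2) (fun _ => 0))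
    (fun x y => mi 2 3 x y + c * mi 0 1 x y) (fun x y => c ^ 2 * pd x y + qd x y)
    (fun x y => by
      rw [KL_in]
      simp [KL_D, pd, qd]
      ring)
    (fun x y => by
      rw [KL_in]
      simp only [mi]
      ring)
    (fun x y => by
      rw [real_inner_comm, KL_in]
      simp only [mi]
      ring) m
  refine h.trans (le_of_eq ?_)
  rw [← ss_mul, ← ss_add]
  refine ss_congr lam u fun i k => ?_
  ring

/-- `Z = m24² + m34²` -/
theorem l1_Z (m : ℕ) :
    (2 * m + 1) * (SS lam u fun x y => (mi 2 4 x y ^ 2 + mi 3 4 x y ^ 2) * inner ℝ x y ^ (2 * m)) ≤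
      (SS lam u fun x y => qd x y * inner ℝ x y ^ (2 * m + 1)) +
        2 * SS lam u fun x y => x 4 * y 4 * inner ℝ x y ^ (2 * m + 1) := by
  have h := KL_base lam u
    (KL_D (fun _ => 0) (fun _ => 0) (fun x => -x 4) (fun _ => 0) (fun x => x 2))
    (fun x y => mi 2 4 x y) (fun x y => x 2 * y 2 + x 4 * y 4)
    (fun x y => by
      rw [KL_in]
      simp [KL_D]
      ring)
    (fun x y => by
      rw [KL_in]
      simp only [mi]
      ring)
    (fun x y => by
      rw [real_inner_comm, KL_in]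
      simp only [mi]
      ring) m
  have h' := KL_base lam u
    (KL_D (fun _ => 0) (fun _ => 0) (fun _ => 0) (fun x => -x 4) (fun x => x 3))
    (fun x y => mi 3 4 x y) (fun x y => x 3 * y 3 + x 4 * y 4)
    (fun x y => by
      rw [KL_in]
      simp [KL_D]
      ring)
    (fun x y => by
      rw [KL_in]
      simp only [mi]
      ring)
    (fun x y => by
      rw [real_inner_comm, KL_in]
      simp only [mi]
      ring) m
  have e1 : (SS lam u fun x y => (mi 2 4 x y ^ 2 + mi 3 4 x y ^ 2) * inner ℝ x y ^ (2 * m)) =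
      (SS lam u fun x y => mi 2 4 x y ^ 2 * inner ℝ x y ^ (2 * m)) +
        SS lam u fun x y => mi 3 4 x y ^ 2 * inner ℝ x y ^ (2 * m) := by
    rw [← ss_add]
    refine ss_congr lam u fun i k => ?_
    ring
  have e2 : (SS lam u fun x y => (x 2 * y 2 + x 4 * y 4) * inner ℝ x y ^ (2 * m + 1)) +
      (SS lam u fun x y => (x 3 * y 3 + x 4 * y 4) * inner ℝ x y ^ (2 * m + 1)) =
      (SS lam u fun x y => qd x y * inner ℝ x y ^ (2 * m + 1)) +
        2 * SS lam u fun x y => x 4 * y 4 * inner ℝ x y ^ (2 * m + 1) := by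
    rw [← ss_mul, ← ss_add, ← ss_add]
    refine ss_congr lam u fun i k => ?_
    unfold qd
    ring
  rw [e1, ← e2, mul_add]
  exact add_le_add h h'

/-- `V = m01² + m04² + m14²` -/
theorem l1_V (m : ℕ) :
    (2 * m + 1) * (SS lam u fun x y =>
        (mi 0 1 x y ^ 2 + mi 0 4 x y ^ 2 + mi 1 4 x y ^ 2) * inner ℝ x y ^ (2 * m)) ≤
      2 * (SS lam u fun x y => pd x y * inner ℝ x y ^ (2 * m + 1)) +
        2 * SS lam u fun x y => x 4 * y 4 * inner ℝ x y ^ (2 * m + 1) := by
  have h1 := KL_base lam u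
    (KL_D (fun x => -x 1) (fun x => x 0) (fun _ => 0) (fun _ => 0) (fun _ => 0))
    (fun x y => mi 0 1 x y) (fun x y => x 0 * y 0 + x 1 * y 1)
    (fun x y => by
      rw [KL_in]
      simp [KL_D]
      ring)
    (fun x y => by
      rw [KL_in]
      simp only [mi]
      ring)
    (fun x y => by
      rw [real_inner_comm, KL_in]
      simp only [mi]
      ring) m
  have h2 := KL_base lam u
    (KL_D (fun x => -x 4) (fun _ => 0) (fun _ => 0) (fun _ => 0) (fun x => x 0))
    (fun x y => mi 0 4 x y) (fun x y => x 0 * y 0 + x 4 * y 4)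
    (fun x y => by
      rw [KL_in]
      simp [KL_D]
      ring)
    (fun x y => by
      rw [KL_in]
      simp only [mi]
      ring)
    (fun x y => by
      rw [real_inner_comm, KL_in]
      simp only [mi]
      ring) m
  have h3 := KL_base lam u
    (KL_D (fun _ => 0) (fun x => -x 4) (fun _ => 0) (fun _ => 0) (fun x => x 1))
    (fun x y => mi 1 4 x y) (fun x y => x 1 * y 1 + x 4 * y 4)
    (fun x y => by
      rw [KL_in]
      simp [KL_D]
      ring)
    (fun x y => by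
      rw [KL_in]
      simp only [mi]
      ring)
    (fun x y => by
      rw [real_inner_comm, KL_in]
      simp only [mi]
      ring) m
  have e1 : (SS lam u fun x y =>
      (mi 0 1 x y ^ 2 + mi 0 4 x y ^ 2 + mi 1 4 x y ^ 2) * inner ℝ x y ^ (2 * m)) =
      (SS lam u fun x y => mi 0 1 x y ^ 2 * inner ℝ x y ^ (2 * m)) +
        (SS lam u fun x y => mi 0 4 x y ^ 2 * inner ℝ x y ^ (2 * m)) +
        SS lam u fun x y => mi 1 4 x y ^ 2 * inner ℝ x y ^ (2 * m) := by
    rw [← ss_add, ← ss_add]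
    refine ss_congr lam u fun i k => ?_
    ring
  have e2 : (SS lam u fun x y => (x 0 * y 0 + x 1 * y 1) * inner ℝ x y ^ (2 * m + 1)) +
      (SS lam u fun x y => (x 0 * y 0 + x 4 * y 4) * inner ℝ x y ^ (2 * m + 1)) +
      (SS lam u fun x y => (x 1 * y 1 + x 4 * y 4) * inner ℝ x y ^ (2 * m + 1)) =
      2 * (SS lam u fun x y => pd x y * inner ℝ x y ^ (2 * m + 1)) +
        2 * SS lam u fun x y => x 4 * y 4 * inner ℝ x y ^ (2 * m + 1) := by
    rw [← ss_mul, ← ss_mul, ← ss_add, ← ss_add, ← ss_add]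
    refine ss_congr lam u fun i k => ?_
    unfold pd
    ring
  rw [e1, ← e2]
  have e3 : ∀ a b c r : ℝ, r * (a + b + c) = r * a + r * b + r * c := by
    intro a b c r
    ring
  rw [e3]
  exact add_le_add (add_le_add h1 h2) h3

private theorem KL_sym (m : ℕ) :
    (SS lam u fun x y => y 4 ^ 2 * inner ℝ x y ^ (2 * m)) =
      SS lam u fun x y => x 4 ^ 2 * inner ℝ x y ^ (2 * m) := by
  unfold SS
  rw [Finset.sum_comm]
  refine Finset.sum_congr rfl fun i _ => Finset.sum_congr rfl fun k _ => ?_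
  simp only
  rw [real_inner_comm]
  ring

private theorem KL_norm {x : V5} (hx : ‖x‖ = 1) :
    x 0 ^ 2 + x 1 ^ 2 + x 2 ^ 2 + x 3 ^ 2 = 1 - x 4 ^ 2 := by
  have h := EuclideanSpace.norm_sq_eq x
  rw [hx, Fin.sum_univ_five] at h
  simp only [Real.norm_eq_abs, sq_abs] at h
  linarith

private theorem KL_plu (x y : V5) :
    (mi 2 3 x y + mi 0 1 x y) ^ 2 + (mi 0 2 x y - mi 1 3 x y) ^ 2 +
        (mi 0 3 x y + mi 1 2 x y) ^ 2 =
      (x 0 ^ 2 + x 1 ^ 2 + x 2 ^ 2 + x 3 ^ 2) * (y 0 ^ 2 + y 1 ^ 2 + y 2 ^ 2 + y 3 ^ 2) -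
        (pd x y + qd x y) ^ 2 := by
  unfold mi pd qd
  ring

/-- lower bound for `τ²`, `c = 1` -/
theorem l2_one (hu : ∀ i, ‖u i‖ = 1) (m : ℕ) :
    (SS lam u fun x y => (pd x y + qd x y) * inner ℝ x y ^ (2 * m + 1)) -
        (2 * m + 1) *
          (SS lam u fun x y => (mi 2 3 x y + mi 0 1 x y) ^ 2 * inner ℝ x y ^ (2 * m)) ≤
      (2 * m + 4) * (SS lam u fun x y => inner ℝ x y ^ (2 * m + 2)) -
        (4 * m + 5) * (SS lam u fun x y => x 4 * y 4 * inner ℝ x y ^ (2 * m + 1)) -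
        (2 * m + 1) * ((SS lam u fun x y => inner ℝ x y ^ (2 * m)) -
          2 * SS lam u fun x y => x 4 ^ 2 * inner ℝ x y ^ (2 * m)) := by
  have h2 := KL_base lam u
    (KL_D (fun x => -x 2) (fun x => x 3) (fun x => x 0) (fun x => -x 1) (fun _ => 0))
    (fun x y => mi 0 2 x y - mi 1 3 x y) (fun x y => pd x y + qd x y)
    (fun x y => by
      rw [KL_in]
      simp [KL_D, pd, qd]
      ring)
    (fun x y => by
      rw [KL_in]
      simp only [mi]
      ring)
    (fun x y => by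
      rw [real_inner_comm, KL_in]
      simp only [mi]
      ring) m
  have h3 := KL_base lam u
    (KL_D (fun x => -x 3) (fun x => -x 2) (fun x => x 1) (fun x => x 0) (fun _ => 0))
    (fun x y => mi 0 3 x y + mi 1 2 x y) (fun x y => pd x y + qd x y)
    (fun x y => by
      rw [KL_in]
      simp [KL_D, pd, qd]
      ring)
    (fun x y => by
      rw [KL_in]
      simp only [mi]
      ring)
    (fun x y => by
      rw [real_inner_comm, KL_in]
      simp only [mi]
      ring) m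
  have key : 3 * (SS lam u fun x y => (pd x y + qd x y) * inner ℝ x y ^ (2 * m + 1)) -
      (2 * m + 1) * (SS lam u fun x y => (mi 2 3 x y + mi 0 1 x y) ^ 2 *
        inner ℝ x y ^ (2 * m)) -
      (2 * m + 1) * (SS lam u fun x y => (mi 0 2 x y - mi 1 3 x y) ^ 2 *
        inner ℝ x y ^ (2 * m)) -
      (2 * m + 1) * (SS lam u fun x y => (mi 0 3 x y + mi 1 2 x y) ^ 2 *
        inner ℝ x y ^ (2 * m)) =
      (2 * m + 4) * (SS lam u fun x y => inner ℝ x y ^ (2 * m + 2)) -
        (4 * m + 5) * (SS lam u fun x y => x 4 * y 4 * inner ℝ x y ^ (2 * m + 1)) -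
        (2 * m + 1) * ((SS lam u fun x y => inner ℝ x y ^ (2 * m)) -
          (SS lam u fun x y => x 4 ^ 2 * inner ℝ x y ^ (2 * m)) -
          SS lam u fun x y => y 4 ^ 2 * inner ℝ x y ^ (2 * m)) := by
    simp only [← ss_mul, ← ss_sub]
    refine ss_congr lam u fun i k => ?_
    have e1 := KL_plu (u i) (u k)
    rw [KL_norm (hu i), KL_norm (hu k)] at e1
    have e2 := inner_eq (u i) (u k)
    have e3 : pd (u i) (u k) + qd (u i) (u k) =
        (inner ℝ (u i) (u k) : ℝ) - (u i) 4 * (u k) 4 := by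
      rw [e2]
      ring
    rw [e3] at e1 ⊢
    generalize (inner ℝ (u i) (u k) : ℝ) = t at *
    linear_combination (-(2 * (m : ℝ) + 1) * t ^ (2 * m)) * e1
  rw [KL_sym] at key
  linarith

end Pool.Agent.H85.C3
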