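import Mathlib
import Pool.Agent.H85.C3.KL
import Pool.Agent.H35.T3.CndB

set_option autoImplicit false

/-!
# KNegA: the finite inequality for `c = 0`

Unit vectors `u = (p, q)`, `p ∈ ℝ²` (coordinates 0, 1), `q ∈ ℝ³` (coordinates 2, 3, 4), `P = pd`,
`s = qd + x4 y4`, `t = P + s`, `r = |q|²`, `ρ = |p|²`, `r + ρ = 1`; `XX 1 0 = m23² + m24² + m34² =
r r' - s²`.  `yy j l = SS P^j s^l`, `yr j l = SS r r' P^j s^l`, `yp j l = SS ρ ρ' P^j s^l` (all `≥ 0`,
Schur products).  `N = 2m+2`, `w_m = dd m/(2m+2)`.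

* `(j+1) yp j l ≤ (j+2) yy (j+2) l`: the kernel `(j+2) P^(j+2) - (j+1) ρ ρ' P^j` is positive
  semidefinite (`psd_der` for the vectors `p`, `d = J p`, exponent `j`, `α = 0`:
  `P^(j+2) - (j+1) m01² P^j`, `m01² = ρρ' - P²`) and multiply by `s^l` (Schur: induction on `l`,
  `s = ∑ x_e y_e`, the statement for all coefficient vectors).
* `yr j l + g yp j l ≥ (g/(1+g)) yy j l` for `g ≥ 0` (`∑ lam lam' (r - g ρ)(r' - g ρ') P^j s^l ≥ 0`
  and `1 = r + ρ`).
* (star) for `N = j + l ≥ 2`: `(l - 3) yy j l ≤ (N-1) (yr j l + (l/(j+1)) yy (j+2) l)`: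
  `g = l/(j+2)`, `(N-1) l/(N+2) ≥ l - 3`.
* `E_N := w ∑_{j ≤ N} C(N,j) ((3 - l(l-1)/(N-1)) yy j l + (N-1) yr j l)`, `l = N - j`,
  `D_N := w ∑_{j ≤ N} C(N,j) (l j/(N-1)) yy j l`.  Then `E_N ≥ D_N - D_(N+2)`: since
  `3 - l(l-1)/(N-1) - l j/(N-1) = 3 - l` and `w_(N+2) C(N+2,j+2) l (j+2)/(N+1) =
  w_N C(N,j) (N-1) l/(j+1)` (`w_(N+2) = w_N (N-1)/(N+2)`, compare `Bj_le` in `H35/T3/CndB.lean`).
* `∑_{m ≤ K} w_m (3 x0_m + (2m+2) SS XX t^(2m)) = SS r r' + ∑_{N ≤ 2K+2} E_N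
  - dd (K+1) SS r r' t^(2K+2)`.
-/

open Pool.Agent.H35.T3 Pool.Agent.H89.CZ

noncomputable section

namespace Pool.Agent.H85.C3

variable {ι : Type*} [Fintype ι] (lam : ι → ℝ) (u : ι → V5)

/-! ### Schur products -/

private theorem KNegA_schur {κ : ι → ι → ℝ}
    (hκ : ∀ c : ι → ℝ, 0 ≤ ∑ i, ∑ k, c i * c k * κ i k) {σ : Type*} [Fintype σ] (f : σ → ι → ℝ)
    (l : ℕ) : ∀ c : ι → ℝ, 0 ≤ ∑ i, ∑ k, c i * c k * (κ i k * (∑ e, f e i * f e k) ^ l) := by
  induction l with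
  | zero =>
    intro c
    simpa using hκ c
  | succ l ih =>
    intro c
    have h2 : ∑ i, ∑ k, c i * c k * (κ i k * (∑ e, f e i * f e k) ^ (l + 1)) =
        ∑ e, ∑ i, ∑ k, (c i * f e i) * (c k * f e k) *
          (κ i k * (∑ e, f e i * f e k) ^ l) := by
      rw [CndA_swap]
      refine Finset.sum_congr rfl fun i _ => Finset.sum_congr rfl fun k _ => ?_
      rw [pow_succ, ← mul_assoc, ← mul_assoc, Finset.mul_sum]
      refine Finset.sum_congr rfl fun e _ => ?_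
      ring
    rw [h2]
    exact Finset.sum_nonneg fun e _ => ih _

/-- the second inner product -/
private def sd (x y : V5) : ℝ := x 2 * y 2 + x 3 * y 3 + x 4 * y 4

/-- `|q|²` -/
private def rd (x : V5) : ℝ := x 2 ^ 2 + x 3 ^ 2 + x 4 ^ 2

/-- `|p|²` -/
private def rh (x : V5) : ℝ := x 0 ^ 2 + x 1 ^ 2

omit [Fintype ι] in
private theorem KNegA_sd (i k : ι) : sd (u i) (u k) =
    ∑ e : Fin 3, (![fun i => u i 2, fun i => u i 3, fun i => u i 4] : Fin 3 → ι → ℝ) e i *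
      (![fun i => u i 2, fun i => u i 3, fun i => u i 4] : Fin 3 → ι → ℝ) e k := by
  rw [Fin.sum_univ_three]
  rfl

omit [Fintype ι] in
private theorem KNegA_pd (i k : ι) : pd (u i) (u k) =
    ∑ e : Fin 2, (![fun i => u i 0, fun i => u i 1] : Fin 2 → ι → ℝ) e i *
      (![fun i => u i 0, fun i => u i 1] : Fin 2 → ι → ℝ) e k := by
  rw [Fin.sum_univ_two]
  rfl

private theorem KNegA_one (c : ι → ℝ) : 0 ≤ ∑ i, ∑ k, c i * c k * (1 : ℝ) := by
  have : ∑ i, ∑ k, c i * c k * (1 : ℝ) = (∑ i, c i) ^ 2 := by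
    rw [sq, Finset.sum_mul_sum]
    simp
  rw [this]
  exact sq_nonneg _

/-- Schur product with `s^l` -/
private theorem KNegA_mul_s {κ : ι → ι → ℝ}
    (hκ : ∀ c : ι → ℝ, 0 ≤ ∑ i, ∑ k, c i * c k * κ i k) (l : ℕ) (c : ι → ℝ) :
    0 ≤ ∑ i, ∑ k, c i * c k * (κ i k * sd (u i) (u k) ^ l) := by
  have h := KNegA_schur hκ (![fun i => u i 2, fun i => u i 3, fun i => u i 4] : Fin 3 → ι → ℝ) l c
  simp only [← KNegA_sd] at h
  exact h

private theorem KNegA_psd (j l : ℕ) (c : ι → ℝ) :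
    0 ≤ ∑ i, ∑ k, c i * c k * (pd (u i) (u k) ^ j * sd (u i) (u k) ^ l) := by
  refine KNegA_mul_s u (κ := fun i k => pd (u i) (u k) ^ j) (fun c => ?_) l c
  have h := KNegA_schur (κ := fun _ _ : ι => (1 : ℝ)) KNegA_one
    (![fun i => u i 0, fun i => u i 1] : Fin 2 → ι → ℝ) j c
  simp only [← KNegA_pd, one_mul] at h
  exact h

/-! ### The sums -/

private def yy (j l : ℕ) : ℝ :=
  ∑ i, ∑ k, lam i * lam k * (pd (u i) (u k) ^ j * sd (u i) (u k) ^ l)

private def yr (j l : ℕ) : ℝ :=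
  ∑ i, ∑ k, lam i * lam k * (rd (u i) * rd (u k) * (pd (u i) (u k) ^ j * sd (u i) (u k) ^ l))

private def yp (j l : ℕ) : ℝ :=
  ∑ i, ∑ k, lam i * lam k * (rh (u i) * rh (u k) * (pd (u i) (u k) ^ j * sd (u i) (u k) ^ l))

private theorem yy_nonneg' (j l : ℕ) : 0 ≤ yy lam u j l := KNegA_psd u j l lam

private theorem yr_nonneg (j l : ℕ) : 0 ≤ yr lam u j l := by
  refine (KNegA_psd u j l fun i => lam i * rd (u i)).trans (le_of_eq ?_)
  refine Finset.sum_congr rfl fun i _ => Finset.sum_congr rfl fun k _ => ?_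
  ring

private theorem yp_nonneg (j l : ℕ) : 0 ≤ yp lam u j l := by
  refine (KNegA_psd u j l fun i => lam i * rh (u i)).trans (le_of_eq ?_)
  refine Finset.sum_congr rfl fun i _ => Finset.sum_congr rfl fun k _ => ?_
  ring

/-- the derivation `J p` -/
private theorem yp_le (j l : ℕ) : (j + 1) * yp lam u j l ≤ (j + 2) * yy lam u (j + 2) l := by
  have key : ∀ c : ι → ℝ, 0 ≤ ∑ i, ∑ k, c i * c k * ((j + 2) * pd (u i) (u k) ^ (j + 2) -
      (j + 1) * (rh (u i) * rh (u k)) * pd (u i) (u k) ^ j) := by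
    intro c
    have h := psd_der (E := EuclideanSpace ℝ (Fin 2)) (fun i => !₂[u i 0, u i 1])
      (fun i => !₂[-(u i 1), u i 0]) j (fun _ => 0) c
    have e1 : ∀ a b a' b' : ℝ, (inner ℝ (!₂[a, b] : EuclideanSpace ℝ (Fin 2)) !₂[a', b'] : ℝ) =
        a * a' + b * b' := by
      intro a b a' b'
      rw [EuclideanSpace.inner_eq_star_dotProduct]
      simp [dotProduct, Fin.sum_univ_two]
      ring
    simp only [e1] at h
    have h2 : ∑ i, ∑ k, ((0 : ℝ) * 0 * (u i 0 * u k 0 + u i 1 * u k 1) ^ (j + 2) +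
        ((j : ℝ) + 2) * (0 * c k * (u i 0 * -(u k 1) + u i 1 * u k 0) +
          c i * 0 * (-(u i 1) * u k 0 + u i 0 * u k 1)) *
          (u i 0 * u k 0 + u i 1 * u k 1) ^ (j + 1) +
        c i * c k * (((j : ℝ) + 2) * (-(u i 1) * -(u k 1) + u i 0 * u k 0) *
          (u i 0 * u k 0 + u i 1 * u k 1) ^ (j + 1) +
          ((j : ℝ) + 2) * (j + 1) * ((-(u i 1) * u k 0 + u i 0 * u k 1) *
            (u i 0 * -(u k 1) + u i 1 * u k 0)) * (u i 0 * u k 0 + u i 1 * u k 1) ^ j)) =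
        ((j : ℝ) + 2) * ∑ i, ∑ k, c i * c k * ((j + 2) * pd (u i) (u k) ^ (j + 2) -
      (j + 1) * (rh (u i) * rh (u k)) * pd (u i) (u k) ^ j) := by
      rw [Finset.mul_sum]
      refine Finset.sum_congr rfl fun i _ => ?_
      rw [Finset.mul_sum]
      refine Finset.sum_congr rfl fun k _ => ?_
      unfold pd rh
      ring
    rw [h2] at h
    exact nonneg_of_mul_nonneg_right h (by positivity)
  have h := KNegA_mul_s u key l lam
  have h3 : ∑ i, ∑ k, lam i * lam k * (((j + 2) * pd (u i) (u k) ^ (j + 2) -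
      (j + 1) * (rh (u i) * rh (u k)) * pd (u i) (u k) ^ j) * sd (u i) (u k) ^ l) =
      (j + 2) * yy lam u (j + 2) l - (j + 1) * yp lam u j l := by
    unfold yy yp
    rw [Finset.mul_sum, Finset.mul_sum, ← Finset.sum_sub_distrib]
    refine Finset.sum_congr rfl fun i _ => ?_
    rw [Finset.mul_sum, Finset.mul_sum, ← Finset.sum_sub_distrib]
    refine Finset.sum_congr rfl fun k _ => ?_
    ring
  rw [h3] at h
  linarith

private theorem KNegA_unit {x : V5} (hx : ‖x‖ = 1) : rd x + rh x = 1 := by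
  have h := EuclideanSpace.norm_sq_eq x
  rw [hx, Fin.sum_univ_five] at h
  simp only [Real.norm_eq_abs, sq_abs] at h
  unfold rd rh
  linarith

private theorem KNegA_cauchy (hu : ∀ i, ‖u i‖ = 1) (j l : ℕ) {g : ℝ} (hg : 0 ≤ g) :
    g * yy lam u j l ≤ (1 + g) * (yr lam u j l + g * yp lam u j l) := by
  have h := KNegA_psd u j l fun i => lam i * (rd (u i) - g * rh (u i))
  set C := ∑ i, ∑ k, lam i * lam k * ((rd (u i) * rh (u k) + rh (u i) * rd (u k)) *
    (pd (u i) (u k) ^ j * sd (u i) (u k) ^ l)) with hC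
  have h1 : ∑ i, ∑ k, (lam i * (rd (u i) - g * rh (u i))) * (lam k * (rd (u k) - g * rh (u k))) *
      (pd (u i) (u k) ^ j * sd (u i) (u k) ^ l) =
      yr lam u j l - g * C + g ^ 2 * yp lam u j l := by
    unfold yr yp
    rw [hC, Finset.mul_sum, Finset.mul_sum, ← Finset.sum_sub_distrib, ← Finset.sum_add_distrib]
    refine Finset.sum_congr rfl fun i _ => ?_
    rw [Finset.mul_sum, Finset.mul_sum, ← Finset.sum_sub_distrib, ← Finset.sum_add_distrib]
    refine Finset.sum_congr rfl fun k _ => ?_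
    ring
  have h2 : yy lam u j l = yr lam u j l + C + yp lam u j l := by
    unfold yy yr yp
    rw [hC, ← Finset.sum_add_distrib, ← Finset.sum_add_distrib]
    refine Finset.sum_congr rfl fun i _ => ?_
    rw [← Finset.sum_add_distrib, ← Finset.sum_add_distrib]
    refine Finset.sum_congr rfl fun k _ => ?_
    have e1 := KNegA_unit (hu i)
    have e2 := KNegA_unit (hu k)
    have e3 : (rd (u i) + rh (u i)) * (rd (u k) + rh (u k)) = 1 := by rw [e1, e2, one_mul]
    linear_combination (-(lam i * lam k * (pd (u i) (u k) ^ j * sd (u i) (u k) ^ l))) * e3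
  rw [h1] at h
  nlinarith

/-- the inequality (star) -/
private theorem KNegA_star (hu : ∀ i, ‖u i‖ = 1) (j l N : ℕ) (hN : j + l = N) (h2 : 2 ≤ N) :
    ((l : ℝ) - 3) * yy lam u j l ≤
      ((N : ℝ) - 1) * (yr lam u j l + (l / (j + 1)) * yy lam u (j + 2) l) := by
  have hNr : (j : ℝ) + l = N := by exact_mod_cast hN
  have h2r : (2 : ℝ) ≤ N := by exact_mod_cast h2
  have hl0 : (0 : ℝ) ≤ l := Nat.cast_nonneg l
  have hj0 : (0 : ℝ) ≤ j := Nat.cast_nonneg j
  have hy := yy_nonneg' lam u j l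
  have hc := KNegA_cauchy lam u hu j l (g := (l : ℝ) / (j + 2)) (by positivity)
  have hp := yp_le lam u j l
  have hp2 : (l / (j + 2) : ℝ) * yp lam u j l ≤ (l / (j + 1)) * yy lam u (j + 2) l := by
    rw [div_mul_eq_mul_div, div_mul_eq_mul_div, div_le_div_iff₀ (by positivity) (by positivity)]
    have := mul_le_mul_of_nonneg_left hp hl0
    linarith
  have hg : (1 + (l : ℝ) / (j + 2)) = (N + 2) / (j + 2) := by
    rw [← hNr]
    field_simp
    ring
  rw [hg] at hc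
  have hc2 : (l : ℝ) * yy lam u j l ≤
      (N + 2) * (yr lam u j l + (l / (j + 2)) * yp lam u j l) := by
    have h3 : (l : ℝ) / (j + 2) * yy lam u j l = l * yy lam u j l / (j + 2) := by ring
    have h4 : ((N : ℝ) + 2) / (j + 2) * (yr lam u j l + (l / (j + 2)) * yp lam u j l) =
        (N + 2) * (yr lam u j l + (l / (j + 2)) * yp lam u j l) / (j + 2) := by ring
    rw [h3, h4] at hc
    exact (div_le_div_iff_of_pos_right (by positivity)).1 hc
  have hA : 0 ≤ yr lam u j l + (l / (j + 1)) * yy lam u (j + 2) l := by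
    have := yr_nonneg lam u j l
    have := yy_nonneg' lam u (j + 2) l
    positivity
  have h5 : (l : ℝ) * yy lam u j l ≤
      (N + 2) * (yr lam u j l + (l / (j + 1)) * yy lam u (j + 2) l) := by
    refine hc2.trans ?_
    refine mul_le_mul_of_nonneg_left ?_ (by positivity)
    linarith
  have h6 : ((l : ℝ) - 3) * (N + 2) ≤ (N - 1) * l := by nlinarith
  have h7 : ((l : ℝ) - 3) * yy lam u j l * (N + 2) ≤ ((N : ℝ) - 1) * (l * yy lam u j l) := by
    nlinarith
  have h8 : ((N : ℝ) - 1) * (l * yy lam u j l) ≤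
      ((N : ℝ) - 1) * ((N + 2) * (yr lam u j l + (l / (j + 1)) * yy lam u (j + 2) l)) :=
    mul_le_mul_of_nonneg_left h5 (by linarith)
  have h9 : (0 : ℝ) < N + 2 := by positivity
  nlinarith

/-! ### The levels -/

private def Em (m : ℕ) : ℝ := dd m / (2 * m + 2) * ∑ j ∈ Finset.range (2 * m + 3),
  ((2 * m + 2).choose j : ℝ) * ((3 - ((2 * m + 2 - j : ℕ) : ℝ) * (((2 * m + 2 - j : ℕ) : ℝ) - 1) /
    (2 * m + 1)) * yy lam u j (2 * m + 2 - j) + (2 * m + 1) * yr lam u j (2 * m + 2 - j))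

private def Dm (m : ℕ) : ℝ := dd m / (2 * m + 2) * ∑ j ∈ Finset.range (2 * m + 3),
  ((2 * m + 2).choose j : ℝ) * (((2 * m + 2 - j : ℕ) : ℝ) * j / (2 * m + 1) *
    yy lam u j (2 * m + 2 - j))

private theorem Dm_nonneg (m : ℕ) : 0 ≤ Dm lam u m := by
  refine mul_nonneg (CndB_w m).le (Finset.sum_nonneg fun j _ => ?_)
  refine mul_nonneg (Nat.cast_nonneg _) (mul_nonneg ?_ (yy_nonneg' lam u _ _))
  positivity

private theorem Dm_step (hu : ∀ i, ‖u i‖ = 1) (m : ℕ) :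
    Dm lam u m - Dm lam u (m + 1) ≤ Em lam u m := by
  have h1 : Dm lam u (m + 1) = dd (m + 1) / (2 * (m + 1 : ℕ) + 2) *
      ∑ j ∈ Finset.range (2 * m + 5), ((2 * m + 4).choose j : ℝ) *
        (((2 * m + 4 - j : ℕ) : ℝ) * j / (2 * (m + 1 : ℕ) + 1) * yy lam u j (2 * m + 4 - j)) := rfl
  have h3 : ∀ j : ℕ, 0 ≤ ((2 * m + 4).choose j : ℝ) *
        (((2 * m + 4 - j : ℕ) : ℝ) * j / (2 * (m + 1 : ℕ) + 1) * yy lam u j (2 * m + 4 - j)) :=
    fun j => mul_nonneg (Nat.cast_nonneg _) (mul_nonneg (by positivity) (yy_nonneg' lam u _ _))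
  have h2 : ∑ j ∈ Finset.range (2 * m + 3), ((2 * m + 4).choose (j + 2) : ℝ) *
        (((2 * m + 2 - j : ℕ) : ℝ) * (j + 2) / (2 * (m + 1 : ℕ) + 1) *
          yy lam u (j + 2) (2 * m + 2 - j)) ≤
      ∑ j ∈ Finset.range (2 * m + 5), ((2 * m + 4).choose j : ℝ) *
        (((2 * m + 4 - j : ℕ) : ℝ) * j / (2 * (m + 1 : ℕ) + 1) * yy lam u j (2 * m + 4 - j)) := by
    conv_rhs => rw [Finset.sum_range_succ', Finset.sum_range_succ']
    have h4 : ∑ j ∈ Finset.range (2 * m + 3), ((2 * m + 4).choose (j + 1 + 1) : ℝ) *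
        (((2 * m + 4 - (j + 1 + 1) : ℕ) : ℝ) * ((j + 1 + 1 : ℕ) : ℝ) / (2 * (m + 1 : ℕ) + 1) *
          yy lam u (j + 1 + 1) (2 * m + 4 - (j + 1 + 1))) =
        ∑ j ∈ Finset.range (2 * m + 3), ((2 * m + 4).choose (j + 2) : ℝ) *
        (((2 * m + 2 - j : ℕ) : ℝ) * (j + 2) / (2 * (m + 1 : ℕ) + 1) *
          yy lam u (j + 2) (2 * m + 2 - j)) := by
      refine Finset.sum_congr rfl fun j _ => ?_
      have h5 : 2 * m + 4 - (j + 1 + 1) = 2 * m + 2 - j := by omega
      rw [h5]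
      push_cast
      ring
    rw [h4]
    have h6 := h3 (0 + 1)
    have h7 := h3 0
    linarith
  have hw0 := (CndB_w (m + 1)).le
  have h4 := mul_le_mul_of_nonneg_left h2 hw0
  rw [← h1] at h4
  suffices h : Dm lam u m ≤ Em lam u m + dd (m + 1) / (2 * (m + 1 : ℕ) + 2) *
      ∑ j ∈ Finset.range (2 * m + 3), ((2 * m + 4).choose (j + 2) : ℝ) *
        (((2 * m + 2 - j : ℕ) : ℝ) * (j + 2) / (2 * (m + 1 : ℕ) + 1) *
          yy lam u (j + 2) (2 * m + 2 - j)) by linarith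
  unfold Dm Em
  rw [Finset.mul_sum, Finset.mul_sum, Finset.mul_sum, ← Finset.sum_add_distrib]
  refine Finset.sum_le_sum fun j hj => ?_
  have hjm : j ≤ 2 * m + 2 := by
    have := Finset.mem_range.1 hj
    omega
  have hchoose : ((2 * m + 4).choose (j + 2) : ℝ) * ((j + 2) * (j + 1)) =
      ((2 * m + 2).choose j : ℝ) * ((2 * m + 4) * (2 * m + 3)) := by
    have e1 := Nat.add_one_mul_choose_eq (2 * m + 3) (j + 1)
    have e2 := Nat.add_one_mul_choose_eq (2 * m + 2) j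
    have e1' : ((2 * m + 4 : ℕ) : ℝ) * ((2 * m + 3).choose (j + 1) : ℝ) =
        ((2 * m + 4).choose (j + 2) : ℝ) * ((j : ℝ) + 2) := by exact_mod_cast e1
    have e2' : ((2 * m + 3 : ℕ) : ℝ) * ((2 * m + 2).choose j : ℝ) =
        ((2 * m + 3).choose (j + 1) : ℝ) * ((j : ℝ) + 1) := by exact_mod_cast e2
    push_cast at e1' e2'
    linear_combination (-((j : ℝ) + 1)) * e1' - (2 * m + 4) * e2'
  have hw : dd (m + 1) / (2 * ((m + 1 : ℕ) : ℝ) + 2) =
      dd m / (2 * m + 2) * ((2 * m + 1) / (2 * m + 4)) := by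
    rw [dd_succ]
    push_cast
    field_simp
    ring
  have hC : ((2 * m + 4).choose (j + 2) : ℝ) =
      ((2 * m + 2).choose j : ℝ) * ((2 * m + 4) * (2 * m + 3)) / ((j + 2) * (j + 1)) := by
    rw [eq_div_iff (by positivity), hchoose]
  set l : ℕ := 2 * m + 2 - j with hl
  have hjl : j + l = 2 * m + 2 := by omega
  have hjlr : (j : ℝ) + l = 2 * m + 2 := by exact_mod_cast hjl
  have hstar := KNegA_star lam u hu j l (2 * m + 2) hjl (by omega)
  push_cast at hstar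
  rw [hw, hC]
  set Y := yy lam u j l with hY
  set Y2 := yy lam u (j + 2) l with hY2
  set R := yr lam u j l with hR
  have hwc : 0 ≤ dd m / (2 * m + 2) * ((2 * m + 2).choose j : ℝ) :=
    mul_nonneg (CndB_w m).le (Nat.cast_nonneg _)
  have e3 := mul_le_mul_of_nonneg_left hstar hwc
  have hM : (0 : ℝ) < 2 * m + 1 := by positivity
  have e4 : dd m / (2 * m + 2) * (((2 * m + 2).choose j : ℝ) *
      (((3 : ℝ) - l * (l - 1) / (2 * m + 1)) * Y + (2 * m + 1) * R)) +
      dd m / (2 * m + 2) * ((2 * m + 1) / (2 * m + 4)) *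
        (((2 * m + 2).choose j : ℝ) * ((2 * m + 4) * (2 * m + 3)) / ((j + 2) * (j + 1)) *
          ((l : ℝ) * (j + 2) / (2 * ((m + 1 : ℕ) : ℝ) + 1) * Y2)) -
      dd m / (2 * m + 2) * (((2 * m + 2).choose j : ℝ) * ((l : ℝ) * j / (2 * m + 1) * Y)) =
      dd m / (2 * m + 2) * ((2 * m + 2).choose j : ℝ) *
        ((3 - (l : ℝ) * (j + l - 1) / (2 * m + 1)) * Y +
          (2 * m + 1) * (R + l / (j + 1) * Y2)) := by
    have e5 : (2 * ((m + 1 : ℕ) : ℝ) + 1) = 2 * m + 3 := by push_cast; ring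
    rw [e5]
    field_simp
    ring
  have e6 : (3 - (l : ℝ) * (j + l - 1) / (2 * m + 1)) = 3 - l := by
    have e7 : (j : ℝ) + l - 1 = 2 * m + 1 := by linarith
    rw [e7, mul_div_assoc, div_self hM.ne', mul_one]
  rw [e6] at e4
  have e8 : (2 * (m : ℝ) + 2 - 1) = 2 * m + 1 := by ring
  rw [e8] at e3
  have e9 : dd m / (2 * m + 2) * ((2 * m + 2).choose j : ℝ) *
        ((3 - (l : ℝ)) * Y + (2 * m + 1) * (R + l / (j + 1) * Y2)) =
      dd m / (2 * m + 2) * ((2 * m + 2).choose j : ℝ) * ((2 * m + 1) * (R + l / (j + 1) * Y2)) -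
        dd m / (2 * m + 2) * ((2 * m + 2).choose j : ℝ) * (((l : ℝ) - 3) * Y) := by ring
  rw [e9] at e4
  linarith

/-! ### Expansion -/

private theorem KNegA_inner (x y : V5) : (inner ℝ x y : ℝ) = pd x y + sd x y := by
  rw [inner_eq]
  unfold qd sd
  ring

private theorem KNegA_x0 (m : ℕ) : (SS lam u fun x y => inner ℝ x y ^ (2 * m + 2)) =
    ∑ j ∈ Finset.range (2 * m + 3), ((2 * m + 2).choose j : ℝ) * yy lam u j (2 * m + 2 - j) := by
  unfold SS
  have h1 : ∀ i k, (inner ℝ (u i) (u k) : ℝ) ^ (2 * m + 2) =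
      ∑ j ∈ Finset.range (2 * m + 3), ((2 * m + 2).choose j : ℝ) *
        (pd (u i) (u k) ^ j * sd (u i) (u k) ^ (2 * m + 2 - j)) := by
    intro i k
    rw [KNegA_inner, add_pow]
    refine Finset.sum_congr rfl fun j _ => ?_
    ring
  simp only [h1]
  rw [CndB_sum3]
  rfl

private theorem KNegA_R (m : ℕ) :
    (SS lam u fun x y => rd x * rd y * inner ℝ x y ^ (2 * m + 2)) =
    ∑ j ∈ Finset.range (2 * m + 3), ((2 * m + 2).choose j : ℝ) * yr lam u j (2 * m + 2 - j) := by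
  unfold SS
  have h1 : ∀ i k, rd (u i) * rd (u k) * (inner ℝ (u i) (u k) : ℝ) ^ (2 * m + 2) =
      ∑ j ∈ Finset.range (2 * m + 3), ((2 * m + 2).choose j : ℝ) *
        (rd (u i) * rd (u k) * (pd (u i) (u k) ^ j * sd (u i) (u k) ^ (2 * m + 2 - j))) := by
    intro i k
    rw [KNegA_inner, add_pow, Finset.mul_sum]
    refine Finset.sum_congr rfl fun j _ => ?_
    ring
  simp only [h1]
  rw [CndB_sum3]
  rfl

private theorem KNegA_S2 (m : ℕ) :
    (2 * m + 2) * (SS lam u fun x y => sd x y ^ 2 * inner ℝ x y ^ (2 * m)) =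
    ∑ j ∈ Finset.range (2 * m + 3), ((2 * m + 2).choose j : ℝ) *
      (((2 * m + 2 - j : ℕ) : ℝ) * (((2 * m + 2 - j : ℕ) : ℝ) - 1) / (2 * m + 1) *
        yy lam u j (2 * m + 2 - j)) := by
  have h1 : ∀ i k, sd (u i) (u k) ^ 2 * (inner ℝ (u i) (u k) : ℝ) ^ (2 * m) =
      ∑ j ∈ Finset.range (2 * m + 1), ((2 * m).choose j : ℝ) *
        (pd (u i) (u k) ^ j * sd (u i) (u k) ^ (2 * m + 2 - j)) := by
    intro i k
    rw [KNegA_inner, add_pow, Finset.mul_sum]
    refine Finset.sum_congr rfl fun j hj => ?_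
    have h2 : 2 * m + 2 - j = 2 + (2 * m - j) := by
      have := Finset.mem_range.1 hj
      omega
    rw [h2, pow_add]
    ring
  have h2 : (SS lam u fun x y => sd x y ^ 2 * inner ℝ x y ^ (2 * m)) =
      ∑ j ∈ Finset.range (2 * m + 1), ((2 * m).choose j : ℝ) * yy lam u j (2 * m + 2 - j) := by
    unfold SS
    simp only [h1]
    rw [CndB_sum3]
    rfl
  rw [h2, Finset.mul_sum, Finset.sum_range_succ _ (2 * m + 2),
    Finset.sum_range_succ _ (2 * m + 1)]
  have h3 : (2 * m + 2 - (2 * m + 1) : ℕ) = 1 := by omega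
  have h4 : (2 * m + 2 - (2 * m + 2) : ℕ) = 0 := by omega
  rw [h3, h4]
  simp only [Nat.cast_one, sub_self, mul_zero, zero_div, zero_mul, add_zero, Nat.cast_zero]
  refine Finset.sum_congr rfl fun j hj => ?_
  have hjm : j ≤ 2 * m := by
    have := Finset.mem_range.1 hj
    omega
  obtain ⟨l, hl⟩ : ∃ l, 2 * m = j + l := ⟨2 * m - j, by omega⟩
  have h5 : 2 * m + 2 - j = l + 2 := by omega
  have hr : 2 * (m : ℝ) = j + l := by exact_mod_cast hl
  have h6 : ((2 * m + 2).choose j : ℝ) * ((l + 2) * (l + 1)) =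
      ((2 * m).choose j : ℝ) * ((2 * m + 2) * (2 * m + 1)) := by
    have e1 := Nat.choose_mul_succ_eq (2 * m + 1) j
    have e2 := Nat.choose_mul_succ_eq (2 * m) j
    have e3 : 2 * m + 1 + 1 - j = l + 2 := by omega
    have e4 : 2 * m + 1 - j = l + 1 := by omega
    rw [e3] at e1
    rw [e4] at e2
    have e1' : ((2 * m + 1).choose j : ℝ) * (2 * m + 1 + 1) =
        ((2 * m + 1 + 1).choose j : ℝ) * (l + 2) := by exact_mod_cast e1
    have e2' : ((2 * m).choose j : ℝ) * (2 * m + 1) =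
        ((2 * m + 1).choose j : ℝ) * (l + 1) := by exact_mod_cast e2
    linear_combination (-((l : ℝ) + 1)) * e1' - (2 * (m : ℝ) + 2) * e2'
  rw [h5]
  push_cast
  have h7 : (2 * (m : ℝ) + 1) ≠ 0 := by positivity
  field_simp
  linear_combination (-(yy lam u j (l + 2))) * h6

private theorem KNegA_XX (x y : V5) : XX 1 0 x y = rd x * rd y - sd x y ^ 2 := by
  unfold XX mi rd sd
  ring

/-- a crude bound -/
private theorem KNegA_abs {h : V5 → V5 → ℝ} (hh : ∀ i k, |h (u i) (u k)| ≤ 1) :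
    SS lam u h ≤ (∑ i, |lam i|) ^ 2 := by
  unfold SS
  rw [sq, Finset.sum_mul_sum]
  refine Finset.sum_le_sum fun i _ => Finset.sum_le_sum fun k _ => ?_
  refine (le_abs_self _).trans ?_
  rw [abs_mul, abs_mul]
  exact mul_le_of_le_one_right (mul_nonneg (abs_nonneg _) (abs_nonneg _)) (hh i k)

theorem knegA (hu : ∀ i, ‖u i‖ = 1) (K : ℕ) :
    -(2 * dd K * (∑ i, |lam i|) ^ 2) ≤
      ∑ m ∈ Finset.range (K + 1), (3 * (dd m / (2 * m + 2) *
        SS lam u fun x y => inner ℝ x y ^ (2 * m + 2)) +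
        dd m * (SS lam u fun x y => XX 1 0 x y * inner ℝ x y ^ (2 * m))) := by
  have htle : ∀ i k, |(inner ℝ (u i) (u k) : ℝ)| ≤ 1 := by
    intro i k
    have := abs_real_inner_le_norm (u i) (u k)
    rwa [hu, hu, one_mul] at this
  set A := (∑ i, |lam i|) ^ 2 with hA
  have hA0 : 0 ≤ A := sq_nonneg _
  set R : ℕ → ℝ := fun m => SS lam u fun x y => rd x * rd y * inner ℝ x y ^ (2 * m) with hR
  have hX : ∀ m, (SS lam u fun x y => XX 1 0 x y * inner ℝ x y ^ (2 * m)) =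
      R m - SS lam u fun x y => sd x y ^ 2 * inner ℝ x y ^ (2 * m) := by
    intro m
    simp only [hR]
    rw [← ss_sub]
    refine ss_congr lam u fun i k => ?_
    rw [KNegA_XX]
    ring
  -- one level
  have hE : ∀ m : ℕ, 3 * (dd m / (2 * m + 2) *
        SS lam u fun x y => inner ℝ x y ^ (2 * m + 2)) +
        dd m * (SS lam u fun x y => XX 1 0 x y * inner ℝ x y ^ (2 * m)) =
      Em lam u m + (dd m * R m - dd (m + 1) * R (m + 1)) := by
    intro m
    rw [hX m]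
    have e1 : dd m * (SS lam u fun x y => sd x y ^ 2 * inner ℝ x y ^ (2 * m)) =
        dd m / (2 * m + 2) * ((2 * m + 2) *
          (SS lam u fun x y => sd x y ^ 2 * inner ℝ x y ^ (2 * m))) := by
      field_simp
    have e2 : dd (m + 1) * R (m + 1) = dd m / (2 * m + 2) * ((2 * m + 1) * R (m + 1)) := by
      rw [dd_succ]
      ring
    have e3 : R (m + 1) = ∑ j ∈ Finset.range (2 * m + 3), ((2 * m + 2).choose j : ℝ) *
        yr lam u j (2 * m + 2 - j) := by
      rw [← KNegA_R]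
      rfl
    have e4 : Em lam u m = dd m / (2 * m + 2) * (3 * (SS lam u fun x y =>
        inner ℝ x y ^ (2 * m + 2)) - (2 * m + 2) *
          (SS lam u fun x y => sd x y ^ 2 * inner ℝ x y ^ (2 * m)) + (2 * m + 1) * R (m + 1)) := by
      rw [KNegA_x0, KNegA_S2, e3]
      unfold Em
      congr 1
      rw [Finset.mul_sum, Finset.mul_sum, ← Finset.sum_sub_distrib, ← Finset.sum_add_distrib]
      refine Finset.sum_congr rfl fun j _ => ?_
      ring
    rw [e4, mul_sub, e1, e2]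
    ring
  simp only [hE]
  rw [Finset.sum_add_distrib, Finset.sum_range_sub' (fun m => dd m * R m)]
  have hEsum : Dm lam u 0 - Dm lam u (K + 1) ≤ ∑ m ∈ Finset.range (K + 1), Em lam u m := by
    rw [← Finset.sum_range_sub' (fun m => Dm lam u m)]
    exact Finset.sum_le_sum fun m _ => Dm_step lam u hu m
  have hR0 : 0 ≤ R 0 := by
    have h := yr_nonneg lam u 0 0
    refine h.trans (le_of_eq ?_)
    simp only [hR, SS, yr]
    refine Finset.sum_congr rfl fun i _ => Finset.sum_congr rfl fun k _ => ?_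
    simp
  have hrd : ∀ i, |rd (u i)| ≤ 1 := by
    intro i
    have h1 := KNegA_unit (hu i)
    have h2 : 0 ≤ rh (u i) := by unfold rh; positivity
    have h3 : 0 ≤ rd (u i) := by unfold rd; positivity
    rw [abs_of_nonneg h3]
    linarith
  have hRK : R (K + 1) ≤ A := by
    refine KNegA_abs lam u fun i k => ?_
    rw [abs_mul, abs_mul, abs_pow]
    have h1 : |rd (u i)| * |rd (u k)| ≤ 1 :=
      mul_le_one₀ (hrd i) (abs_nonneg _) (hrd k)
    exact mul_le_one₀ h1 (pow_nonneg (abs_nonneg _) _) (pow_le_one₀ (abs_nonneg _) (htle i k))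
  have hx0 : (SS lam u fun x y => inner ℝ x y ^ (2 * (K + 1) + 2)) ≤ A := by
    refine KNegA_abs lam u fun i k => ?_
    rw [abs_pow]
    exact pow_le_one₀ (abs_nonneg _) (htle i k)
  have hDK : Dm lam u (K + 1) ≤ dd (K + 1) * A := by
    have h1 : Dm lam u (K + 1) ≤ dd (K + 1) / (2 * ((K + 1 : ℕ) : ℝ) + 2) *
        ((2 * ((K + 1 : ℕ) : ℝ) + 2) *
          SS lam u fun x y => inner ℝ x y ^ (2 * (K + 1) + 2)) := by
      unfold Dm
      refine mul_le_mul_of_nonneg_left ?_ (CndB_w (K + 1)).le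
      rw [KNegA_x0, Finset.mul_sum]
      refine Finset.sum_le_sum fun j hj => ?_
      have hjm : j ≤ 2 * (K + 1) + 2 := by
        have := Finset.mem_range.1 hj
        omega
      have hy := yy_nonneg' lam u j (2 * (K + 1) + 2 - j)
      have h2 : ((2 * (K + 1) + 2 - j : ℕ) : ℝ) * j / (2 * ((K + 1 : ℕ) : ℝ) + 1) ≤
          2 * ((K + 1 : ℕ) : ℝ) + 2 := by
        rw [div_le_iff₀ (by positivity)]
        obtain ⟨l, hl⟩ : ∃ l, 2 * (K + 1) + 2 = j + l := ⟨2 * (K + 1) + 2 - j, by omega⟩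
        have h3 : 2 * (K + 1) + 2 - j = l := by omega
        rw [h3]
        have h4 : 2 * ((K + 1 : ℕ) : ℝ) + 2 = j + l := by exact_mod_cast hl
        have h5 : 2 * ((K + 1 : ℕ) : ℝ) + 1 = j + l - 1 := by linarith
        rw [h4, h5]
        have h6 : (4 : ℝ) ≤ j + l := by
          rw [← h4]
          push_cast
          linarith [(Nat.cast_nonneg K : (0 : ℝ) ≤ K)]
        nlinarith [sq_nonneg ((j : ℝ) - l), (Nat.cast_nonneg j : (0 : ℝ) ≤ j),
          (Nat.cast_nonneg l : (0 : ℝ) ≤ l)]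
      have h7 := mul_le_mul_of_nonneg_right h2 hy
      have h8 := mul_le_mul_of_nonneg_left h7
        (Nat.cast_nonneg ((2 * (K + 1) + 2).choose j) : (0 : ℝ) ≤ _)
      refine h8.trans (le_of_eq ?_)
      ring
    refine h1.trans ?_
    have h2 : dd (K + 1) / (2 * ((K + 1 : ℕ) : ℝ) + 2) * ((2 * ((K + 1 : ℕ) : ℝ) + 2) *
        SS lam u fun x y => inner ℝ x y ^ (2 * (K + 1) + 2)) =
        dd (K + 1) * SS lam u fun x y => inner ℝ x y ^ (2 * (K + 1) + 2) := by
      have : (2 * ((K + 1 : ℕ) : ℝ) + 2) ≠ 0 := by positivity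
      field_simp
    rw [h2]
    exact mul_le_mul_of_nonneg_left hx0 (dd_pos _).le
  have hdd : dd (K + 1) ≤ dd K := by
    rw [dd_succ]
    have h1 : ((2 * (K : ℝ) + 1) / (2 * K + 2)) ≤ 1 := by
      rw [div_le_one (by positivity)]
      linarith
    exact mul_le_of_le_one_right (dd_pos K).le h1
  have hD0 := Dm_nonneg lam u 0
  have h1 : dd (K + 1) * R (K + 1) ≤ dd (K + 1) * A := mul_le_mul_of_nonneg_left hRK (dd_pos _).le
  have h2 : dd (K + 1) * A ≤ dd K * A := mul_le_mul_of_nonneg_right hdd hA0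
  have h3 : dd 0 = 1 := dd_zero
  rw [h3, one_mul]
  linarith

end Pool.Agent.H85.C3
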