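import Mathlib
import Pool.Agent.H85.C3.Defs

set_option autoImplicit false

/-!
# KSym: degree two

`M j k = ∑ lam i * u i j * u i k` (symmetric 5×5 matrix); for unit vectors and `∑ lam = 0` its trace
is `0`.  `∑ lam lam' (u_j u_k)(u'_l u'_r) = M_jk M_lr`.

* `∑ lam lam' t² = ∑_{j,k} M_jk²`, `∑ lam lam' x4 y4 t = ∑_k M_4k²`,
  `∑ lam lam' qd t = ∑_{j ∈ {2,3}, k} M_jk²`, `∑ lam lam' m_jk m_lr = 2 (M_jl M_kr - M_jr M_kl)`.
* `ksym_pos`: `3 |M|² - 2 (|M_qq|² + |M_qp|² + |M_qa|²) - 2 (2 tr M_qq M_44 - 2 |M_qa|²) ≥ 0` for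
  trace zero: with `A = M_44`, `Q = tr M_qq`, `tr M_pp = -(Q + A)`, `|M_pp|² ≥ (Q+A)²/2`,
  `|M_qq|² ≥ Q²/2`: `(3/2)(Q+A)² + Q²/2 + 3A² - 4QA = 2Q² - QA + (9/2) A² ≥ 0`.
* `ksym_neg`: `5 |M|² - 4 (A² + |M_pa|² + |M_qa|²) + 4 det M_qq + 4 det M_pp +
  8 (M_02 M_13 - M_03 M_12) ≥ 0` (no trace condition): sum of squares.
-/

noncomputable section

namespace Pool.Agent.H85.C3

variable {ι : Type*} [Fintype ι] (lam : ι → ℝ) (u : ι → V5)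

/-- the moments -/
private def Mo (j k : Fin 5) : ℝ := ∑ i, lam i * (u i j * u i k)

private theorem SS_add (f g : V5 → V5 → ℝ) :
    SS lam u (fun x y => f x y + g x y) = SS lam u f + SS lam u g := by
  simp only [SS, mul_add, Finset.sum_add_distrib]

private theorem SS_sub (f g : V5 → V5 → ℝ) :
    SS lam u (fun x y => f x y - g x y) = SS lam u f - SS lam u g := by
  simp only [SS, mul_sub, Finset.sum_sub_distrib]

private theorem SS_smul (c : ℝ) (f : V5 → V5 → ℝ) :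
    SS lam u (fun x y => c * f x y) = c * SS lam u f := by
  simp only [SS, Finset.mul_sum]
  exact Finset.sum_congr rfl fun i _ => Finset.sum_congr rfl fun k _ => by ring

private theorem SS_mono (j k l r : Fin 5) :
    SS lam u (fun x y => x j * x k * (y l * y r)) = Mo lam u j k * Mo lam u l r := by
  simp only [SS, Mo, Finset.sum_mul_sum]
  exact Finset.sum_congr rfl fun i _ => Finset.sum_congr rfl fun k _ => by ring

private theorem inner5 (x y : V5) : (inner ℝ x y : ℝ) =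
    x 0 * y 0 + x 1 * y 1 + x 2 * y 2 + x 3 * y 3 + x 4 * y 4 := by
  simp only [PiLp.inner_apply, Fin.sum_univ_five, RCLike.inner_apply, conj_trivial]
  ring

private theorem trace_zero (hu : ∀ i, ‖u i‖ = 1) (hl : ∑ i, lam i = 0) :
    Mo lam u 0 0 + Mo lam u 1 1 + Mo lam u 2 2 + Mo lam u 3 3 + Mo lam u 4 4 = 0 := by
  simp only [Mo, ← Finset.sum_add_distrib]
  rw [← hl]
  refine Finset.sum_congr rfl fun i _ => ?_
  have h := inner5 (u i) (u i)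
  rw [real_inner_self_eq_norm_sq, hu i] at h
  linear_combination (-lam i) * h

theorem ksym_pos (hu : ∀ i, ‖u i‖ = 1) (hl : ∑ i, lam i = 0) :
    0 ≤ SS lam u fun x y => 3 * inner ℝ x y ^ 2 - 2 * (qd x y * inner ℝ x y) -
      2 * (mi 2 4 x y ^ 2 + mi 3 4 x y ^ 2) := by
  have e : (fun x y : V5 => 3 * inner ℝ x y ^ 2 - 2 * (qd x y * inner ℝ x y) -
      2 * (mi 2 4 x y ^ 2 + mi 3 4 x y ^ 2)) = fun x y : V5 =>
      3 * (x 0 * x 0 * (y 0 * y 0)) + 3 * (x 1 * x 1 * (y 1 * y 1)) +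
      1 * (x 2 * x 2 * (y 2 * y 2)) + 1 * (x 3 * x 3 * (y 3 * y 3)) +
      3 * (x 4 * x 4 * (y 4 * y 4)) +
      6 * (x 0 * x 1 * (y 0 * y 1)) + 4 * (x 0 * x 2 * (y 0 * y 2)) +
      4 * (x 0 * x 3 * (y 0 * y 3)) + 6 * (x 0 * x 4 * (y 0 * y 4)) +
      4 * (x 1 * x 2 * (y 1 * y 2)) + 4 * (x 1 * x 3 * (y 1 * y 3)) +
      6 * (x 1 * x 4 * (y 1 * y 4)) + 2 * (x 2 * x 3 * (y 2 * y 3)) +
      8 * (x 2 * x 4 * (y 2 * y 4)) + 8 * (x 3 * x 4 * (y 3 * y 4)) -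
      2 * (x 2 * x 2 * (y 4 * y 4)) - 2 * (x 4 * x 4 * (y 2 * y 2)) -
      2 * (x 3 * x 3 * (y 4 * y 4)) - 2 * (x 4 * x 4 * (y 3 * y 3)) := by
    funext x y
    rw [inner5]
    simp only [qd, mi]
    ring
  rw [e]
  simp only [SS_add, SS_sub, SS_smul, SS_mono]
  have ht := trace_zero lam u hu hl
  have h0 : Mo lam u 0 0 = -(Mo lam u 1 1 + Mo lam u 2 2 + Mo lam u 3 3 + Mo lam u 4 4) := by
    linarith
  rw [h0]
  nlinarith [sq_nonneg (-(Mo lam u 1 1 + Mo lam u 2 2 + Mo lam u 3 3 + Mo lam u 4 4) -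
      Mo lam u 1 1), sq_nonneg (Mo lam u 2 2 - Mo lam u 3 3),
    sq_nonneg (4 * (Mo lam u 2 2 + Mo lam u 3 3) - Mo lam u 4 4), sq_nonneg (Mo lam u 4 4),
    sq_nonneg (Mo lam u 0 1), sq_nonneg (Mo lam u 0 2), sq_nonneg (Mo lam u 0 3),
    sq_nonneg (Mo lam u 0 4), sq_nonneg (Mo lam u 1 2), sq_nonneg (Mo lam u 1 3),
    sq_nonneg (Mo lam u 1 4), sq_nonneg (Mo lam u 2 3), sq_nonneg (Mo lam u 2 4),
    sq_nonneg (Mo lam u 3 4)]

theorem ksym_neg :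
    0 ≤ SS lam u fun x y => 5 * inner ℝ x y ^ 2 - 4 * (x 4 * y 4 * inner ℝ x y) +
      2 * (mi 2 3 x y + mi 0 1 x y) ^ 2 := by
  have e : (fun x y : V5 => 5 * inner ℝ x y ^ 2 - 4 * (x 4 * y 4 * inner ℝ x y) +
      2 * (mi 2 3 x y + mi 0 1 x y) ^ 2) = fun x y : V5 =>
      5 * (x 0 * x 0 * (y 0 * y 0)) + 5 * (x 1 * x 1 * (y 1 * y 1)) +
      5 * (x 2 * x 2 * (y 2 * y 2)) + 5 * (x 3 * x 3 * (y 3 * y 3)) +
      1 * (x 4 * x 4 * (y 4 * y 4)) +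
      6 * (x 0 * x 1 * (y 0 * y 1)) + 10 * (x 0 * x 2 * (y 0 * y 2)) +
      10 * (x 0 * x 3 * (y 0 * y 3)) + 6 * (x 0 * x 4 * (y 0 * y 4)) +
      10 * (x 1 * x 2 * (y 1 * y 2)) + 10 * (x 1 * x 3 * (y 1 * y 3)) +
      6 * (x 1 * x 4 * (y 1 * y 4)) + 6 * (x 2 * x 3 * (y 2 * y 3)) +
      6 * (x 2 * x 4 * (y 2 * y 4)) + 6 * (x 3 * x 4 * (y 3 * y 4)) +
      2 * (x 2 * x 2 * (y 3 * y 3)) + 2 * (x 3 * x 3 * (y 2 * y 2)) +
      2 * (x 0 * x 0 * (y 1 * y 1)) + 2 * (x 1 * x 1 * (y 0 * y 0)) +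
      4 * (x 0 * x 2 * (y 1 * y 3)) + 4 * (x 1 * x 3 * (y 0 * y 2)) -
      4 * (x 1 * x 2 * (y 0 * y 3)) - 4 * (x 0 * x 3 * (y 1 * y 2)) := by
    funext x y
    rw [inner5]
    simp only [mi]
    ring
  rw [e]
  simp only [SS_add, SS_sub, SS_smul, SS_mono]
  nlinarith [sq_nonneg (Mo lam u 0 0 + Mo lam u 1 1), sq_nonneg (Mo lam u 0 0),
    sq_nonneg (Mo lam u 1 1), sq_nonneg (Mo lam u 2 2 + Mo lam u 3 3), sq_nonneg (Mo lam u 2 2),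
    sq_nonneg (Mo lam u 3 3), sq_nonneg (Mo lam u 4 4),
    sq_nonneg (Mo lam u 0 1), sq_nonneg (Mo lam u 0 4), sq_nonneg (Mo lam u 1 4),
    sq_nonneg (Mo lam u 2 3), sq_nonneg (Mo lam u 2 4), sq_nonneg (Mo lam u 3 4),
    sq_nonneg (Mo lam u 0 2 + Mo lam u 1 3), sq_nonneg (Mo lam u 0 2), sq_nonneg (Mo lam u 1 3),
    sq_nonneg (Mo lam u 0 3 - Mo lam u 1 2), sq_nonneg (Mo lam u 0 3), sq_nonneg (Mo lam u 1 2)]

end Pool.Agent.H85.C3
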