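import Mathlib
import Pool.Agent.H85.C3.KL
import Pool.Agent.H85.C3.KSym
import Pool.Agent.H89.CZ.KSer

set_option autoImplicit false

/-!
# KNegB: the finite inequality for `c = 1`

`XX 1 1 = τ² + (x4² + y4² - 2 x4 y4 t)` for unit vectors, `τ = mi 2 3 + mi 0 1`.
`w_m = dd m / (2m+2)`, `x0_m = SS t^(2m+2)`, `x1_m = SS x4 y4 t^(2m+1)`.
* `m = 0`: `4 x0_0 + 2 SS XX = 4 x0_0 + SS (2 τ² - 4 x4 y4 t)` (`SS x4² = 0` as `∑ lam = 0`), and
  with one more `x0_0` it is `≥ 0` (`ksym_neg`).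
* `m ≥ 1`: by `l2_one` (multiply by `(2m+2)/(2m+1)`), the `x4²` terms cancel:
  `4 x0_m + (2m+2) SS XX t^(2m) ≥ (2m+2) SS t^(2m) + (4 - (2m+2)(2m+4)/(2m+1)) x0_m
    + ((2m+2)/(2m+1)) (x0_m + 2 x1_m)`  (`SS (pd+qd) t^(2m+1) = x0_m - x1_m`).
* `dd m SS t^(2m) = w_(m-1) (2m-1) x0_(m-1)` for `m ≥ 1` (`dd_succ`), so after the shift the
  coefficient of `w_m x0_m`, `m ≥ 1`, is `4 - (2m+2)(2m+3)/(2m+1) + (2m+1) = 4 - (6m+5)/(2m+1) > 0`;
  for `m = K` the part `(2m+1) w_m x0_m ≤ dd K x0_K ≤ dd K (∑ |lam|)²` is missing.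
Best: prove by induction on `K` that `-(2K+1) w_K x0_K ≤ ∑_{m ≤ K} w_m (4 x0_m + (2m+2) SS XX t^(2m))`.
-/

open Pool.Agent.H35.T3 Pool.Agent.H89.CZ

noncomputable section

namespace Pool.Agent.H85.C3

variable {ι : Type*} [Fintype ι] (lam : ι → ℝ) (u : ι → V5)

private theorem KNegB_norm (x : V5) (hx : ‖x‖ = 1) :
    x 0 * x 0 + x 1 * x 1 + (x 2 * x 2 + x 3 * x 3) + x 4 * x 4 = 1 := by
  have h := inner_eq x x
  rw [real_inner_self_eq_norm_sq, hx] at h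
  unfold pd qd at h
  linarith

private theorem KNegB_XX (x y : V5) (hx : ‖x‖ = 1) (hy : ‖y‖ = 1) :
    XX 1 1 x y = (mi 2 3 x y + mi 0 1 x y) ^ 2 +
      (x 4 ^ 2 + y 4 ^ 2 - 2 * (x 4 * y 4 * inner ℝ x y)) := by
  have h1 := KNegB_norm x hx
  have h2 := KNegB_norm y hy
  rw [inner_eq x y]
  unfold XX mi pd qd
  linear_combination (y 4 ^ 2) * h1 + (x 4 ^ 2) * h2

private theorem KNegB_swap (f : V5 → V5 → ℝ) : (SS lam u fun x y => f y x) = SS lam u f := by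
  unfold SS
  rw [Finset.sum_comm]
  refine Finset.sum_congr rfl fun i _ => Finset.sum_congr rfl fun k _ => ?_
  ring

/-- the sum with `XX` -/
private theorem KNegB_sum (hu : ∀ i, ‖u i‖ = 1) (m : ℕ) :
    (SS lam u fun x y => XX 1 1 x y * inner ℝ x y ^ (2 * m)) =
      (SS lam u fun x y => (mi 2 3 x y + mi 0 1 x y) ^ 2 * inner ℝ x y ^ (2 * m)) +
        (2 * (SS lam u fun x y => x 4 ^ 2 * inner ℝ x y ^ (2 * m)) -
          2 * SS lam u fun x y => x 4 * y 4 * inner ℝ x y ^ (2 * m + 1)) := by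
  have h1 : (SS lam u fun x y => XX 1 1 x y * inner ℝ x y ^ (2 * m)) =
      SS lam u fun x y => (mi 2 3 x y + mi 0 1 x y) ^ 2 * inner ℝ x y ^ (2 * m) +
        ((x 4 ^ 2 * inner ℝ x y ^ (2 * m) + y 4 ^ 2 * inner ℝ x y ^ (2 * m)) -
          2 * (x 4 * y 4 * inner ℝ x y ^ (2 * m + 1))) := by
    refine ss_congr lam u fun i k => ?_
    rw [KNegB_XX (u i) (u k) (hu i) (hu k)]
    ring
  rw [h1, ss_add lam u (fun x y => (mi 2 3 x y + mi 0 1 x y) ^ 2 * inner ℝ x y ^ (2 * m))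
    (fun x y => (x 4 ^ 2 * inner ℝ x y ^ (2 * m) + y 4 ^ 2 * inner ℝ x y ^ (2 * m)) -
          2 * (x 4 * y 4 * inner ℝ x y ^ (2 * m + 1))),
    ss_sub lam u (fun x y => x 4 ^ 2 * inner ℝ x y ^ (2 * m) + y 4 ^ 2 * inner ℝ x y ^ (2 * m))
      (fun x y => 2 * (x 4 * y 4 * inner ℝ x y ^ (2 * m + 1))),
    ss_add lam u (fun x y => x 4 ^ 2 * inner ℝ x y ^ (2 * m))
      (fun x y => y 4 ^ 2 * inner ℝ x y ^ (2 * m)),
    ss_mul lam u 2 (fun x y => x 4 * y 4 * inner ℝ x y ^ (2 * m + 1))]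
  have h2 : (SS lam u fun x y => y 4 ^ 2 * inner ℝ x y ^ (2 * m)) =
      SS lam u fun x y => x 4 ^ 2 * inner ℝ x y ^ (2 * m) := by
    rw [← KNegB_swap lam u fun x y => x 4 ^ 2 * inner ℝ x y ^ (2 * m)]
    refine ss_congr lam u fun i k => ?_
    rw [real_inner_comm]
  rw [h2]
  ring

private theorem KNegB_x4 (hl : ∑ i, lam i = 0) :
    (SS lam u fun x y => x 4 ^ 2 * inner ℝ x y ^ (2 * 0)) = 0 := by
  unfold SS
  have h : ∀ i : ι, ∑ k, lam i * lam k * ((u i) 4 ^ 2 * inner ℝ (u i) (u k) ^ (2 * 0)) =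
      lam i * (u i) 4 ^ 2 * ∑ k, lam k := by
    intro i
    rw [Finset.mul_sum]
    refine Finset.sum_congr rfl fun k _ => ?_
    simp only [Nat.mul_zero, pow_zero]
    ring
  rw [Finset.sum_congr rfl fun i _ => h i, hl]
  simp only [mul_zero, Finset.sum_const_zero]

private theorem KNegB_le (hu : ∀ i, ‖u i‖ = 1) (l : ℕ) :
    (SS lam u fun x y => inner ℝ x y ^ l) ≤ (∑ i, |lam i|) ^ 2 := by
  unfold SS
  rw [sq, Finset.sum_mul_sum]
  refine Finset.sum_le_sum fun i _ => Finset.sum_le_sum fun k _ => ?_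
  have h1 : |(inner ℝ (u i) (u k) : ℝ)| ≤ 1 := by
    have h := abs_real_inner_le_norm (u i) (u k)
    rw [hu i, hu k, mul_one] at h
    exact h
  have h2 : |(inner ℝ (u i) (u k) : ℝ) ^ l| ≤ 1 := by
    rw [abs_pow]
    exact pow_le_one₀ (abs_nonneg _) h1
  calc lam i * lam k * (inner ℝ (u i) (u k) : ℝ) ^ l
      ≤ |lam i * lam k * (inner ℝ (u i) (u k) : ℝ) ^ l| := le_abs_self _
    _ = |lam i| * |lam k| * |(inner ℝ (u i) (u k) : ℝ) ^ l| := by rw [abs_mul, abs_mul]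
    _ ≤ |lam i| * |lam k| * 1 := by gcongr
    _ = |lam i| * |lam k| := mul_one _

/-- the term `m` -/
private theorem KNegB_term (hu : ∀ i, ‖u i‖ = 1) (m : ℕ) :
    (SS lam u fun x y => inner ℝ x y ^ (2 * m)) -
        (2 * m + 3) / (2 * m + 1) * (SS lam u fun x y => inner ℝ x y ^ (2 * m + 2)) ≤
      SS lam u fun x y => XX 1 1 x y * inner ℝ x y ^ (2 * m) := by
  have h1 := l2_one lam u hu m
  have h2 : (SS lam u fun x y => (pd x y + qd x y) * inner ℝ x y ^ (2 * m + 1)) =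
      (SS lam u fun x y => inner ℝ x y ^ (2 * m + 2)) -
        SS lam u fun x y => x 4 * y 4 * inner ℝ x y ^ (2 * m + 1) := by
    rw [← ss_sub]
    refine ss_congr lam u fun i k => ?_
    have h := inner_eq (u i) (u k)
    have h' : pd (u i) (u k) + qd (u i) (u k) = inner ℝ (u i) (u k) - (u i) 4 * (u k) 4 := by
      rw [h]
      ring
    rw [h']
    ring
  rw [h2] at h1
  rw [KNegB_sum lam u hu m]
  have h3 := ss_coord lam u 4 (2 * m + 1)
  have hm : (0 : ℝ) < 2 * m + 1 := by positivity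
  rw [div_mul_eq_mul_div, sub_le_iff_le_add]
  set T := SS lam u fun x y => inner ℝ x y ^ (2 * m)
  set X0 := SS lam u fun x y => inner ℝ x y ^ (2 * m + 2)
  set X1 := SS lam u fun x y => x 4 * y 4 * inner ℝ x y ^ (2 * m + 1)
  set A := SS lam u fun x y => x 4 ^ 2 * inner ℝ x y ^ (2 * m)
  set τ := SS lam u fun x y => (mi 2 3 x y + mi 0 1 x y) ^ 2 * inner ℝ x y ^ (2 * m)
  have h4 : T ≤ ((2 * m + 1) * (τ + (2 * A - 2 * X1)) + (2 * m + 3) * X0) / (2 * m + 1) := by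
    rw [le_div_iff₀ hm]
    linarith
  refine h4.trans (le_of_eq ?_)
  field_simp

private theorem KNegB_ind (hu : ∀ i, ‖u i‖ = 1) (hl : ∑ i, lam i = 0) (K : ℕ) :
    -((2 * K + 1) * (dd K / (2 * K + 2)) * SS lam u fun x y => inner ℝ x y ^ (2 * K + 2)) ≤
      ∑ m ∈ Finset.range (K + 1), (4 * (dd m / (2 * m + 2) *
        SS lam u fun x y => inner ℝ x y ^ (2 * m + 2)) +
        dd m * (SS lam u fun x y => XX 1 1 x y * inner ℝ x y ^ (2 * m))) := by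
  induction K with
  | zero =>
    rw [Finset.sum_range_one, KNegB_sum lam u hu 0, KNegB_x4 lam u hl, dd_zero]
    have h := ksym_neg lam u
    have h1 : (SS lam u fun x y => 5 * inner ℝ x y ^ 2 - 4 * (x 4 * y 4 * inner ℝ x y) +
        2 * (mi 2 3 x y + mi 0 1 x y) ^ 2) =
        5 * (SS lam u fun x y => inner ℝ x y ^ (2 * 0 + 2)) -
          4 * (SS lam u fun x y => x 4 * y 4 * inner ℝ x y ^ (2 * 0 + 1)) +
          2 * SS lam u fun x y => (mi 2 3 x y + mi 0 1 x y) ^ 2 * inner ℝ x y ^ (2 * 0) := by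
      rw [← ss_mul, ← ss_mul, ← ss_mul, ← ss_sub, ← ss_add]
      refine ss_congr lam u fun i k => ?_
      ring
    rw [h1] at h
    push_cast
    linarith
  | succ K ih =>
    rw [Finset.sum_range_succ]
    have h1 := KNegB_term lam u hu (K + 1)
    have hd := dd_succ K
    have hd0 := dd_pos K
    have hd1 := dd_pos (K + 1)
    have hX := ss_t lam u (2 * (K + 1) + 2)
    have hT : (SS lam u fun x y => inner ℝ x y ^ (2 * (K + 1))) =
        SS lam u fun x y => inner ℝ x y ^ (2 * K + 2) := rfl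
    rw [hT] at h1
    set X0 := SS lam u fun x y => inner ℝ x y ^ (2 * K + 2)
    set X0' := SS lam u fun x y => inner ℝ x y ^ (2 * (K + 1) + 2)
    set Y := SS lam u fun x y => XX 1 1 x y * inner ℝ x y ^ (2 * (K + 1))
    have h2 := mul_le_mul_of_nonneg_left h1 hd1.le
    have hk : (0 : ℝ) < 2 * K + 2 := by positivity
    have hk3 : (0 : ℝ) < 2 * ((K + 1 : ℕ) : ℝ) + 1 := by positivity
    have hk4 : (0 : ℝ) < 2 * ((K + 1 : ℕ) : ℝ) + 2 := by positivity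
    have h3 : dd (K + 1) * X0 = (2 * K + 1) * (dd K / (2 * K + 2)) * X0 := by
      rw [hd]
      field_simp
    have h4 : 0 ≤ ((2 * ((K + 1 : ℕ) : ℝ) + 1) * (1 / (2 * ((K + 1 : ℕ) : ℝ) + 2)) +
        4 * (1 / (2 * ((K + 1 : ℕ) : ℝ) + 2)) -
        (2 * ((K + 1 : ℕ) : ℝ) + 3) / (2 * ((K + 1 : ℕ) : ℝ) + 1)) := by
      have h5 : ((2 * ((K + 1 : ℕ) : ℝ) + 1) * (1 / (2 * ((K + 1 : ℕ) : ℝ) + 2)) +
        4 * (1 / (2 * ((K + 1 : ℕ) : ℝ) + 2)) -
        (2 * ((K + 1 : ℕ) : ℝ) + 3) / (2 * ((K + 1 : ℕ) : ℝ) + 1)) =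
        (2 * K + 1) / ((2 * ((K + 1 : ℕ) : ℝ) + 2) * (2 * ((K + 1 : ℕ) : ℝ) + 1)) := by
        push_cast
        field_simp
        ring
      rw [h5]
      positivity
    have h6 := mul_nonneg h4 (mul_nonneg hd1.le hX)
    have h7 : dd (K + 1) * (X0 - (2 * ((K + 1 : ℕ) : ℝ) + 3) / (2 * ((K + 1 : ℕ) : ℝ) + 1) * X0') =
        dd (K + 1) * X0 -
          (2 * ((K + 1 : ℕ) : ℝ) + 3) / (2 * ((K + 1 : ℕ) : ℝ) + 1) * (dd (K + 1) * X0') := by
      ring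
    rw [h7, h3] at h2
    have h8 : dd (K + 1) / (2 * ((K + 1 : ℕ) : ℝ) + 2) =
        (1 / (2 * ((K + 1 : ℕ) : ℝ) + 2)) * dd (K + 1) := by
      ring
    rw [h8]
    have h9 : (1 / (2 * ((K + 1 : ℕ) : ℝ) + 2)) * dd (K + 1) * X0' =
        (1 / (2 * ((K + 1 : ℕ) : ℝ) + 2)) * (dd (K + 1) * X0') := by ring
    rw [h9]
    set D := dd (K + 1) * X0'
    nlinarith [ih, h2, h6]

theorem knegB (hu : ∀ i, ‖u i‖ = 1) (hl : ∑ i, lam i = 0) (K : ℕ) :
    -(dd K * (∑ i, |lam i|) ^ 2) ≤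
      ∑ m ∈ Finset.range (K + 1), (4 * (dd m / (2 * m + 2) *
        SS lam u fun x y => inner ℝ x y ^ (2 * m + 2)) +
        dd m * (SS lam u fun x y => XX 1 1 x y * inner ℝ x y ^ (2 * m))) := by
  refine le_trans ?_ (KNegB_ind lam u hu hl K)
  have h1 := KNegB_le lam u hu (2 * K + 2)
  have h2 := ss_t lam u (2 * K + 2)
  have hd := dd_pos K
  have h3 : (2 * (K : ℝ) + 1) * (dd K / (2 * K + 2)) ≤ dd K := by
    rw [← mul_div_assoc, div_le_iff₀ (by positivity)]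
    nlinarith
  have h4 : (2 * (K : ℝ) + 1) * (dd K / (2 * K + 2)) *
      (SS lam u fun x y => inner ℝ x y ^ (2 * K + 2)) ≤ dd K * (∑ i, |lam i|) ^ 2 :=
    mul_le_mul h3 h1 h2 hd.le
  linarith

end Pool.Agent.H85.C3
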