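import Mathlib
import Pool.Agent.H85.C3.KNegA
import Pool.Agent.H85.C3.KNegB

set_option autoImplicit false

/-!
# KNeg: the finite inequality for `b = -1/5`

`XX 1 c = (1-c) XX 1 0 + c XX 1 1 - c (1-c) V`, `V = m01² + m04² + m14²`;
`dd m SS V t^(2m) ≤ 4 w_m x0_m` by `l1_V` (`(2m+2)/(2m+1) ≤ 2`, `SS qd t^(2m+1) ≥ 0`), `knegA`, `knegB`
and `5 - 3 (1-c) - 4 c - 4 c (1-c) = 2 - 5c + 4c² > 0`.
-/

open Pool.Agent.H35.T3 Pool.Agent.H89.CZ

noncomputable section

namespace Pool.Agent.H85.C3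

variable {ι : Type*} [Fintype ι] (lam : ι → ℝ) (u : ι → V5)

private theorem KNeg_V (m : ℕ) :
    dd m * (SS lam u fun x y =>
        (mi 0 1 x y ^ 2 + mi 0 4 x y ^ 2 + mi 1 4 x y ^ 2) * inner ℝ x y ^ (2 * m)) ≤
      4 * (dd m / (2 * m + 2) * SS lam u fun x y => inner ℝ x y ^ (2 * m + 2)) := by
  have h1 := l1_V lam u m
  have hq : 0 ≤ SS lam u fun x y => qd x y * inner ℝ x y ^ (2 * m + 1) := by
    have h2 := ss_coord lam u 2 (2 * m + 1)
    have h3 := ss_coord lam u 3 (2 * m + 1)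
    have h4 : (SS lam u fun x y => qd x y * inner ℝ x y ^ (2 * m + 1)) =
        (SS lam u fun x y => x 2 * y 2 * inner ℝ x y ^ (2 * m + 1)) +
          SS lam u fun x y => x 3 * y 3 * inner ℝ x y ^ (2 * m + 1) := by
      rw [← ss_add]
      refine ss_congr lam u fun i k => ?_
      unfold qd
      ring
    rw [h4]
    exact add_nonneg h2 h3
  have hs : (SS lam u fun x y => inner ℝ x y ^ (2 * m + 2)) =
      (SS lam u fun x y => pd x y * inner ℝ x y ^ (2 * m + 1)) +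
        (SS lam u fun x y => qd x y * inner ℝ x y ^ (2 * m + 1)) +
        SS lam u fun x y => x 4 * y 4 * inner ℝ x y ^ (2 * m + 1) := by
    rw [← ss_add, ← ss_add]
    refine ss_congr lam u fun i k => ?_
    have h := inner_eq (u i) (u k)
    calc (inner ℝ (u i) (u k) : ℝ) ^ (2 * m + 2)
        = (inner ℝ (u i) (u k) : ℝ) * (inner ℝ (u i) (u k) : ℝ) ^ (2 * m + 1) := by ring
      _ = (pd (u i) (u k) + qd (u i) (u k) + (u i) 4 * (u k) 4) *
            (inner ℝ (u i) (u k) : ℝ) ^ (2 * m + 1) := by rw [← h]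
      _ = _ := by ring
  set T := SS lam u fun x y => inner ℝ x y ^ (2 * m + 2)
  set P := SS lam u fun x y => pd x y * inner ℝ x y ^ (2 * m + 1)
  set Q := SS lam u fun x y => qd x y * inner ℝ x y ^ (2 * m + 1)
  set X := SS lam u fun x y => x 4 * y 4 * inner ℝ x y ^ (2 * m + 1)
  set V := SS lam u fun x y =>
        (mi 0 1 x y ^ 2 + mi 0 4 x y ^ 2 + mi 1 4 x y ^ 2) * inner ℝ x y ^ (2 * m)
  have hT : 0 ≤ T := ss_t lam u (2 * m + 2)
  have hd := dd_pos m
  have hm : (0 : ℝ) ≤ m := Nat.cast_nonneg m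
  have h5 : (2 * (m : ℝ) + 1) * V ≤ 2 * T := by linarith
  have h6 : (m + 1) * V ≤ 2 * T := by
    rcases le_or_gt 0 V with hV | hV
    · nlinarith
    · nlinarith
  have h7 : V ≤ 4 * (1 / (2 * m + 2) * T) := by
    have h8 : 4 * (1 / (2 * (m : ℝ) + 2) * T) = 2 * T / (m + 1) := by
      field_simp
      ring
    rw [h8, le_div_iff₀ (by positivity)]
    linarith
  calc dd m * V ≤ dd m * (4 * (1 / (2 * m + 2) * T)) := mul_le_mul_of_nonneg_left h7 hd.le
    _ = 4 * (dd m / (2 * m + 2) * T) := by ring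

private theorem KNeg_XX (c : ℝ) (m : ℕ) :
    (SS lam u fun x y => XX 1 c x y * inner ℝ x y ^ (2 * m)) =
      (1 - c) * (SS lam u fun x y => XX 1 0 x y * inner ℝ x y ^ (2 * m)) +
        c * (SS lam u fun x y => XX 1 1 x y * inner ℝ x y ^ (2 * m)) -
        c * (1 - c) * SS lam u fun x y =>
          (mi 0 1 x y ^ 2 + mi 0 4 x y ^ 2 + mi 1 4 x y ^ 2) * inner ℝ x y ^ (2 * m) := by
  rw [← ss_mul, ← ss_mul, ← ss_mul, ← ss_add, ← ss_sub]
  refine ss_congr lam u fun i k => ?_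
  unfold XX
  ring

theorem kneg (hu : ∀ i, ‖u i‖ = 1) (hl : ∑ i, lam i = 0) {c : ℝ} (hc : 0 ≤ c) (hc1 : c ≤ 1)
    (K : ℕ) :
    -(∑ m ∈ Finset.range (K + 1), dd m *
        (SS lam u fun x y => XX 1 c x y * inner ℝ x y ^ (2 * m))) ≤
      5 * (∑ m ∈ Finset.range (K + 1), dd m / (2 * m + 2) *
        SS lam u fun x y => inner ℝ x y ^ (2 * m + 2)) + 2 * dd K * (∑ i, |lam i|) ^ 2 := by
  have hA := knegA lam u hu K
  have hB := knegB lam u hu hl K
  rw [Finset.sum_add_distrib, ← Finset.mul_sum] at hA hB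
  have hV : ∑ m ∈ Finset.range (K + 1), dd m * (SS lam u fun x y =>
        (mi 0 1 x y ^ 2 + mi 0 4 x y ^ 2 + mi 1 4 x y ^ 2) * inner ℝ x y ^ (2 * m)) ≤
      4 * ∑ m ∈ Finset.range (K + 1), dd m / (2 * m + 2) *
        SS lam u fun x y => inner ℝ x y ^ (2 * m + 2) := by
    rw [Finset.mul_sum]
    exact Finset.sum_le_sum fun m _ => KNeg_V lam u m
  have hX : ∑ m ∈ Finset.range (K + 1), dd m *
        (SS lam u fun x y => XX 1 c x y * inner ℝ x y ^ (2 * m)) =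
      (1 - c) * (∑ m ∈ Finset.range (K + 1), dd m *
        (SS lam u fun x y => XX 1 0 x y * inner ℝ x y ^ (2 * m))) +
      c * (∑ m ∈ Finset.range (K + 1), dd m *
        (SS lam u fun x y => XX 1 1 x y * inner ℝ x y ^ (2 * m))) -
      c * (1 - c) * ∑ m ∈ Finset.range (K + 1), dd m * (SS lam u fun x y =>
        (mi 0 1 x y ^ 2 + mi 0 4 x y ^ 2 + mi 1 4 x y ^ 2) * inner ℝ x y ^ (2 * m)) := by
    rw [Finset.mul_sum, Finset.mul_sum, Finset.mul_sum, ← Finset.sum_add_distrib,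
      ← Finset.sum_sub_distrib]
    refine Finset.sum_congr rfl fun m _ => ?_
    rw [KNeg_XX lam u c m]
    ring
  rw [hX]
  have hW : 0 ≤ ∑ m ∈ Finset.range (K + 1), dd m / (2 * m + 2) *
        SS lam u fun x y => inner ℝ x y ^ (2 * m + 2) := by
    refine Finset.sum_nonneg fun m _ => mul_nonneg ?_ (ss_t lam u (2 * m + 2))
    have := dd_pos m
    positivity
  have hL : 0 ≤ dd K * (∑ i, |lam i|) ^ 2 := mul_nonneg (dd_pos K).le (sq_nonneg _)
  set W := ∑ m ∈ Finset.range (K + 1), dd m / (2 * m + 2) *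
        SS lam u fun x y => inner ℝ x y ^ (2 * m + 2)
  set A := ∑ m ∈ Finset.range (K + 1), dd m *
        (SS lam u fun x y => XX 1 0 x y * inner ℝ x y ^ (2 * m))
  set B := ∑ m ∈ Finset.range (K + 1), dd m *
        (SS lam u fun x y => XX 1 1 x y * inner ℝ x y ^ (2 * m))
  set V := ∑ m ∈ Finset.range (K + 1), dd m * (SS lam u fun x y =>
        (mi 0 1 x y ^ 2 + mi 0 4 x y ^ 2 + mi 1 4 x y ^ 2) * inner ℝ x y ^ (2 * m))
  set D := dd K * (∑ i, |lam i|) ^ 2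
  have hA' : -(2 * D) ≤ 3 * W + A := by
    have e : 2 * dd K * (∑ i, |lam i|) ^ 2 = 2 * D := by ring
    rw [← e]
    exact hA
  have hB' : -D ≤ 4 * W + B := hB
  have e2 : 2 * dd K * (∑ i, |lam i|) ^ 2 = 2 * D := by ring
  rw [e2]
  have h1 := mul_le_mul_of_nonneg_left hA' (sub_nonneg.2 hc1)
  have h2 := mul_le_mul_of_nonneg_left hB' hc
  have h3 := mul_le_mul_of_nonneg_left hV (mul_nonneg hc (sub_nonneg.2 hc1))
  have h4 : 0 ≤ (2 - 5 * c + 4 * c ^ 2) * W := by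
    refine mul_nonneg ?_ hW
    nlinarith [sq_nonneg (2 * c - 5 / 4)]
  have h5 := mul_nonneg hc hL
  nlinarith [h1, h2, h3, h4, h5]

end Pool.Agent.H85.C3
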