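import Mathlib
import Pool.Agent.H85.C3.KL
import Pool.Agent.H85.C3.KSym
import Pool.Agent.H35.T3.CndB

set_option autoImplicit false

/-!
# KPos: the finite inequality for `b = 1/3`

`XX 1 c = τ² + c² (x4² + y4² - 2 x4 y4 t) + (1 - c²) Z` for unit vectors, `τ = mi 2 3 + c mi 0 1`,
`Z = mi 2 4 ^2 + mi 3 4 ^2`.  With `x0, x1, x2` of `H35/T3/CndB.lean` (`a i = u i 4`,
`s i k = pd + qd`), `w_m = dd m / (2m+2)`, `Q_m = SS qd t^(2m+1)`:
`(2m+2) SS τ² t^(2m) ≤ ((2m+2)/(2m+1)) (c² (x0 - x1) m + (1 - c²) Q_m)` (`l1_tau`,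
`SS pd t^(2m+1) = x0 m - x1 m - Q_m`), so the claim follows from `c² * (I1) + (1 - c²) * (I2)`:
(I1) `CndB_fin` with `T m = (x0 m - x1 m)/(2m+1)`; the terms `c² (x4² + y4²)` of degree `m + 1` give
the `x2` terms: `dd (m+1) = w_m (2m+1)` (see the end of `cnd3`), degree `0` vanishes as `∑ lam = 0`.
(I2) `3 x0 m - ((2m+2)/(2m+1)) Q_m - (2m+2) SS Z t^(2m) ≥ 0`: for `m = 0` `ksym_pos`, for `m ≥ 1` by
`l1_Z`: `≥ 3 x0 - 2 ((2m+2)/(2m+1)) (Q_m + x1 m) ≥ (3 - 2 (2m+2)/(2m+1)) x0 ≥ 0` as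
`x0 m = SS pd t^(2m+1) + Q_m + x1 m`.
-/

open Pool.Agent.H35.T3 Pool.Agent.H89.CZ

noncomputable section

namespace Pool.Agent.H85.C3

variable {ι : Type*} [Fintype ι] (lam : ι → ℝ) (u : ι → V5)

private theorem KPos_norm {x : V5} (hx : ‖x‖ = 1) :
    x 0 ^ 2 + x 1 ^ 2 + x 2 ^ 2 + x 3 ^ 2 + x 4 ^ 2 = 1 := by
  have h := real_inner_self_eq_norm_sq x
  rw [inner_eq, hx] at h
  unfold pd qd at h
  linarith

private theorem KPos_XX (c : ℝ) {x y : V5} (hx : ‖x‖ = 1) (hy : ‖y‖ = 1) :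
    XX 1 c x y = (mi 2 3 x y + c * mi 0 1 x y) ^ 2 +
      (c ^ 2 * (x 4 ^ 2) + c ^ 2 * (y 4 ^ 2) - 2 * c ^ 2 * (x 4 * y 4 * inner ℝ x y)) +
      (1 - c ^ 2) * (mi 2 4 x y ^ 2 + mi 3 4 x y ^ 2) := by
  have h1 := KPos_norm hx
  have h2 := KPos_norm hy
  rw [inner_eq]
  unfold XX mi pd qd
  linear_combination (c ^ 2 * y 4 ^ 2) * h1 + (c ^ 2 * x 4 ^ 2) * h2

private theorem KPos_swap (m : ℕ) :
    (SS lam u fun x y => y 4 ^ 2 * inner ℝ x y ^ m) =
      SS lam u fun x y => x 4 ^ 2 * inner ℝ x y ^ m := by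
  unfold SS
  rw [Finset.sum_comm]
  refine Finset.sum_congr rfl fun i _ => Finset.sum_congr rfl fun k _ => ?_
  change lam k * lam i * (u i 4 ^ 2 * inner ℝ (u k) (u i) ^ m) =
    lam i * lam k * (u i 4 ^ 2 * inner ℝ (u i) (u k) ^ m)
  rw [real_inner_comm (u i) (u k)]
  ring

private theorem KPos_expand (hu : ∀ i, ‖u i‖ = 1) (c : ℝ) (m : ℕ) :
    (SS lam u fun x y => XX 1 c x y * inner ℝ x y ^ (2 * m)) =
      (SS lam u fun x y => (mi 2 3 x y + c * mi 0 1 x y) ^ 2 * inner ℝ x y ^ (2 * m)) +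
      c ^ 2 * (2 * (SS lam u fun x y => x 4 ^ 2 * inner ℝ x y ^ (2 * m)) -
        2 * SS lam u fun x y => x 4 * y 4 * inner ℝ x y ^ (2 * m + 1)) +
      (1 - c ^ 2) *
        SS lam u fun x y => (mi 2 4 x y ^ 2 + mi 3 4 x y ^ 2) * inner ℝ x y ^ (2 * m) := by
  have h1 : (SS lam u fun x y => XX 1 c x y * inner ℝ x y ^ (2 * m)) =
      SS lam u fun x y => ((mi 2 3 x y + c * mi 0 1 x y) ^ 2 * inner ℝ x y ^ (2 * m) +
        ((c ^ 2 * (x 4 ^ 2 * inner ℝ x y ^ (2 * m)) +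
          c ^ 2 * (y 4 ^ 2 * inner ℝ x y ^ (2 * m))) -
          2 * c ^ 2 * (x 4 * y 4 * inner ℝ x y ^ (2 * m + 1)))) +
        (1 - c ^ 2) * ((mi 2 4 x y ^ 2 + mi 3 4 x y ^ 2) * inner ℝ x y ^ (2 * m)) := by
    refine ss_congr lam u fun i k => ?_
    rw [KPos_XX c (hu i) (hu k)]
    ring
  rw [h1]
  simp only [ss_add, ss_sub, ss_mul]
  rw [KPos_swap]
  ring

theorem kpos (hu : ∀ i, ‖u i‖ = 1) (hl : ∑ i, lam i = 0) {c : ℝ} (hc : 0 ≤ c) (hc1 : c ≤ 1)
    (K : ℕ) :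
    ∑ m ∈ Finset.range (K + 1), dd m * (SS lam u fun x y => XX 1 c x y * inner ℝ x y ^ (2 * m)) ≤
      3 * ∑ m ∈ Finset.range (K + 1), dd m / (2 * m + 2) *
        SS lam u fun x y => inner ℝ x y ^ (2 * m + 2) := by
  set a : ι → ℝ := fun i => u i 4 with ha
  set s : ι → ι → ℝ := fun i k => pd (u i) (u k) + qd (u i) (u k) with hs
  have hsum : ∀ i k, a i * a k + s i k = (inner ℝ (u i) (u k) : ℝ) := by
    intro i k
    rw [inner_eq]
    simp only [ha, hs]
    ring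
  have hsym : ∀ i k, s i k = s k i := by
    intro i k
    simp only [hs, pd, qd]
    ring
  have hps : ∀ l, ∀ d : ι → ℝ, 0 ≤ ∑ i, ∑ k, d i * d k * s i k ^ l := by
    intro l d
    set v : ι → V5 := fun i => WithLp.toLp 2 ![u i 0, u i 1, u i 2, u i 3, 0] with hv
    have h1 : ∀ i k, (inner ℝ (v i) (v k) : ℝ) = s i k := by
      intro i k
      rw [inner_eq]
      simp [hv, hs, pd, qd]
    refine (psd_pow v l d).trans (le_of_eq ?_)
    simp only [h1]
  have e0 : ∀ m, x0 lam a s m = SS lam u fun x y => inner ℝ x y ^ (2 * m + 2) := by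
    intro m
    simp only [x0, hsum]
    rfl
  have e1 : ∀ m, x1 lam a s m = SS lam u fun x y => x 4 * y 4 * inner ℝ x y ^ (2 * m + 1) := by
    intro m
    simp only [x1, hsum]
    simp only [SS, ha]
    refine Finset.sum_congr rfl fun i _ => Finset.sum_congr rfl fun k _ => ?_
    ring
  set S' : ℕ → ℝ := fun m => SS lam u fun x y => x 4 ^ 2 * inner ℝ x y ^ (2 * m) with hS'
  have e2 : ∀ m, S' (m + 1) = x2 lam a s m := by
    intro m
    simp only [x2, hsum]
    simp only [hS', SS, ha]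
    refine Finset.sum_congr rfl fun i _ => Finset.sum_congr rfl fun k _ => ?_
    ring
  have hS0 : S' 0 = 0 := by
    have h2 : S' 0 = (∑ i, lam i * a i ^ 2) * ∑ k, lam k := by
      rw [Finset.sum_mul_sum]
      simp only [hS', SS, ha]
      refine Finset.sum_congr rfl fun i _ => Finset.sum_congr rfl fun k _ => ?_
      ring
    rw [h2, hl, mul_zero]
  set Q : ℕ → ℝ := fun m => SS lam u fun x y => qd x y * inner ℝ x y ^ (2 * m + 1) with hQ
  set P : ℕ → ℝ := fun m => SS lam u fun x y => pd x y * inner ℝ x y ^ (2 * m + 1) with hP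
  set Z : ℕ → ℝ := fun m =>
    SS lam u fun x y => (mi 2 4 x y ^ 2 + mi 3 4 x y ^ 2) * inner ℝ x y ^ (2 * m) with hZ
  set A : ℕ → ℝ := fun m =>
    SS lam u fun x y => (mi 2 3 x y + c * mi 0 1 x y) ^ 2 * inner ℝ x y ^ (2 * m) with hA
  have hPQ : ∀ m, x0 lam a s m = P m + Q m + x1 lam a s m := by
    intro m
    rw [e0, e1]
    simp only [hP, hQ]
    rw [← ss_add, ← ss_add]
    refine ss_congr lam u fun i k => ?_
    have h1 := inner_eq (u i) (u k)
    change (inner ℝ (u i) (u k) : ℝ) ^ (2 * m + 2) =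
      pd (u i) (u k) * inner ℝ (u i) (u k) ^ (2 * m + 1) +
        qd (u i) (u k) * inner ℝ (u i) (u k) ^ (2 * m + 1) +
        u i 4 * u k 4 * inner ℝ (u i) (u k) ^ (2 * m + 1)
    linear_combination ((inner ℝ (u i) (u k) : ℝ) ^ (2 * m + 1)) * h1
  have hP0 : ∀ m, 0 ≤ P m := by
    intro m
    have h1 := ss_coord lam u 0 (2 * m + 1)
    have h2 := ss_coord lam u 1 (2 * m + 1)
    have h3 : P m = (SS lam u fun x y => x 0 * y 0 * inner ℝ x y ^ (2 * m + 1)) +
        SS lam u fun x y => x 1 * y 1 * inner ℝ x y ^ (2 * m + 1) := by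
      rw [← ss_add]
      simp only [hP]
      refine ss_congr lam u fun i k => ?_
      unfold pd
      ring
    rw [h3]
    exact add_nonneg h1 h2
  have hx00 : ∀ m, 0 ≤ x0 lam a s m := by
    intro m
    rw [e0]
    exact ss_t lam u _
  have hcc : 0 ≤ c ^ 2 := sq_nonneg c
  have hcc1 : 0 ≤ 1 - c ^ 2 := by nlinarith
  -- the second inequality
  have I2 : ∀ m : ℕ, 0 ≤ 3 * x0 lam a s m - (2 * m + 2) / (2 * m + 1) * Q m -
      (2 * m + 2) * Z m := by
    intro m
    rcases Nat.eq_zero_or_pos m with hm | hm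
    · subst hm
      have h1 := ksym_pos lam u hu hl
      have h2 : (SS lam u fun x y => 3 * inner ℝ x y ^ 2 - 2 * (qd x y * inner ℝ x y) -
          2 * (mi 2 4 x y ^ 2 + mi 3 4 x y ^ 2)) = 3 * x0 lam a s 0 - 2 * Q 0 - 2 * Z 0 := by
        rw [e0]
        simp only [hQ, hZ]
        rw [← ss_mul, ← ss_mul, ← ss_mul, ← ss_sub, ← ss_sub]
        refine ss_congr lam u fun i k => ?_
        simp
      rw [h2] at h1
      refine h1.trans (le_of_eq ?_)
      push_cast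
      ring
    · have hm1 : (1 : ℝ) ≤ m := by exact_mod_cast hm
      have h1 : (2 * (m : ℝ) + 1) * Z m ≤ Q m + 2 * x1 lam a s m := by
        have := l1_Z lam u m
        rw [e1]
        exact this
      have hr : (2 * (m : ℝ) + 2) / (2 * m + 1) ≤ 4 / 3 := by
        rw [div_le_div_iff₀ (by positivity) (by norm_num)]
        linarith
      have hr0 : (0 : ℝ) ≤ (2 * (m : ℝ) + 2) / (2 * m + 1) := by positivity
      have h2 : (2 * (m : ℝ) + 2) * Z m ≤ (2 * m + 2) / (2 * m + 1) * (Q m + 2 * x1 lam a s m) := by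
        have h3 : (2 * (m : ℝ) + 2) * Z m = (2 * m + 2) / (2 * m + 1) * ((2 * m + 1) * Z m) := by
          field_simp
        rw [h3]
        exact mul_le_mul_of_nonneg_left h1 hr0
      have h3 : Q m + x1 lam a s m ≤ x0 lam a s m := by
        have := hPQ m
        have := hP0 m
        linarith
      have h4 := mul_le_mul_of_nonneg_left h3 hr0
      have h5 := mul_le_mul_of_nonneg_right hr (hx00 m)
      have h6 := hx00 m
      nlinarith
  -- the first inequality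
  set T : ℕ → ℝ := fun m => (x0 lam a s m - x1 lam a s m) / (2 * m + 1) with hT
  have hTm : ∀ m : ℕ, (2 * m + 1) * T m = x0 lam a s m - x1 lam a s m := by
    intro m
    simp only [hT]
    have : (2 * (m : ℝ) + 1) ≠ 0 := by positivity
    field_simp
  have I1 := CndB_fin hsym hps lam a T (fun m => (hTm m).le) K
  have h3 : ∑ m ∈ Finset.range (K + 1), dd m * (2 * S' m) =
      ∑ m ∈ Finset.range K, dd m / (2 * m + 2) * (2 * ((2 * m + 1) * x2 lam a s m)) := by
    rw [Finset.sum_range_succ', hS0, mul_zero, mul_zero, add_zero]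
    refine Finset.sum_congr rfl fun m _ => ?_
    rw [e2, dd_succ]
    ring
  rw [← h3, ← Finset.sum_sub_distrib] at I1
  -- termwise
  have hterm : ∀ m ∈ Finset.range (K + 1),
      c ^ 2 * (dd m / (2 * m + 2) * (3 * x0 lam a s m + 2 * ((2 * m + 2) * x1 lam a s m) -
        (2 * m + 2) * T m) - dd m * (2 * S' m)) ≤
      3 * (dd m / (2 * m + 2) * x0 lam a s m) -
        dd m * (SS lam u fun x y => XX 1 c x y * inner ℝ x y ^ (2 * m)) := by
    intro m _
    rw [KPos_expand lam u hu c m, ← e1 m]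
    change _ ≤ _ - dd m * (A m + c ^ 2 * (2 * S' m - 2 * x1 lam a s m) + (1 - c ^ 2) * Z m)
    have hw := CndB_w m
    have hdd : dd m = dd m / (2 * m + 2) * (2 * m + 2) := by
      have : (2 * (m : ℝ) + 2) ≠ 0 := by positivity
      field_simp
    set w := dd m / (2 * (m : ℝ) + 2) with hwd
    rw [hdd]
    have h4 : (2 * (m : ℝ) + 1) * A m ≤ c ^ 2 * P m + Q m := l1_tau lam u c m
    have hr0 : (0 : ℝ) ≤ (2 * (m : ℝ) + 2) / (2 * m + 1) := by positivity
    have h5 : (2 * (m : ℝ) + 2) * A m ≤ (2 * m + 2) / (2 * m + 1) * (c ^ 2 * P m + Q m) := by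
      have h6 : (2 * (m : ℝ) + 2) * A m = (2 * m + 2) / (2 * m + 1) * ((2 * m + 1) * A m) := by
        field_simp
      rw [h6]
      exact mul_le_mul_of_nonneg_left h4 hr0
    have h7 := mul_le_mul_of_nonneg_left h5 hw.le
    have h8 := mul_nonneg hcc1 (mul_nonneg hw.le (I2 m))
    have h9 : (2 * (m : ℝ) + 2) * T m = (2 * m + 2) / (2 * m + 1) * (P m + Q m) := by
      have h10 : T m = (P m + Q m) / (2 * m + 1) := by
        simp only [hT]
        rw [hPQ m]
        congr 1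
        ring
      rw [h10]
      ring
    rw [h9]
    nlinarith
  have hfin := Finset.sum_le_sum hterm
  have h12 : ∑ m ∈ Finset.range (K + 1), (3 * (dd m / (2 * m + 2) * x0 lam a s m) -
      dd m * (SS lam u fun x y => XX 1 c x y * inner ℝ x y ^ (2 * m))) =
      3 * (∑ m ∈ Finset.range (K + 1), dd m / (2 * m + 2) * x0 lam a s m) -
      ∑ m ∈ Finset.range (K + 1),
        dd m * (SS lam u fun x y => XX 1 c x y * inner ℝ x y ^ (2 * m)) := by
    rw [Finset.sum_sub_distrib, ← Finset.mul_sum]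
  rw [← Finset.mul_sum, h12] at hfin
  have h10 := mul_nonneg hcc I1
  have h11 : ∑ m ∈ Finset.range (K + 1), dd m / (2 * m + 2) *
      (SS lam u fun x y => inner ℝ x y ^ (2 * m + 2)) =
      ∑ m ∈ Finset.range (K + 1), dd m / (2 * m + 2) * x0 lam a s m := by
    refine Finset.sum_congr rfl fun m _ => ?_
    rw [e0]
  rw [h11]
  linarith

end Pool.Agent.H85.C3
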