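import Mathlib
import Pool.Agent.H85.C3.KPos
import Pool.Agent.H85.C3.KNeg

set_option autoImplicit false

/-!
# Cnd5: the kernel inequality for unit vectors

As the end of `cnd3` (`H35/T3/Cnd3.lean`): for unit vectors `ar5 = √(1 - t²)`,
`K5 b c = lim_K (1 - ∑_{m ≤ K} dd m/(2m+2) t^(2m+2) + b XX ∑_{m ≤ K} dd m t^(2m))` (for `|t| = 1`:
`XX ≤ ar5² = 0`, `xx_le_ar`), `∑ lam lam' * 1 = 0`.  For `b ≥ 0` by `kpos` (`3 b ≤ 1`,
`∑ w_m SS t^(2m+2) ≥ 0`), for `b ≤ 0` by `kneg` (`5 (-b) ≤ 1`) and `dd K → 0` (`dd_tendsto`).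
-/

open Pool.Agent.H35.T3 Pool.Agent.H89.CZ

noncomputable section

namespace Pool.Agent.H85.C3

theorem ar5_sq (x y : V5) : ar5 x y ^ 2 = ‖x‖ ^ 2 * ‖y‖ ^ 2 - (inner ℝ x y) ^ 2 := by
  unfold ar5
  refine Real.sq_sqrt ?_
  have h := abs_real_inner_le_norm x y
  have h1 : (inner ℝ x y : ℝ) ^ 2 ≤ (‖x‖ * ‖y‖) ^ 2 := by
    rw [← sq_abs]
    exact pow_le_pow_left₀ (abs_nonneg _) h 2
  rw [mul_pow] at h1
  linarith

private theorem Cnd5_lag (x y : V5) : ar5 x y ^ 2 =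
    mi 0 1 x y ^ 2 + mi 0 2 x y ^ 2 + mi 0 3 x y ^ 2 + mi 0 4 x y ^ 2 + mi 1 2 x y ^ 2 +
      mi 1 3 x y ^ 2 + mi 1 4 x y ^ 2 + mi 2 3 x y ^ 2 + mi 2 4 x y ^ 2 + mi 3 4 x y ^ 2 := by
  rw [ar5_sq, ← real_inner_self_eq_norm_sq, ← real_inner_self_eq_norm_sq, inner_eq, inner_eq,
    inner_eq]
  unfold pd qd mi
  ring

/-- `(m23 + c m01)² ≤` the six minors of the first four coordinates, as in `KHs_alg`. -/
theorem xx_le_ar {c : ℝ} (hc : 0 ≤ c) (hc1 : c ≤ 1) (x y : V5) : XX 1 c x y ≤ ar5 x y ^ 2 := by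
  rw [Cnd5_lag]
  have hp : mi 0 1 x y * mi 2 3 x y = mi 0 2 x y * mi 1 3 x y - mi 0 3 x y * mi 1 2 x y := by
    unfold mi
    ring
  unfold XX
  have h1 : 0 ≤ 1 - c ^ 2 := by nlinarith
  have h2 : 0 ≤ 1 - c := by linarith
  have h3 := mul_nonneg h1 (sq_nonneg (mi 0 1 x y))
  have h4 := mul_nonneg h1 (add_nonneg (sq_nonneg (mi 0 4 x y)) (sq_nonneg (mi 1 4 x y)))
  have h5 := mul_nonneg h2 (add_nonneg (add_nonneg (sq_nonneg (mi 0 2 x y))
    (sq_nonneg (mi 1 3 x y))) (add_nonneg (sq_nonneg (mi 0 3 x y)) (sq_nonneg (mi 1 2 x y))))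
  have h6 := mul_nonneg hc (add_nonneg (sq_nonneg (mi 0 2 x y - mi 1 3 x y))
    (sq_nonneg (mi 0 3 x y + mi 1 2 x y)))
  linear_combination h3 + h4 + h5 + h6 + 2 * c * hp

private theorem Cnd5_XX_nonneg (c : ℝ) (x y : V5) : 0 ≤ XX 1 c x y := by
  unfold XX
  positivity

private theorem Cnd5_lim {t T b : ℝ} (ht : |t| ≤ 1) (hT : |t| = 1 → T = 0) :
    Filter.Tendsto (fun K : ℕ => 1 - ∑ m ∈ Finset.range (K + 1), dd m / (2 * m + 2) *
      t ^ (2 * m + 2) + b * (T * ∑ m ∈ Finset.range (K + 1), dd m * t ^ (2 * m)))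
      Filter.atTop (nhds (√(1 - t ^ 2) + b * (T / √(1 - t ^ 2)))) := by
  have h1 := (hasSum_sqrt ht).tendsto_sum_nat.comp (Filter.tendsto_add_atTop_nat 1)
  have h2 := (tendsto_const_nhds (x := (1 : ℝ)) (f := Filter.atTop (α := ℕ))).sub h1
  have h3 : (1 : ℝ) - (1 - √(1 - t ^ 2)) = √(1 - t ^ 2) := by ring
  rw [h3] at h2
  refine h2.add ?_
  rcases ht.lt_or_eq with hlt | heq
  · have h4 := (hasSum_inv_sqrt hlt).tendsto_sum_nat.comp (Filter.tendsto_add_atTop_nat 1)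
    have h5 := (h4.const_mul T).const_mul b
    rw [mul_one_div] at h5
    exact h5
  · rw [hT heq]
    simp

theorem cnd5 {ι : Type*} [Fintype ι] (u : ι → V5) (hu : ∀ i, ‖u i‖ = 1) {b c : ℝ}
    (hb : -(1 / 5) ≤ b) (hb1 : b ≤ 1 / 3) (hc : 0 ≤ c) (hc1 : c ≤ 1) (lam : ι → ℝ)
    (hl : ∑ i, lam i = 0) : ∑ i, ∑ j, lam i * lam j * K5 b c (u i) (u j) ≤ 0 := by
  set t : ι → ι → ℝ := fun i k => (inner ℝ (u i) (u k) : ℝ) with ht
  set T : ι → ι → ℝ := fun i k => XX 1 c (u i) (u k) with hT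
  have htle : ∀ i k, |t i k| ≤ 1 := by
    intro i k
    have := abs_real_inner_le_norm (u i) (u k)
    rwa [hu, hu, one_mul] at this
  have har : ∀ i k, ar5 (u i) (u k) = √(1 - t i k ^ 2) := by
    intro i k
    unfold ar5
    rw [hu, hu]
    norm_num [ht]
  have hK : ∀ i k, K5 b c (u i) (u k) = √(1 - t i k ^ 2) + b * (T i k / √(1 - t i k ^ 2)) := by
    intro i k
    unfold K5
    rw [har]
  have hT0 : ∀ i k, |t i k| = 1 → T i k = 0 := by
    intro i k h2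
    have h3 : t i k ^ 2 = 1 := by rw [← sq_abs, h2, one_pow]
    have h4 := xx_le_ar hc hc1 (u i) (u k)
    rw [har, h3, sub_self, Real.sqrt_zero, zero_pow (by norm_num)] at h4
    exact le_antisymm h4 (Cnd5_XX_nonneg c _ _)
  have hlim : Filter.Tendsto (fun K : ℕ => ∑ i, ∑ k, lam i * lam k *
      (1 - ∑ m ∈ Finset.range (K + 1), dd m / (2 * m + 2) * t i k ^ (2 * m + 2) +
        b * (T i k * ∑ m ∈ Finset.range (K + 1), dd m * t i k ^ (2 * m))))
      Filter.atTop (nhds (∑ i, ∑ k, lam i * lam k * K5 b c (u i) (u k))) := by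
    refine tendsto_finsetSum _ fun i _ => tendsto_finsetSum _ fun k _ => ?_
    rw [hK]
    exact (Cnd5_lim (htle i k) (hT0 i k)).const_mul _
  set X : ℕ → ℝ := fun K => ∑ m ∈ Finset.range (K + 1), dd m / (2 * m + 2) *
    SS lam u fun x y => inner ℝ x y ^ (2 * m + 2) with hX
  set R : ℕ → ℝ := fun K => ∑ m ∈ Finset.range (K + 1), dd m *
    (SS lam u fun x y => XX 1 c x y * inner ℝ x y ^ (2 * m)) with hR
  have hX0 : ∀ K, 0 ≤ X K := fun K =>
    Finset.sum_nonneg fun m _ => mul_nonneg (CndB_w m).le (ss_t lam u _)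
  have hF : ∀ K : ℕ, ∑ i, ∑ k, lam i * lam k *
      (1 - ∑ m ∈ Finset.range (K + 1), dd m / (2 * m + 2) * t i k ^ (2 * m + 2) +
        b * (T i k * ∑ m ∈ Finset.range (K + 1), dd m * t i k ^ (2 * m))) =
      -X K + b * R K := by
    intro K
    have e1 : ∑ i, ∑ k, lam i * lam k * ∑ m ∈ Finset.range (K + 1),
        dd m / (2 * m + 2) * t i k ^ (2 * m + 2) = X K := by
      rw [CndB_sum3 (Finset.range (K + 1)) (fun i k => lam i * lam k)
        (fun m i k => t i k ^ (2 * m + 2)) (fun m => dd m / (2 * m + 2))]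
      rfl
    have e2 : ∑ i, ∑ k, lam i * lam k * (T i k * ∑ m ∈ Finset.range (K + 1),
        dd m * t i k ^ (2 * m)) = R K := by
      have e3 : ∀ i k, lam i * lam k * (T i k * ∑ m ∈ Finset.range (K + 1),
        dd m * t i k ^ (2 * m)) = (lam i * lam k * T i k) * ∑ m ∈ Finset.range (K + 1),
        dd m * t i k ^ (2 * m) := fun i k => by ring
      simp only [e3]
      rw [CndB_sum3 (Finset.range (K + 1)) (fun i k => lam i * lam k * T i k)
        (fun m i k => t i k ^ (2 * m)) dd]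
      refine Finset.sum_congr rfl fun m _ => ?_
      congr 1
      unfold SS
      refine Finset.sum_congr rfl fun i _ => Finset.sum_congr rfl fun k _ => ?_
      simp only [hT, ht]
      ring
    have e7 : ∑ i, ∑ k, lam i * lam k *
      (1 - ∑ m ∈ Finset.range (K + 1), dd m / (2 * m + 2) * t i k ^ (2 * m + 2) +
        b * (T i k * ∑ m ∈ Finset.range (K + 1), dd m * t i k ^ (2 * m))) =
      (∑ i, ∑ k, lam i * lam k) -
        (∑ i, ∑ k, lam i * lam k * ∑ m ∈ Finset.range (K + 1),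
        dd m / (2 * m + 2) * t i k ^ (2 * m + 2)) +
        b * (∑ i, ∑ k, lam i * lam k * (T i k * ∑ m ∈ Finset.range (K + 1),
        dd m * t i k ^ (2 * m))) := by
      rw [Finset.mul_sum _ _ b, ← Finset.sum_sub_distrib, ← Finset.sum_add_distrib]
      refine Finset.sum_congr rfl fun i _ => ?_
      rw [Finset.mul_sum _ _ b, ← Finset.sum_sub_distrib, ← Finset.sum_add_distrib]
      refine Finset.sum_congr rfl fun k _ => ?_
      ring
    have e8 : ∑ i, ∑ k, lam i * lam k = 0 := by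
      rw [← Finset.sum_mul_sum, hl, zero_mul]
    rw [e7, e1, e2, e8]
    ring
  simp only [hF] at hlim
  rcases le_total 0 b with h0 | h0
  · refine le_of_tendsto hlim (Filter.Eventually.of_forall fun K => ?_)
    have h2 : R K ≤ 3 * X K := kpos lam u hu hl hc hc1 K
    have h3 := mul_le_mul_of_nonneg_left h2 h0
    have h4 := hX0 K
    nlinarith
  · have h5 : Filter.Tendsto (fun K : ℕ => 2 / 5 * dd K * (∑ i, |lam i|) ^ 2) Filter.atTop
        (nhds 0) := by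
      have h6 := (dd_tendsto.const_mul (2 / 5 : ℝ)).mul_const ((∑ i, |lam i|) ^ 2)
      simpa using h6
    refine le_of_tendsto_of_tendsto' hlim h5 fun K => ?_
    have h2 : -R K ≤ 5 * X K + 2 * dd K * (∑ i, |lam i|) ^ 2 := kneg lam u hu hl hc hc1 K
    have h3 : 0 ≤ -b := by linarith
    have h4 := mul_le_mul_of_nonneg_left h2 h3
    have h6 := hX0 K
    have h7 : 0 ≤ dd K * (∑ i, |lam i|) ^ 2 := mul_nonneg (dd_pos K).le (sq_nonneg _)
    have h8 : 0 ≤ 1 / 5 + b := by linarith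
    have h9 := mul_nonneg h8 h6
    have h10 := mul_nonneg h8 h7
    nlinarith

end Pool.Agent.H85.C3
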