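import Mathlib
import Pool.Agent.H85.C3.Cnd5
import Pool.Agent.H89.CZ.KCnd

set_option autoImplicit false

/-!
# Hyp5: the Lorentzian property of `K5`

`K5` is symmetric, `K5 b c (s x) (t y) = s t K5 b c x y` for `s, t ≥ 0`, `K5 ≥ 0` for `b ≥ -1`
(`xx_le_ar`); then `hyperbolic` (`H89/CZ/KCnd.lean`) with `l j = ‖p j‖` and `cnd5`; see `ker_cnd`,
`ker_hyp` there.
-/

open Pool.Agent.H89.CZ

noncomputable section

namespace Pool.Agent.H85.C3

private theorem Hyp5_mi (s t : ℝ) (j k : Fin 5) (x y : V5) :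
    mi j k (s • x) (t • y) = s * t * mi j k x y := by
  simp only [mi, PiLp.smul_apply, smul_eq_mul]
  ring

private theorem Hyp5_XX (s t c1 c2 : ℝ) (x y : V5) :
    XX c1 c2 (s • x) (t • y) = (s * t) ^ 2 * XX c1 c2 x y := by
  simp only [XX, Hyp5_mi]
  ring

private theorem Hyp5_ar {s t : ℝ} (hs : 0 ≤ s) (ht : 0 ≤ t) (x y : V5) :
    ar5 (s • x) (t • y) = s * t * ar5 x y := by
  rw [ar5, ar5, real_inner_smul_left, real_inner_smul_right, norm_smul, norm_smul,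
    Real.norm_eq_abs, Real.norm_eq_abs, abs_of_nonneg hs, abs_of_nonneg ht]
  have h : (s * ‖x‖) ^ 2 * (t * ‖y‖) ^ 2 - (s * (t * inner ℝ x y)) ^ 2 =
      (s * t) ^ 2 * (‖x‖ ^ 2 * ‖y‖ ^ 2 - (inner ℝ x y) ^ 2) := by
    ring
  rw [h, Real.sqrt_mul (sq_nonneg _), Real.sqrt_sq (mul_nonneg hs ht)]

private theorem Hyp5_K5 (b c : ℝ) {s t : ℝ} (hs : 0 ≤ s) (ht : 0 ≤ t) (x y : V5) :
    K5 b c (s • x) (t • y) = s * t * K5 b c x y := by
  rw [K5, K5, Hyp5_ar hs ht, Hyp5_XX]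
  rcases eq_or_ne (s * t) 0 with h | h
  · rw [h]
    simp
  · rw [sq (s * t), mul_assoc (s * t), mul_div_mul_left _ _ h, mul_div_assoc]
    ring

private theorem Hyp5_symm (b c : ℝ) (x y : V5) : K5 b c x y = K5 b c y x := by
  have h1 : ar5 x y = ar5 y x := by
    rw [ar5, ar5, real_inner_comm x y, mul_comm (‖x‖ ^ 2)]
  have h2 : XX 1 c x y = XX 1 c y x := by
    simp only [XX, mi]
    ring
  rw [K5, K5, h1, h2]

private theorem Hyp5_nonneg {b c : ℝ} (hb : -1 ≤ b) (hc : 0 ≤ c) (hc1 : c ≤ 1) (x y : V5) :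
    0 ≤ K5 b c x y := by
  have h := xx_le_ar hc hc1 x y
  have hX : 0 ≤ XX 1 c x y := by
    rw [XX]
    positivity
  have hr : 0 ≤ ar5 x y := Real.sqrt_nonneg _
  rw [K5]
  rcases hr.eq_or_lt with h1 | h1
  · rw [← h1]
    simp
  · have h2 : XX 1 c x y / ar5 x y ≤ ar5 x y := by
      rw [div_le_iff₀ h1, ← sq]
      exact h
    have h3 : 0 ≤ XX 1 c x y / ar5 x y := div_nonneg hX hr
    nlinarith [mul_nonneg (by linarith : (0 : ℝ) ≤ b + 1) h3]

private theorem Hyp5_unit (x : V5) : ∃ e : V5, ‖e‖ = 1 ∧ x = ‖x‖ • e := by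
  rcases eq_or_ne x 0 with h | h
  · refine ⟨EuclideanSpace.single 0 1, by simp, ?_⟩
    rw [h]
    simp
  · have hn : ‖x‖ ≠ 0 := norm_ne_zero_iff.2 h
    refine ⟨‖x‖⁻¹ • x, ?_, ?_⟩
    · rw [norm_smul, norm_inv, norm_norm, inv_mul_cancel₀ hn]
    · rw [smul_smul, mul_inv_cancel₀ hn, one_smul]

theorem ker5_hyp {ι : Type*} [Fintype ι] (p : ι → V5) {b c : ℝ} (hb : -(1 / 5) ≤ b)
    (hb1 : b ≤ 1 / 3) (hc : 0 ≤ c) (hc1 : c ≤ 1) (u w : ι → ℝ) (hw : ∀ j, 0 ≤ w j) :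
    (∑ i, ∑ j, u i * u j * K5 b c (p i) (p j)) *
        (∑ i, ∑ j, w i * w j * K5 b c (p i) (p j)) ≤
      (∑ i, ∑ j, u i * w j * K5 b c (p i) (p j)) ^ 2 := by
  refine hyperbolic (fun i j => K5 b c (p i) (p j)) (fun i j => Hyp5_symm b c _ _)
    (fun j => ‖p j‖) ?_ u w ?_
  · intro v hv
    choose e he hpe using fun j => Hyp5_unit (p j)
    have hs : ∑ i, ∑ j, v i * v j * K5 b c (p i) (p j) =
        ∑ i, ∑ j, (v i * ‖p i‖) * (v j * ‖p j‖) * K5 b c (e i) (e j) := by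
      refine Finset.sum_congr rfl fun i _ => Finset.sum_congr rfl fun j _ => ?_
      have h := Hyp5_K5 b c (norm_nonneg (p i)) (norm_nonneg (p j)) (e i) (e j)
      rw [← hpe i, ← hpe j] at h
      rw [h]
      ring
    simp only [hs]
    exact cnd5 e he hb hb1 hc hc1 (fun j => v j * ‖p j‖) hv
  · refine Finset.sum_nonneg fun i _ => Finset.sum_nonneg fun j _ => ?_
    exact mul_nonneg (mul_nonneg (hw i) (hw j)) (Hyp5_nonneg (by linarith) hc hc1 _ _)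

end Pool.Agent.H85.C3
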