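import Mathlib
import Pool.Agent.H85.C3.GvEq3
import Pool.Agent.H85.C3.Hyp5

set_option autoImplicit false

/-!
# KerE3: the base case

As `H89/CZ/KerE.lean`: `exists_normal5`, `gv3_eq`; `c1 = om (e 0) (e 1) > 0`: `c = c2/c1`,
`b = ((2n-1)x-3)/(6n-9-3x) c1²`, `C = D (6n-9-3x)`; `XX c1 c2 = c1² XX 1 (c2/c1)`.
`-(1/5) ≤ ((2n-1)x-3)/(6n-9-3x) ≤ 1/3` for `0 ≤ x ≤ 1`, `n ≥ 4`.
If `c1 = 0` then `XX = 0`, `b = 0`.
-/

open MeasureTheory Pool.Agent.H61.UProj Pool.Agent.H89.CZ Pool.Agent.H35.T3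
open scoped ENNReal

noncomputable section

namespace Pool.Agent.H85.C3

variable {n k : ℕ}

theorem exists_ker3 (o : OrthonormalBasis (Fin (k + 2 + 3)) ℝ (Cn n)) (hn : 4 ≤ n)
    {a : Fin 3 → Cn n} (ha : Orthonormal ℝ a) (w : Fin k → Cn n) :
    ∃ C b c : ℝ, 0 ≤ C ∧ -(1 / 5) ≤ b ∧ b ≤ 1 / 3 ∧ 0 ≤ c ∧ c ≤ 1 ∧
      ∃ π : Cn n → V5, ∀ u v : Cn n,
        gv3 o a (Fin.cons u (Fin.cons v w : Fin (k + 1) → Cn n) : Fin (k + 2) → Cn n) =
          C * K5 b c (π u) (π v) := by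
  have hdim : k + 5 ≤ 2 * n := by
    have h1 : Module.finrank ℝ (Cn n) = k + 2 + 3 := by
      rw [Module.finrank_eq_card_basis o.toBasis, Fintype.card_fin]
    have h2 : Module.finrank ℝ (Cn n) = 2 * n := by
      rw [finrank_real_of_complex, finrank_euclideanSpace_fin]
    omega
  obtain ⟨e, he, hw, h02, h03, h12, h13, h4, hc0, hc1, hc2⟩ := exists_normal5 hdim w
  obtain ⟨D, hD, hgv⟩ := gv3_eq o (by omega) ha he w hw h02 h03 h12 h13 h4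
  generalize hc1d : om (e 0) (e 1) = c1 at hc1 hc2 hgv
  generalize hc2d : om (e 2) (e 3) = c2 at hc0 hc1 hgv
  have hx0 : 0 ≤ kx a := kx_nonneg a
  have hx1 : kx a ≤ 1 := kx_le_one ha
  generalize kx a = x at hx0 hx1 hgv
  have hn' : (4 : ℝ) ≤ n := by exact_mod_cast hn
  have hP : 0 < 6 * (n : ℝ) - 9 - 3 * x := by linarith
  have hc10 : 0 ≤ c1 := hc0.trans hc1
  have hr1 : -(1 / 5) ≤ ((2 * n - 1) * x - 3) / (6 * (n : ℝ) - 9 - 3 * x) := by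
    rw [le_div_iff₀ hP]
    nlinarith
  have hr2 : ((2 * n - 1) * x - 3) / (6 * (n : ℝ) - 9 - 3 * x) ≤ 1 / 3 := by
    rw [div_le_iff₀ hP]
    nlinarith
  rcases hc10.lt_or_eq with hpos | hzero
  · have h1 : c1 ^ 2 ≤ 1 := by nlinarith
    have h2 : 0 ≤ c1 ^ 2 := sq_nonneg _
    refine ⟨D * (6 * n - 9 - 3 * x),
      ((2 * n - 1) * x - 3) / (6 * (n : ℝ) - 9 - 3 * x) * c1 ^ 2, c2 / c1,
      mul_nonneg hD hP.le, ?_, ?_, div_nonneg hc0 hc10, (div_le_one hpos).mpr hc1, pr5 e,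
      fun u v => ?_⟩
    · generalize ((2 * n - 1) * x - 3) / (6 * (n : ℝ) - 9 - 3 * x) = r at hr1 hr2
      nlinarith
    · generalize ((2 * n - 1) * x - 3) / (6 * (n : ℝ) - 9 - 3 * x) = r at hr1 hr2
      nlinarith
    · rw [hgv]
      have hXX : XX c1 c2 (pr5 e u) (pr5 e v) =
          c1 ^ 2 * XX 1 (c2 / c1) (pr5 e u) (pr5 e v) := by
        unfold XX
        field_simp
      have hQ : (2 * (n : ℝ) - 1) * x - 3 = (6 * (n : ℝ) - 9 - 3 * x) *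
          (((2 * n - 1) * x - 3) / (6 * (n : ℝ) - 9 - 3 * x)) := by
        rw [mul_div_cancel₀ _ hP.ne']
      unfold K5
      rw [hXX]
      generalize ((2 * n - 1) * x - 3) / (6 * (n : ℝ) - 9 - 3 * x) = r at hQ
      rw [hQ]
      ring
  · have hc20 : c2 = 0 := le_antisymm (hc1.trans hzero.symm.le) hc0
    refine ⟨D * (6 * n - 9 - 3 * x), 0, 0, mul_nonneg hD hP.le, by norm_num, by norm_num, le_rfl,
      zero_le_one, pr5 e, fun u v => ?_⟩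
    rw [hgv, hc20, ← hzero]
    unfold K5 XX
    ring

theorem gv3_hyp (o : OrthonormalBasis (Fin (k + 2 + 3)) ℝ (Cn n)) (hn : 4 ≤ n)
    {a : Fin 3 → Cn n} (ha : Orthonormal ℝ a) (w : Fin k → Cn n)
    {ι : Type*} [Fintype ι] (p : ι → Cn n) (u t : ι → ℝ) (ht : ∀ l, 0 ≤ t l) :
    (∑ l, ∑ m, u l * u m * gv3 o a
        (Fin.cons (p l) (Fin.cons (p m) w : Fin (k + 1) → Cn n) : Fin (k + 2) → Cn n)) *
      (∑ l, ∑ m, t l * t m * gv3 o a
        (Fin.cons (p l) (Fin.cons (p m) w : Fin (k + 1) → Cn n) : Fin (k + 2) → Cn n)) ≤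
    (∑ l, ∑ m, u l * t m * gv3 o a
        (Fin.cons (p l) (Fin.cons (p m) w : Fin (k + 1) → Cn n) : Fin (k + 2) → Cn n)) ^ 2 := by
  obtain ⟨C, b, c, hC, hb, hb1, hc, hc1, π, hπ⟩ := exists_ker3 o hn ha w
  have h := ker5_hyp (fun l => π (p l)) hb hb1 hc hc1 u t ht
  have e : ∀ s r : ι → ℝ, ∑ l, ∑ m, s l * r m * gv3 o a
        (Fin.cons (p l) (Fin.cons (p m) w : Fin (k + 1) → Cn n) : Fin (k + 2) → Cn n)
      = C * ∑ l, ∑ m, s l * r m * K5 b c (π (p l)) (π (p m)) := by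
    intro s r
    rw [Finset.mul_sum]
    refine Finset.sum_congr rfl fun l _ => ?_
    rw [Finset.mul_sum]
    refine Finset.sum_congr rfl fun m _ => ?_
    rw [hπ]
    ring
  rw [e, e, e]
  calc C * (∑ l, ∑ m, u l * u m * K5 b c (π (p l)) (π (p m))) *
        (C * ∑ l, ∑ m, t l * t m * K5 b c (π (p l)) (π (p m)))
      = C ^ 2 * ((∑ l, ∑ m, u l * u m * K5 b c (π (p l)) (π (p m))) *
        ∑ l, ∑ m, t l * t m * K5 b c (π (p l)) (π (p m))) := by ring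
    _ ≤ C ^ 2 * (∑ l, ∑ m, u l * t m * K5 b c (π (p l)) (π (p m))) ^ 2 :=
        mul_le_mul_of_nonneg_left h (sq_nonneg C)
    _ = _ := by ring

end Pool.Agent.H85.C3
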