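import Mathlib
import Pool.Agent.H85.C3.KerE3
import Pool.Agent.H85.C3.GAdj3
import Pool.Agent.H89.CZ.ZonBM
import Pool.Agent.H89.CZ.ZI

set_option autoImplicit false

/-!
# BM5: the inequality for zonotopes

Copy of `bm_all`, `bm_VE` (`H89/CZ/ZonBM.lean`) and `bm_zonotope` (`H89/CZ/ZI.lean`) with
`gv3 o a` instead of `gv o (a 0) (a 1)`.
-/

open MeasureTheory Pool.Agent.H61.UProj Pool.Agent.H89.CZ Pool.Agent.H35.T3
open scoped ENNReal Pointwise

noncomputable section

namespace Pool.Agent.H85.C3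

variable {n k : ℕ}

theorem bm_all_c3 (o : OrthonormalBasis (Fin (k + 2 + 3)) ℝ (Cn n)) (hn : 4 ≤ n)
    {a : Fin 3 → Cn n} (ha : Orthonormal ℝ a) {N : ℕ} (v : Fin N → Cn n)
    (lam mu : Fin N → ℝ) (hlam : ∀ l, 0 ≤ lam l) (hmu : ∀ l, 0 ≤ mu l) :
    (PW (k + 2) (fun f : Fin (k + 2) → Fin N => gv3 o a (v ∘ f)) lam) ^
        (1 / ((k : ℝ) + 2)) +
      (PW (k + 2) (fun f : Fin (k + 2) → Fin N => gv3 o a (v ∘ f)) mu) ^
        (1 / ((k : ℝ) + 2)) ≤
      (PW (k + 2) (fun f : Fin (k + 2) → Fin N => gv3 o a (v ∘ f)) (lam + mu)) ^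
        (1 / ((k : ℝ) + 2)) := by
  classical
  set G : (Fin (k + 2) → Fin N) → ℝ := fun f => gv3 o a (v ∘ f) with hG
  have hsym : ∀ (σ : Equiv.Perm (Fin (k + 2))) (f : Fin (k + 2) → Fin N), G (f ∘ σ) = G f := by
    intro σ f
    exact gv3_perm o a σ (v ∘ f)
  have hzero : ∀ f : Fin (k + 2) → Fin N, ¬ Function.Injective f → G f = 0 := by
    intro f hf
    rw [Function.Injective] at hf
    push Not at hf
    obtain ⟨x, y, hxy, hne⟩ := hf
    exact gv3_eq_zero o a (v ∘ f) x y hne (by simp [hxy])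
  rw [ZonBM_PW G hsym hzero, ZonBM_PW G hsym hzero, ZonBM_PW G hsym hzero]
  set κ : Finset (Fin N) → ℝ := ZonBM_kap (k + 2) G with hκ
  have hκ0 : ∀ J, 0 ≤ κ J := by
    intro J
    simp only [hκ, ZonBM_kap]
    split_ifs
    · exact gv3_nonneg _ _ _
    · exact le_rfl
  have hpos : ∀ J : Finset (Fin N), J.card = k + 2 →
      (0 < κ J ↔ LinearIndepOn ℝ v (J : Set (Fin N))) := by
    intro J hJ
    rw [← ZonBM_indep_iff v J hJ]
    simp only [hκ, ZonBM_kap]
    rw [dif_pos hJ]
    constructor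
    · intro h
      by_contra h2
      have := gv3_dep o a (v ∘ J.orderEmbOfFin hJ) h2
      simp only [hG] at h
      rw [this] at h
      exact lt_irrefl _ h
    · intro h
      exact gv3_pos o (by omega) ha h
  have hconn : H85.BMT.Conn (k + 2) κ := H85.BMT.conn_of_indep (k + 2) κ v hpos
  have hbase : ∀ S : Finset (Fin N), S.card + 2 = k + 2 → ∃ m : Fin N → ℝ, ∀ y : Fin N → ℝ,
      ∑ a, m a * y a = 0 →
      ∑ a, ∑ b, (if a ∉ S ∧ b ∉ S ∧ a ≠ b then κ (insert a (insert b S)) else 0)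
        * (y a * y b) ≤ 0 := by
    intro S hS
    have hSk : S.card = k := by omega
    set w : Fin k → Fin N := fun x => S.orderEmbOfFin hSk x with hw
    have hwinj : Function.Injective w := (S.orderEmbOfFin hSk).injective
    have hwmem : ∀ x, w x ∈ S := fun x => Finset.orderEmbOfFin_mem S hSk x
    have hwrange : ∀ j ∈ S, ∃ x, w x = j := by
      intro j hj
      have : j ∈ Set.range (S.orderEmbOfFin hSk) := by
        rw [Finset.range_orderEmbOfFin]; exact hj
      exact this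
    set M : Fin N → Fin N → ℝ := fun l m => gv3 o a
      (Fin.cons (v l) (Fin.cons (v m) (v ∘ w) : Fin (k + 1) → Cn n) : Fin (k + 2) → Cn n) with hM
    have hcomp : ∀ l m, (Fin.cons (v l) (Fin.cons (v m) (v ∘ w) : Fin (k + 1) → Cn n) :
        Fin (k + 2) → Cn n)
        = v ∘ (Fin.cons l (Fin.cons m w : Fin (k + 1) → Fin N) : Fin (k + 2) → Fin N) := by
      intro l m
      funext x
      refine Fin.cases ?_ (fun x => ?_) x
      · simp
      · refine Fin.cases ?_ (fun x => ?_) x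
        · simp
        · simp
    have hMG : ∀ l m, M l m
        = G (Fin.cons l (Fin.cons m w : Fin (k + 1) → Fin N) : Fin (k + 2) → Fin N) := by
      intro l m
      simp only [hM, hG]
      rw [hcomp]
    have hentry : ∀ l m, (if l ∉ S ∧ m ∉ S ∧ l ≠ m then κ (insert l (insert m S)) else 0)
        = M l m := by
      intro l m
      by_cases h : l ∉ S ∧ m ∉ S ∧ l ≠ m
      · rw [if_pos h, hMG]
        refine ZonBM_kap_eq G hsym _ ?_ _ ?_
        · rw [Fin.cons_injective_iff]
          refine ⟨?_, ?_⟩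
          · rintro ⟨x, hx'⟩
            revert hx'
            refine Fin.cases ?_ (fun x => ?_) x
            · intro hx'
              simp only [Fin.cons_zero] at hx'
              exact h.2.2 hx'.symm
            · intro hx'
              simp only [Fin.cons_succ] at hx'
              exact h.1 (hx' ▸ hwmem x)
          · rw [Fin.cons_injective_iff]
            refine ⟨?_, hwinj⟩
            rintro ⟨x, hx'⟩
            exact h.2.1 (hx' ▸ hwmem x)
        · ext j
          simp only [Finset.mem_image, Finset.mem_univ, true_and, Finset.mem_insert]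
          constructor
          · rintro ⟨x, rfl⟩
            refine Fin.cases ?_ (fun x => ?_) x
            · simp
            · refine Fin.cases ?_ (fun x => ?_) x
              · simp
              · simp [hwmem x]
          · rintro (rfl | rfl | hj)
            · exact ⟨0, by simp⟩
            · exact ⟨1, by simp⟩
            · obtain ⟨x, hx'⟩ := hwrange j hj
              exact ⟨x.succ.succ, by simp [hx']⟩
      · rw [if_neg h, hMG]
        symm
        apply hzero
        rw [Fin.cons_injective_iff, Fin.cons_injective_iff]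
        rintro ⟨h1, h2, -⟩
        apply h
        refine ⟨?_, ?_, ?_⟩
        · intro hl
          obtain ⟨x, hx'⟩ := hwrange l hl
          exact h1 ⟨x.succ, by simp [hx']⟩
        · intro hm
          obtain ⟨x, hx'⟩ := hwrange m hm
          exact h2 ⟨x, hx'⟩
        · intro hlm
          exact h1 ⟨0, by simp [hlm]⟩
    simp only [hentry]
    have hM0 : ∀ l m, 0 ≤ M l m := fun l m => gv3_nonneg _ _ _
    have hhyp := gv3_hyp o hn ha (v ∘ w) v
    refine ⟨fun l => ∑ m, M l m, fun y hy => ?_⟩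
    have h1 := hhyp y (fun _ => 1) (fun _ => zero_le_one)
    have hT : ∑ l, ∑ m, (1:ℝ) * 1 * M l m = ∑ l, ∑ m, M l m := by simp
    have hyM : ∑ l, ∑ m, y l * 1 * M l m = 0 := by
      rw [← hy]
      refine Finset.sum_congr rfl fun l _ => ?_
      rw [Finset.sum_mul]
      exact Finset.sum_congr rfl fun m _ => by ring
    change (∑ l, ∑ m, y l * y m * M l m) * (∑ l, ∑ m, (1:ℝ) * 1 * M l m)
      ≤ (∑ l, ∑ m, y l * 1 * M l m) ^ 2 at h1
    rw [hT, hyM] at h1
    have hT0 : 0 ≤ ∑ l, ∑ m, M l m :=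
      Finset.sum_nonneg fun l _ => Finset.sum_nonneg fun m _ => hM0 l m
    have hgoal : ∑ l, ∑ m, M l m * (y l * y m) = ∑ l, ∑ m, y l * y m * M l m :=
      Finset.sum_congr rfl fun l _ => Finset.sum_congr rfl fun m _ => by ring
    rw [hgoal]
    rcases hT0.lt_or_eq with hlt | heq
    · by_contra hcon
      push Not at hcon
      have := mul_pos hcon hlt
      simp only [ne_eq, OfNat.ofNat_ne_zero, not_false_eq_true, zero_pow] at h1
      linarith
    · have hz : ∀ l m, M l m = 0 := by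
        intro l m
        have t1 := (Finset.sum_eq_zero_iff_of_nonneg
          (fun l _ => Finset.sum_nonneg fun m _ => hM0 l m)).mp heq.symm l (Finset.mem_univ l)
        exact (Finset.sum_eq_zero_iff_of_nonneg (fun m _ => hM0 l m)).mp t1 m (Finset.mem_univ m)
      simp [hz]
  have hfin := H85.BMT.superadd (i := k + 2) (κ := κ) (by omega) hκ0 hconn hbase lam mu hlam hmu
  push_cast at hfin
  exact hfin

theorem bm_VE_c3 (o : OrthonormalBasis (Fin (k + 2 + 3)) ℝ (Cn n)) (hn : 4 ≤ n)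
    {a : Fin 3 → Cn n} (ha : Orthonormal ℝ a) (J : Rn (k + 2) →ₗᵢ[ℝ] Cn n)
    (hJ : ∀ y l, inner ℝ (J y) (a l) = 0) {N : ℕ} (v : Fin N → Cn n)
    (lam mu : Fin N → ℝ) (hlam : ∀ l, 0 ≤ lam l) (hmu : ∀ l, 0 ≤ mu l) :
    (VE (LinearMap.range J.toLinearMap) (zon fun j => lam j • v j)) ^ (1 / ((k : ℝ) + 2)) +
      (VE (LinearMap.range J.toLinearMap) (zon fun j => mu j • v j)) ^ (1 / ((k : ℝ) + 2)) ≤
      (VE (LinearMap.range J.toLinearMap)
        (zon (fun j => lam j • v j) + zon (fun j => mu j • v j))) ^ (1 / ((k : ℝ) + 2)) := by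
  have hr : (0 : ℝ) ≤ 1 / ((k : ℝ) + 2) := by positivity
  have hPZ : ∀ nu : Fin N → ℝ, (∀ l, 0 ≤ nu l) →
      PZ (k + 2) (gv3 o a) (fun j => nu j • v j)
        = PW (k + 2) (fun f : Fin (k + 2) → Fin N => gv3 o a (v ∘ f)) nu :=
    fun nu hnu => PZ_smul (k + 2) (gv3 o a) (fun t w => gv3_smul o a t w) v nu hnu
  have hP0 : ∀ nu : Fin N → ℝ, 0 ≤ PZ (k + 2) (gv3 o a) (fun j => nu j • v j) :=
    fun nu => PZ_nonneg (k + 2) _ (fun w => gv3_nonneg _ _ w) _
  rw [zon_add v lam mu hlam hmu, VE_zon_c3 o J ha hJ, VE_zon_c3 o J ha hJ, VE_zon_c3 o J ha hJ,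
    ENNReal.ofReal_rpow_of_nonneg (hP0 lam) hr, ENNReal.ofReal_rpow_of_nonneg (hP0 mu) hr,
    ENNReal.ofReal_rpow_of_nonneg (hP0 fun j => lam j + mu j) hr,
    ← ENNReal.ofReal_add (Real.rpow_nonneg (hP0 lam) _) (Real.rpow_nonneg (hP0 mu) _)]
  apply ENNReal.ofReal_le_ofReal
  rw [hPZ lam hlam, hPZ mu hmu, hPZ (fun j => lam j + mu j) (fun l => add_nonneg (hlam l) (hmu l))]
  exact bm_all_c3 o hn ha v lam mu hlam hmu

/-- a Minkowski sum of translates -/
private theorem BM5_add (c c' : Cn n) (K L : Set (Cn n)) :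
    (fun z => c + z) '' K + (fun z => c' + z) '' L = (fun z => (c + c') + z) '' (K + L) := by
  ext z
  constructor
  · rintro ⟨_, ⟨x, hx, rfl⟩, _, ⟨y, hy, rfl⟩, rfl⟩
    refine ⟨x + y, Set.add_mem_add hx hy, ?_⟩
    show c + c' + (x + y) = c + x + (c' + y)
    abel
  · rintro ⟨_, ⟨x, hx, y, hy, rfl⟩, rfl⟩
    refine ⟨c + x, ⟨x, hx, rfl⟩, c' + y, ⟨y, hy, rfl⟩, ?_⟩
    show c + x + (c' + y) = c + c' + (x + y)
    abel

theorem bm_zonotope_c3 (o : OrthonormalBasis (Fin (k + 2 + 3)) ℝ (Cn n)) (hn : 4 ≤ n)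
    {a : Fin 3 → Cn n} (ha : Orthonormal ℝ a) (J : Rn (k + 2) →ₗᵢ[ℝ] Cn n)
    (hJ : ∀ y l, inner ℝ (J y) (a l) = 0) (Z Z' : Set (Cn n)) (hZ : SD.IsZonotope Z)
    (hZ' : SD.IsZonotope Z') :
    (VE (LinearMap.range J.toLinearMap) Z) ^ (1 / ((k : ℝ) + 2)) +
        (VE (LinearMap.range J.toLinearMap) Z') ^ (1 / ((k : ℝ) + 2)) ≤
      (VE (LinearMap.range J.toLinearMap) (Z + Z')) ^ (1 / ((k : ℝ) + 2)) := by
  rw [isZonotope_iff] at hZ hZ'
  obtain ⟨N, c, v, rfl⟩ := hZ
  obtain ⟨N', c', v', rfl⟩ := hZ'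
  rw [BM5_add, VE_add_const, VE_add_const, VE_add_const]
  have h := bm_VE_c3 o hn ha J hJ (Fin.append v v')
    (Fin.append (fun _ : Fin N => (1 : ℝ)) (fun _ : Fin N' => (0 : ℝ)))
    (Fin.append (fun _ : Fin N => (0 : ℝ)) (fun _ : Fin N' => (1 : ℝ)))
    (fun l => by
      refine Fin.addCases (fun l => ?_) (fun l => ?_) l
      · rw [Fin.append_left]; exact zero_le_one
      · rw [Fin.append_right])
    (fun l => by
      refine Fin.addCases (fun l => ?_) (fun l => ?_) l
      · rw [Fin.append_left]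
      · rw [Fin.append_right]; exact zero_le_one)
  have h1 : (fun j => (Fin.append (fun _ : Fin N => (1 : ℝ)) (fun _ : Fin N' => (0 : ℝ))) j •
      (Fin.append v v') j) = Fin.append v (fun _ : Fin N' => (0 : Cn n)) := by
    funext l
    refine Fin.addCases (fun l => ?_) (fun l => ?_) l
    · rw [Fin.append_left, Fin.append_left, Fin.append_left, one_smul]
    · rw [Fin.append_right, Fin.append_right, Fin.append_right, zero_smul]
  have h2 : (fun j => (Fin.append (fun _ : Fin N => (0 : ℝ)) (fun _ : Fin N' => (1 : ℝ))) j •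
      (Fin.append v v') j) = Fin.append (fun _ : Fin N => (0 : Cn n)) v' := by
    funext l
    refine Fin.addCases (fun l => ?_) (fun l => ?_) l
    · rw [Fin.append_left, Fin.append_left, Fin.append_left, zero_smul]
    · rw [Fin.append_right, Fin.append_right, Fin.append_right, one_smul]
  rw [h1, h2, zon_append_zero, zon_zero_append] at h
  exact h

end Pool.Agent.H85.C3
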