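import Mathlib
import Pool.Agent.H85.C3.BM5
import Pool.Agent.H89.CZ.ZL
import Pool.Agent.H61.UProj.StmtEquiv

set_option autoImplicit false

/-!
# Main5: assembly (see `H89/CZ/Main.lean`)
-/

open MeasureTheory Pool.Agent.H61.UProj Pool.Agent.H89.CZ Pool.Agent.H35.T3
open scoped ENNReal Pointwise

noncomputable section

namespace Pool.Agent.H85.C3

private theorem Main5_finrank (n : ℕ) : Module.finrank ℝ (Cn n) = 2 * n := by
  rw [finrank_real_of_complex]
  simp

theorem main_c3 (n : ℕ) (hn : 4 ≤ n) (E : Submodule ℝ (Cn n))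
    (hE : Module.finrank ℝ E + 3 = 2 * n) : SD.HasBMZonoid E := by
  obtain ⟨k, hk⟩ : ∃ k, 2 * n = k + 2 + 3 := ⟨2 * n - 5, by omega⟩
  have hfr : Module.finrank ℝ (Cn n) = k + 2 + 3 := by rw [Main5_finrank, hk]
  let o : OrthonormalBasis (Fin (k + 2 + 3)) ℝ (Cn n) :=
    (stdOrthonormalBasis ℝ (Cn n)).reindex (finCongr hfr)
  have hE1 : Module.finrank ℝ E = k + 2 := by omega
  have hE2 : Module.finrank ℝ (Eᗮ : Submodule ℝ (Cn n)) = 3 := by
    have h1 := Submodule.finrank_add_finrank_orthogonal E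
    omega
  let bE := (stdOrthonormalBasis ℝ E).reindex (finCongr hE1)
  let bF := (stdOrthonormalBasis ℝ (Eᗮ : Submodule ℝ (Cn n))).reindex (finCongr hE2)
  have he : Orthonormal ℝ (fun j => (bE j : Cn n)) :=
    bE.orthonormal.comp_linearIsometry E.subtypeₗᵢ
  have ha : Orthonormal ℝ (fun j => (bF j : Cn n)) :=
    bF.orthonormal.comp_linearIsometry (Eᗮ : Submodule ℝ (Cn n)).subtypeₗᵢ
  obtain ⟨J, -, hJ⟩ := exists_iso he
  have hEs : Submodule.span ℝ (Set.range fun j => (bE j : Cn n)) = E := by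
    have h1 : (Set.range fun j => (bE j : Cn n)) = E.subtype '' (Set.range bE) := by
      rw [← Set.range_comp]
      rfl
    rw [h1, Submodule.span_image]
    have h2 : Submodule.span ℝ (Set.range bE) = ⊤ := by
      rw [← OrthonormalBasis.coe_toBasis]
      exact bE.toBasis.span_eq
    rw [h2, Submodule.map_subtype_top]
  rw [hEs] at hJ
  have hJa : ∀ y l, inner ℝ (J y) ((fun j => (bF j : Cn n)) l) = 0 := by
    intro y l
    have h1 : J y ∈ E := by
      rw [← hJ]
      exact ⟨y, rfl⟩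
    exact Submodule.inner_right_of_mem_orthogonal h1 (bF l).2
  have hp : (1 / (Module.finrank ℝ E : ℝ)) = 1 / ((k : ℝ) + 2) := by
    rw [hE1]
    push_cast
    ring
  intro K L hK hL hKz hLz
  have hp0 : (0 : ℝ) < 1 / ((k : ℝ) + 2) := by positivity
  have h4 := bm_limit J (1 / ((k : ℝ) + 2)) hp0
    (fun Z Z' hZ hZ' => bm_zonotope_c3 o hn ha J hJa Z Z' hZ hZ') hKz hLz
  rw [hp, Stmt.VE_eq, Stmt.VE_eq, Stmt.VE_eq]
  rw [hJ] at h4
  exact h4

end Pool.Agent.H85.C3
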